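import Pool.Agent.H31.Thr.T2_Vir

/-!
The endgame of the theorem of Feit and Thompson for groups of bounded rank and large primes.

Definitions. A system consists of subgroups H i ⊴ L i (i in a finite index set) of a finite group
G, and a relation att i x g (g lies in one of the conjugacy classes of G attached to the element
x of H i). In the case of TI subgroups att i x g means that g is conjugate to x; in the general
case it means that g is conjugate to an element of the coset x R(x).
-/

open Finset

namespace Pool.Agent.H87.EG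

open Pool.Agent.H7.Artin Pool.Agent.H72.Sol Pool.Agent.H31.Thr

/-- The data of the endgame. -/
structure Sys (G : Type) [Group G] [Finite G] (ι : Type) where
  /-- the local subgroups -/
  L : ι → Subgroup G
  /-- their kernels -/
  H : ι → Subgroup G
  hle : ∀ i, H i ≤ L i
  hnm : ∀ i, ∀ l ∈ L i, ∀ x ∈ H i, l * x * l⁻¹ ∈ H i
  /-- the element of the group is attached to the element of the kernel -/
  att : ι → G → G → Prop
  att_mem : ∀ i x g, att i x g → x ∈ H i ∧ x ≠ 1
  att_conj : ∀ i x g k, att i x g → att i x (k * g * k⁻¹)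
  att_one : ∀ i x, ¬ att i x 1
  att_inv : ∀ i x g, ∀ l ∈ L i, att i x g → att i (l * x * l⁻¹) g
  att_fus : ∀ i k x x' g, att i x g → att k x' g → i = k ∧ ∃ l ∈ L i, l * x * l⁻¹ = x'
  att_cnt : ∀ i x, x ∈ H i → x ≠ 1 →
    Nat.card {g : G // att i x g} * Nat.card {l : G // l ∈ L i ∧ l * x * l⁻¹ = x} = Nat.card G
  /-- the lift of a virtual character is a virtual character -/
  vir : ∀ i (a θ : G → ℂ), (∀ l ∈ L i, ∀ x, a (l * x * l⁻¹) = a x) → (∀ x, x ∉ H i → a x = 0) →
    a 1 = 0 → Vir (fun l : L i => a l) → (∀ x g, att i x g → θ g = a x) →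
    (∀ g, (∀ x, ¬ att i x g) → θ g = 0) → Vir θ

open Classical in
/-- the lift -/
noncomputable def tau {G : Type} [Group G] [Finite G] {ι : Type} (s : Sys G ι) (i : ι)
    (a : G → ℂ) (g : G) : ℂ :=
  if h : ∃ x, s.att i x g then a h.choose else 0

/-- the hermitian inner product -/
noncomputable def hp {G : Type} [Group G] [Fintype G] (f f' : G → ℂ) : ℂ :=
  (Nat.card G : ℂ)⁻¹ * ∑ g : G, f g * starRingEnd ℂ (f' g)

open Classical in
/-- a linear character of a subgroup, extended by zero -/
noncomputable def ex {G : Type} [Group G] (H : Subgroup G) (lam : H →* ℂˣ) (x : G) : ℂ :=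
  if h : x ∈ H then ((lam ⟨x, h⟩ : ℂˣ) : ℂ) else 0

open Classical in
/-- the function on L induced from H, extended by zero -/
noncomputable def ps {G : Type} [Group G] [Fintype G] (L H : Subgroup G) (lam : H →* ℂˣ)
    (x : G) : ℂ :=
  (Nat.card H : ℂ)⁻¹ * ∑ l : G, if l ∈ L then ex H lam (l⁻¹ * x * l) else 0

/-- a linear character of H whose stabilizer in L is H -/
def Reg {G : Type} [Group G] (L H : Subgroup G) (lam : H →* ℂˣ) : Prop :=
  ∀ l ∈ L, (∀ x, ex H lam (l⁻¹ * x * l) = ex H lam x) → l ∈ H

end Pool.Agent.H87.EG
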