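import Pool.Agent.H1.LF.Count

/-!
(E4): the number of elements attached to an element of H.
-/

open Finset

namespace Pool.Agent.H87.EG

open Pool.Agent.H1.LF

set_option linter.unusedSectionVars false

variable {G : Type} [Group G] [Finite G]

/-- orbit and stabilizer for conjugation by a subgroup -/
theorem card_cl (M : Subgroup G) (x : G) :
    Nat.card {y : G // ∃ m ∈ M, m * x * m⁻¹ = y} * Nat.card {l : G // l ∈ M ∧ l * x * l⁻¹ = x}
      = Nat.card M := by
  let _ : MulAction M G := MulAction.compHom G ((MulAut.conj : G →* MulAut G).comp M.subtype)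
  have hs : ∀ (m : M) (y : G), m • y = (m : G) * y * (m : G)⁻¹ := fun _ _ => rfl
  have h1 := Nat.card_congr (MulAction.orbitProdStabilizerEquivGroup M x)
  rw [Nat.card_prod] at h1
  rw [← h1]
  congr 1
  · refine Nat.card_congr (Equiv.subtypeEquivRight fun y => ?_)
    constructor
    · rintro ⟨m, hm, h⟩
      exact ⟨⟨m, hm⟩, h⟩
    · rintro ⟨m, h⟩
      exact ⟨m, m.2, h⟩
  · refine Nat.card_congr ⟨fun l => ⟨⟨l.1, l.2.1⟩, l.2.2⟩, fun m => ⟨m.1, m.1.2, m.2⟩,
      fun _ => rfl, fun _ => rfl⟩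

theorem cnt_aux {M F : Subgroup G} {L N : G → Subgroup G} (D : LiftData M F L N)
    (P : G → G → Prop)
    (hP : ∀ x g, P x g ↔ x ∈ F ∧ x ≠ 1 ∧ ∃ r ∈ RR M F N x, ∃ k : G, g = k * (x * r) * k⁻¹)
    (hfus : ∀ x x' g, P x g → P x' g → ∃ l ∈ M, l * x * l⁻¹ = x')
    (hinv : ∀ x g l, l ∈ M → P x g → P (l * x * l⁻¹) g) {x : G} (hx : x ∈ F) (hx1 : x ≠ 1) :
    Nat.card {g : G // P x g} * Nat.card {l : G // l ∈ M ∧ l * x * l⁻¹ = x}
      = Nat.card G := by
  classical
  let _ : Fintype G := Fintype.ofFinite G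
  have h1 := sum_lift D (fun g => if P x g then (1 : ℂ) else 0) (by
      intro g y
      have h : P x (g * y * g⁻¹) ↔ P x y := by
        rw [hP, hP]
        constructor
        · rintro ⟨a, b, r, hr, k, hk⟩
          refine ⟨a, b, r, hr, g⁻¹ * k, ?_⟩
          have h2 : y = g⁻¹ * (g * y * g⁻¹) * g := by group
          rw [h2, hk]
          group
        · rintro ⟨a, b, r, hr, k, rfl⟩
          exact ⟨a, b, r, hr, g * k, by group⟩
      by_cases h' : P x y
      · rw [if_pos h', if_pos (h.2 h')]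
      · rw [if_neg h', if_neg (fun h2 => h' (h.1 h2))])
    (by
      intro g hg
      rw [if_neg]
      intro h
      obtain ⟨a, b, r, hr, k, hk⟩ := (hP x g).1 h
      exact hg x a b r hr k hk)
  have hM : (Nat.card M : ℂ) ≠ 0 := by exact_mod_cast Nat.card_pos.ne'
  have h2 : ∀ y : G, (if y ∈ F ∧ y ≠ 1 then ((Nat.card M : ℂ) * Nat.card (RR M F N y))⁻¹ *
      ∑ r : G, (if r ∈ RR M F N y then (if P x (y * r) then (1 : ℂ) else 0) else 0) else 0)
      = (Nat.card M : ℂ)⁻¹ * (if ∃ m ∈ M, m * x * m⁻¹ = y then 1 else 0) := by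
    intro y
    by_cases hy : y ∈ F ∧ y ≠ 1
    · rw [if_pos hy]
      have hR : (Nat.card (RR M F N y) : ℂ) ≠ 0 := by exact_mod_cast Nat.card_pos.ne'
      have h3 : ∀ r : G, (if r ∈ RR M F N y then (if P x (y * r) then (1 : ℂ) else 0) else 0)
          = (if r ∈ RR M F N y then (1 : ℂ) else 0) *
            (if ∃ m ∈ M, m * x * m⁻¹ = y then 1 else 0) := by
        intro r
        by_cases hr : r ∈ RR M F N y
        · rw [if_pos hr, if_pos hr, one_mul]
          have hy' : P y (y * r) := (hP _ _).2 ⟨hy.1, hy.2, r, hr, 1, by group⟩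
          by_cases h4 : P x (y * r)
          · rw [if_pos h4, if_pos (hfus x y _ h4 hy')]
          · rw [if_neg h4, if_neg]
            rintro ⟨m, hm, h5⟩
            apply h4
            have h6 := hinv y (y * r) m⁻¹ (M.inv_mem hm) hy'
            have h7 : m⁻¹ * y * m⁻¹⁻¹ = x := by
              rw [← h5]
              group
            rwa [h7] at h6
        · rw [if_neg hr, if_neg hr, zero_mul]
      simp_rw [h3]
      rw [← Finset.sum_mul]
      have h4 : ∑ r : G, (if r ∈ RR M F N y then (1 : ℂ) else 0) = Nat.card (RR M F N y) := by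
        rw [Finset.sum_boole, Nat.card_eq_fintype_card, Fintype.card_subtype]
      rw [h4]
      field_simp
    · rw [if_neg hy, if_neg, mul_zero]
      rintro ⟨m, hm, rfl⟩
      exact hy ⟨D.nor m hm x hx, fun h => hx1 (conj_eq_one_iff.1 h)⟩
  simp_rw [h2] at h1
  rw [← Finset.mul_sum, Finset.sum_boole, Finset.sum_boole] at h1
  have h3 : ((univ.filter fun g : G => P x g).card : ℂ) = Nat.card {g : G // P x g} := by
    rw [Nat.card_eq_fintype_card, Fintype.card_subtype]
  have h4 : ((univ.filter fun y : G => ∃ m ∈ M, m * x * m⁻¹ = y).card : ℂ)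
      = Nat.card {y : G // ∃ m ∈ M, m * x * m⁻¹ = y} := by
    rw [Nat.card_eq_fintype_card, Fintype.card_subtype]
  rw [h3, h4] at h1
  have h5 := card_cl M x
  have h6 : (Nat.card {y : G // ∃ m ∈ M, m * x * m⁻¹ = y} : ℂ) *
      Nat.card {l : G // l ∈ M ∧ l * x * l⁻¹ = x} = Nat.card M := by exact_mod_cast h5
  have h7 : (Nat.card {g : G // P x g} : ℂ) * Nat.card {l : G // l ∈ M ∧ l * x * l⁻¹ = x}
      = Nat.card G := by
    rw [h1]
    field_simp
    exact h6
  exact_mod_cast h7

end Pool.Agent.H87.EG
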