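import Pool.Agent.H87.EG.Defs

/-!
MODULE CoefA (about 90 lines).

Library (already in the kernel, look at the files): irrChars, ip, ip_irr, irrChars_finite
(H7/Artin/Rep), ipF, ipF_eq (H72/Sol/Pos), exists_expand, pos_of_nrm_one, vir_irr, irr_one
(H31/Thr/T1_Complete), vir_character, ipF_char_char (H31/Thr/T2_Vir), char_inv
(H42/Wilde/Char: ρ.character g⁻¹ = conj (ρ.character g)).

`conj_irr`: the conjugate of an irreducible character is one. Proof: conj (χ g) = χ g⁻¹ is the
character of Representation.dual (char_dual), so it is a class function θ with integral and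
nonnegative coefficients (ipF_char_char); nrm θ = nrm χ = 1 (exists_expand, ip_irr). In the
expansion of θ (exists_expand) the coefficients are nonnegative integers with square sum 1, so
exactly one of them is 1, the others are 0, and θ is that irreducible character.

`one_irr`: the character 1 of the trivial representation on ℂ: same argument (norm 1), or
directly irreducible because of dimension 1.

`hp_irr`: hp θ χ = ipF θ χ for irreducible χ: conj (χ g) = χ g⁻¹ (char_inv).
-/

open Finset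

namespace Pool.Agent.H87.EG

open Pool.Agent.H7.Artin Pool.Agent.H72.Sol Pool.Agent.H31.Thr

variable {G : Type} [Group G] [Fintype G]

theorem hp_irr (θ : G → ℂ) {χ : G → ℂ} (h : χ ∈ irrChars G) : hp θ χ = ipF θ χ := by
  obtain ⟨V, _, _, _, ρ, hρ, rfl⟩ := h
  rw [ipF_eq]
  unfold hp ip
  congr 1
  refine Finset.sum_congr rfl fun g _ => ?_
  rw [Pool.Agent.H42.Wilde.char_inv]

/-- a character of norm one is irreducible -/
private theorem coefA_irr_of_nrm {V : Type} [AddCommGroup V] [Module ℂ V]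
    [FiniteDimensional ℂ V] (ρ : Representation ℂ G V) (hn : nrm ρ.character = 1) :
    ρ.character ∈ irrChars G := by
  classical
  have hc : ∀ g x, ρ.character (g * x * g⁻¹) = ρ.character x := fun g x =>
    Representation.char_conj ρ x g
  obtain ⟨S, hS, hexp, hpar⟩ := exists_expand hc
  have hint : ∀ χ ∈ S, ∃ n : ℕ, ipF ρ.character χ = n := by
    intro χ hχ
    obtain ⟨W, _, _, _, σ, hσ, rfl⟩ := (hS χ).1 hχ
    exact ipF_char_char ρ σ
  choose! n hn' using hint
  have h1 : ∑ χ ∈ S, (n χ) ^ 2 = 1 := by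
    have h2 : ((∑ χ ∈ S, (n χ) ^ 2 : ℕ) : ℝ) = 1 := by
      rw [← hn, hpar]
      push_cast
      refine Finset.sum_congr rfl fun χ hχ => ?_
      rw [hn' χ hχ, Complex.norm_natCast]
    exact_mod_cast h2
  obtain ⟨χ₀, hχ₀, hne⟩ : ∃ χ ∈ S, n χ ≠ 0 := by
    by_contra hcon
    push Not at hcon
    rw [Finset.sum_eq_zero (fun χ hχ => by rw [hcon χ hχ]; rfl)] at h1
    exact absurd h1 (by norm_num)
  have h3 : (n χ₀) ^ 2 + ∑ χ ∈ S.erase χ₀, (n χ) ^ 2 = 1 := by
    rw [Finset.add_sum_erase S (fun χ => (n χ) ^ 2) hχ₀]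
    exact h1
  have h4 : 1 ≤ (n χ₀) ^ 2 := Nat.one_le_iff_ne_zero.2 (pow_ne_zero 2 hne)
  have h5 : ∑ χ ∈ S.erase χ₀, (n χ) ^ 2 = 0 := by omega
  have h6 : n χ₀ = 1 := by
    have h7 : (n χ₀) ^ 2 = 1 := by omega
    nlinarith [Nat.one_le_iff_ne_zero.2 hne]
  have h7 : ∀ χ ∈ S, χ ≠ χ₀ → n χ = 0 := by
    intro χ hχ hne'
    have h8 := Finset.sum_eq_zero_iff.1 h5 χ (Finset.mem_erase.2 ⟨hne', hχ⟩)
    exact pow_eq_zero_iff (two_ne_zero) |>.1 h8
  have h8 : ρ.character = χ₀ := by
    funext g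
    rw [hexp g, Finset.sum_eq_single χ₀]
    · rw [hn' χ₀ hχ₀, h6, Nat.cast_one, one_mul]
    · intro χ hχ hne'
      rw [hn' χ hχ, h7 χ hχ hne', Nat.cast_zero, zero_mul]
    · intro h
      exact absurd hχ₀ h
  rw [h8]
  exact (hS χ₀).1 hχ₀

/-- irreducible characters have norm one -/
private theorem coefA_nrm_irr {χ : G → ℂ} (h : χ ∈ irrChars G) : nrm χ = 1 := by
  classical
  have hc : ∀ g x, χ (g * x * g⁻¹) = χ x := by
    obtain ⟨V, _, _, _, ρ, hρ, rfl⟩ := h
    exact fun g x => Representation.char_conj ρ x g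
  obtain ⟨S, hS, -, hpar⟩ := exists_expand hc
  rw [hpar, Finset.sum_eq_single χ]
  · rw [ipF_eq, (ip_irr h h).1 rfl]
    simp
  · intro ψ hψ hne
    rw [ipF_eq, (ip_irr h ((hS ψ).1 hψ)).2 (Ne.symm hne)]
    simp
  · intro h'
    exact absurd ((hS χ).2 h) h'

theorem conj_irr {χ : G → ℂ} (h : χ ∈ irrChars G) :
    (fun g => starRingEnd ℂ (χ g)) ∈ irrChars G := by
  have hn := coefA_nrm_irr h
  obtain ⟨V, _, _, _, ρ, hρ, rfl⟩ := h
  have h1 : (fun g => starRingEnd ℂ (ρ.character g)) = ρ.dual.character := by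
    funext g
    rw [Representation.char_dual, Pool.Agent.H42.Wilde.char_inv]
  rw [h1]
  apply coefA_irr_of_nrm
  rw [← h1, nrm_eq]
  rw [nrm_eq] at hn
  rw [← hn]
  congr 1
  refine Finset.sum_congr rfl fun g _ => ?_
  rw [RCLike.norm_conj]

theorem one_irr : (fun _ : G => (1 : ℂ)) ∈ irrChars G := by
  have h1 : (fun _ : G => (1 : ℂ)) = (1 : Representation ℂ G ℂ).character := by
    funext g
    unfold Representation.character
    rw [MonoidHom.one_apply, Module.End.one_eq_id, LinearMap.trace_id, Module.finrank_self,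
      Nat.cast_one]
  rw [h1]
  apply coefA_irr_of_nrm
  rw [← h1, nrm_eq]
  simp

end Pool.Agent.H87.EG
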