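import Pool.Agent.H87.EG.CoefA

/-!
MODULE CoefB (about 90 lines). Coefficients of virtual characters.

`co_spec`: vir_irr and hp_irr. `hp_sum`: from exists_expand (H31/Thr/T1_Complete):
θ g = ∑ ipF θ χ * χ g over a Finset of all irreducible characters, the same for θ', and the
irreducible characters are orthonormal for hp (ip_irr, hp_irr); the coefficients are the real
integers co θ χ. `vir_conj`: the pairing of conj θ with a character is the conjugate of the pairing
of θ with the dual character (an integer). `co_conj`: hp (conj θ) χ = conj (hp θ (conj χ)).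
-/

open Finset

namespace Pool.Agent.H87.EG

open Pool.Agent.H7.Artin Pool.Agent.H72.Sol Pool.Agent.H31.Thr

variable {G : Type} [Group G] [Fintype G]

/-- the coefficient of a virtual character -/
noncomputable def co (θ : G → ℂ) (χ : irrChars G) : ℤ := ⌊(hp θ χ.1).re⌋

theorem co_spec {θ : G → ℂ} (h : Vir θ) (χ : irrChars G) : hp θ χ.1 = co θ χ := by
  obtain ⟨n, hn⟩ := vir_irr h χ.2
  have h1 : hp θ χ.1 = n := by rw [hp_irr θ χ.2, hn]
  unfold co
  rw [h1, Complex.intCast_re, Int.floor_intCast]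

theorem hp_sum [Fintype (irrChars G)] {θ θ' : G → ℂ} (hc : ∀ g x, θ (g * x * g⁻¹) = θ x)
    (hv : Vir θ) (hc' : ∀ g x, θ' (g * x * g⁻¹) = θ' x) (hv' : Vir θ') :
    hp θ θ' = ((∑ χ : irrChars G, co θ χ * co θ' χ : ℤ) : ℂ) := by
  classical
  obtain ⟨S, hS, hexp, -⟩ := exists_expand hc'
  have h1 : hp θ θ' = ∑ χ ∈ S, starRingEnd ℂ (ipF θ' χ) * hp θ χ := by
    unfold hp
    simp_rw [mul_left_comm _ (Nat.card G : ℂ)⁻¹]
    rw [← Finset.mul_sum]
    congr 1
    simp_rw [Finset.mul_sum]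
    rw [Finset.sum_comm]
    refine Finset.sum_congr rfl fun g _ => ?_
    conv_lhs => rw [hexp g]
    rw [map_sum, Finset.mul_sum]
    refine Finset.sum_congr rfl fun χ _ => ?_
    rw [map_mul]
    ring
  rw [h1, Finset.sum_subtype S hS (fun χ => starRingEnd ℂ (ipF θ' χ) * hp θ χ)]
  push_cast
  refine Finset.sum_congr rfl fun χ _ => ?_
  rw [co_spec hv χ, ← hp_irr θ' χ.2, co_spec hv' χ]
  have h2 : starRingEnd ℂ ((co θ' χ : ℤ) : ℂ) = ((co θ' χ : ℤ) : ℂ) := map_intCast _ _
  rw [h2, mul_comm]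

theorem vir_conj {θ : G → ℂ} (h : Vir θ) : Vir (fun g => starRingEnd ℂ (θ g)) := by
  intro V _ _ _ ρ
  obtain ⟨n, hn⟩ := h _ ρ.dual
  refine ⟨n, ?_⟩
  have h1 : ipF (fun g => starRingEnd ℂ (θ g)) ρ.character =
      starRingEnd ℂ (ipF θ ρ.dual.character) := by
    rw [ipF_eq, ipF_eq]
    unfold ip
    rw [map_mul, map_inv₀, Complex.conj_natCast, map_sum]
    congr 1
    refine Finset.sum_congr rfl fun g _ => ?_
    rw [map_mul, Representation.char_dual, inv_inv, ← Pool.Agent.H42.Wilde.char_inv]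
  rw [h1, hn, map_intCast]

theorem co_conj {θ : G → ℂ} (h : Vir θ) (χ : irrChars G) :
    co (fun g => starRingEnd ℂ (θ g)) χ = co θ ⟨_, conj_irr χ.2⟩ := by
  have h1 : hp (fun g => starRingEnd ℂ (θ g)) χ.1 =
      starRingEnd ℂ (hp θ (fun g => starRingEnd ℂ (χ.1 g))) := by
    unfold hp
    rw [map_mul, map_inv₀, Complex.conj_natCast, map_sum]
    congr 1
    refine Finset.sum_congr rfl fun g _ => ?_
    rw [map_mul, Complex.conj_conj]
  unfold co
  rw [h1, Complex.conj_re]

end Pool.Agent.H87.EG
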