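import Pool.Agent.H3.FT.Cop3

/-!
If F is a nilpotent normal subgroup of M of order prime to its index, which contains its
centralizer in M, then M / F acts faithfully on F / F'.
-/

open Subgroup
open scoped commutatorElement

namespace Pool.Agent.H87.EG

open Pool.Agent.H3.FT

variable {G : Type} [Group G] [Finite G] {M F : Subgroup G}

/-- the elements of M which act trivially on F / F' -/
def trv (M F : Subgroup G) (hnm : ∀ l ∈ M, ∀ x ∈ F, l * x * l⁻¹ ∈ F) : Subgroup G where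
  carrier := {l | l ∈ M ∧ ∀ x ∈ F, l⁻¹ * x * l * x⁻¹ ∈ ⁅F, F⁆}
  one_mem' := ⟨M.one_mem, fun x _ => by simp⟩
  mul_mem' := by
    rintro a b ⟨ha, ha'⟩ ⟨hb, hb'⟩
    refine ⟨M.mul_mem ha hb, fun x hx => ?_⟩
    have hy : a⁻¹ * x * a ∈ F := by
      have := hnm a⁻¹ (M.inv_mem ha) x hx
      rwa [inv_inv] at this
    have h1 := hb' _ hy
    have h2 := ha' x hx
    have h3 : (a * b)⁻¹ * x * (a * b) * x⁻¹
        = (b⁻¹ * (a⁻¹ * x * a) * b * (a⁻¹ * x * a)⁻¹) * (a⁻¹ * x * a * x⁻¹) := by group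
    rw [h3]
    exact mul_mem h1 h2
  inv_mem' := by
    rintro a ⟨ha, ha'⟩
    refine ⟨M.inv_mem ha, fun x hx => ?_⟩
    have hy : a * x * a⁻¹ ∈ F := hnm a ha x hx
    have h1 := ha' _ hy
    have h3 : (a⁻¹)⁻¹ * x * a⁻¹ * x⁻¹
        = (a⁻¹ * (a * x * a⁻¹) * a * (a * x * a⁻¹)⁻¹)⁻¹ := by group
    rw [h3]
    exact inv_mem h1

theorem faith (hle : F ≤ M) (hnm : ∀ l ∈ M, ∀ x ∈ F, l * x * l⁻¹ ∈ F)
    (hnil : Group.IsNilpotent F) (hcop : (Nat.card F).Coprime (F.relIndex M))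
    (hC : ∀ m ∈ M, (∀ x ∈ F, m * x = x * m) → m ∈ F) :
    ∀ l ∈ M, (∀ x ∈ F, l⁻¹ * x * l * x⁻¹ ∈ ⁅F, F⁆) → l ∈ F := by
  intro l hl hl'
  have hlS : l ∈ trv M F hnm := ⟨hl, hl'⟩
  set n := F.relIndex M with hn
  have hN : (F.subgroupOf M).Normal := ⟨fun x hx m => hnm m m.2 x hx⟩
  have hcard : Nat.card F * n = Nat.card M := by
    have h := Subgroup.relIndex_mul_relIndex ⊥ F M bot_le hle
    rwa [relIndex_bot_left, relIndex_bot_left] at h
  have hln : l ^ n ∈ F := by
    have h1 := Subgroup.pow_index_mem (F.subgroupOf M) (⟨l, hl⟩ : M)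
    exact h1
  have hlM : l ^ (Nat.card M) = 1 := by
    have h := congrArg (fun y : M => (y : G)) (pow_card_eq_one' (x := (⟨l, hl⟩ : M)))
    exact h
  obtain ⟨m, hm0, hm1⟩ := Nat.chineseRemainder hcop 0 1
  obtain ⟨t, ht⟩ := (Nat.modEq_zero_iff_dvd.1 hm0)
  set u := l ^ m with hu
  have hun : u ^ n = 1 := by
    rw [hu, ← pow_mul, ht, show Nat.card F * t * n = Nat.card M * t by rw [← hcard]; ring,
      pow_mul, hlM, one_pow]
  have huS : u ∈ trv M F hnm := pow_mem hlS m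
  have huF : u ∈ F := by
    apply mem_of_parts
    intro q hq w hw hwq
    by_cases hw1 : w = 1
    · rw [hw1]
      exact one_mem _
    have hwS : w ∈ trv M F hnm := by
      obtain ⟨i, rfl⟩ := mem_zpowers_iff.1 hw
      exact zpow_mem huS i
    obtain ⟨k, hk⟩ := hwq
    have hqF : ¬ q ∣ Nat.card F := by
      intro hqF
      have h1 : orderOf w ∣ q ^ k := orderOf_dvd_of_pow_eq_one hk
      obtain ⟨j, _, hj⟩ := (Nat.dvd_prime_pow hq).1 h1
      have h2 : orderOf w ∣ n :=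
        (orderOf_dvd_of_mem_zpowers hw).trans (orderOf_dvd_of_pow_eq_one hun)
      have h3 : j ≠ 0 := by
        rintro rfl
        rw [pow_zero, orderOf_eq_one_iff] at hj
        exact hw1 hj
      have h4 : q ∣ n := (dvd_pow_self q h3).trans (hj ▸ h2)
      have h5 := Nat.dvd_gcd hqF h4
      rw [hcop.gcd_eq_one] at h5
      exact hq.one_lt.ne' (Nat.dvd_one.1 h5)
    have hAS : zpowers w ≤ trv M F hnm := by
      rw [zpowers_le]
      exact hwS
    have hAF : zpowers w ≤ normalizer (F : Set G) := by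
      rw [zpowers_le, mem_normalizer_iff]
      intro x
      constructor
      · intro hx
        exact hnm w hwS.1 x hx
      · intro hx
        have h1 := hnm w⁻¹ (M.inv_mem hwS.1) _ hx
        have h2 : w⁻¹ * (w * x * w⁻¹) * w⁻¹⁻¹ = x := by group
        rwa [h2] at h1
    have hcomm : ⁅F, zpowers w⁆ ≤ ⁅F, F⁆ := by
      rw [commutator_le]
      intro x hx a ha
      have h1 := (hAS (inv_mem ha)).2 x hx
      have h2 : ⁅x, a⁆ = (a⁻¹⁻¹ * x * a⁻¹ * x⁻¹)⁻¹ := by
        rw [commutatorElement_def]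
        group
      rw [h2]
      exact inv_mem h1
    have htop : (F ⊓ centralizer (zpowers w : Set G)).subgroupOf F ⊔ commutator F = ⊤ := by
      rw [eq_top_iff]
      rintro ⟨x, hx⟩ _
      obtain ⟨c, hc, hca, d, hd, hcd⟩ := cop_mul hq (zpowers_pgroup hk) hAF hqF hx
      have hd' := hcomm hd
      have h2 : (commutator F).map F.subtype = ⁅F, F⁆ := by
        rw [_root_.commutator_def, Subgroup.map_commutator, ← MonoidHom.range_eq_map,
          Subgroup.range_subtype]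
      rw [← h2] at hd'
      obtain ⟨d', hd1, rfl⟩ := hd'
      have h3 : (⟨x, hx⟩ : F) = ⟨c, hc⟩ * d' := Subtype.ext hcd
      rw [h3]
      refine mul_mem (mem_sup_left ?_) (mem_sup_right hd1)
      exact ⟨hc, fun a ha => hca a ha⟩
    have htop' := top_of_sup_comm hnil htop
    apply hC w hwS.1
    intro x hx
    have h1 : (⟨x, hx⟩ : F) ∈ (F ⊓ centralizer (zpowers w : Set G)).subgroupOf F := by
      rw [htop']
      exact mem_top _
    exact h1.2 w (mem_zpowers w)
  -- recover l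
  have hco : IsCoprime (m : ℤ) (n : ℤ) := by
    rw [Nat.isCoprime_iff_coprime]
    have h1 : Nat.gcd m n = Nat.gcd 1 n := hm1.gcd_eq
    rw [Nat.Coprime, h1, Nat.gcd_one_left]
  obtain ⟨a, b, hab⟩ := hco
  have h1 : l = u ^ a * (l ^ n) ^ b := by
    rw [hu, ← zpow_natCast, ← zpow_natCast, ← zpow_mul, ← zpow_mul, ← zpow_add, mul_comm (m : ℤ) a,
      mul_comm (n : ℤ) b, hab, zpow_one]
  rw [h1]
  exact mul_mem (zpow_mem huF a) (zpow_mem hln b)

end Pool.Agent.H87.EG
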