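import Mathlib

/-!
Regular orbits of abelian coprime automorphism groups on finite abelian groups of odd order
(abstract form).
-/

open Finset

namespace Pool.Agent.H87.EG

set_option linter.unusedSectionVars false

section

variable {L B : Type} [Group L] [CommGroup B] [MulDistribMulAction L B]

/-- the homomorphism b ↦ (l b) / b -/
def dlt (l : L) : B →* B where
  toFun b := l • b * b⁻¹
  map_one' := by simp
  map_mul' a b := by
    rw [smul_mul', mul_inv]
    exact mul_mul_mul_comm _ _ _ _

theorem dlt_apply (l : L) (b : B) : dlt l b = l • b * b⁻¹ := rfl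

theorem mem_ker_dlt {l : L} {b : B} : b ∈ (dlt (B := B) l).ker ↔ l • b = b := by
  rw [MonoidHom.mem_ker, dlt_apply, mul_inv_eq_one]

theorem norm_dlt (l : L) (b : B) (n : ℕ) :
    ∏ j ∈ range n, (l ^ j) • (dlt l b) = (l ^ n) • b * b⁻¹ := by
  induction n with
  | zero => simp
  | succ n ih =>
    rw [Finset.prod_range_succ, ih, dlt_apply, smul_mul', smul_inv', smul_smul, ← pow_succ,
      mul_comm ((l ^ n) • b) b⁻¹, mul_assoc, mul_comm ((l ^ (n + 1)) • b), mul_inv_cancel_left,
      mul_comm]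

theorem pow_smul_fix {l : L} {b : B} (h : l • b = b) (j : ℕ) : (l ^ j) • b = b := by
  induction j with
  | zero => simp
  | succ j ih => rw [pow_succ, mul_smul, h, ih]

variable [Finite B] {K : Subgroup L} {n : ℕ} (hK : ∀ k ∈ K, ∀ b : B, k • b = b)
  (hn : ∀ l : L, l ^ n ∈ K) (hcop : (Nat.card B).Coprime n)

include hK hn hcop

theorem dlt_disj (l : L) : Disjoint (dlt (B := B) l).ker (dlt (B := B) l).range := by
  rw [Subgroup.disjoint_def]
  rintro b h1 ⟨c, rfl⟩
  rw [mem_ker_dlt] at h1
  have h2 : (dlt l c) ^ n = 1 := by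
    have h3 := norm_dlt l c n
    rw [hK _ (hn l), mul_inv_cancel] at h3
    rw [← h3, Finset.prod_congr rfl (fun j _ => pow_smul_fix h1 j), Finset.prod_const,
      Finset.card_range]
  have h3 : (dlt l c) ^ (Nat.card B) = 1 := pow_card_eq_one'
  have h4 := Nat.dvd_gcd (orderOf_dvd_of_pow_eq_one h3) (orderOf_dvd_of_pow_eq_one h2)
  rw [hcop.gcd_eq_one, Nat.dvd_one, orderOf_eq_one_iff] at h4
  exact h4

theorem dlt_decomp (l : L) (b : B) :
    ∃ a d : B, l • a = a ∧ d ∈ (dlt (B := B) l).range ∧ b = a * d := by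
  have h1 : Nat.card (dlt (B := B) l).ker * Nat.card (dlt (B := B) l).range = Nat.card B := by
    rw [← Subgroup.index_ker, Subgroup.card_mul_index]
  have h2 := Subgroup.isComplement'_of_card_mul_and_disjoint h1 (dlt_disj hK hn hcop l)
  obtain ⟨⟨a, d⟩, had⟩ := h2.2 b
  exact ⟨a.1, d.1, mem_ker_dlt.1 a.2, d.2, had.symm⟩

/-- the decomposition is unique -/
theorem dlt_uniq (l : L) {a a' d d' : B} (ha : l • a = a) (ha' : l • a' = a')
    (hd : d ∈ (dlt (B := B) l).range) (hd' : d' ∈ (dlt (B := B) l).range) (h : a * d = a' * d') :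
    a = a' ∧ d = d' := by
  have h1 : a'⁻¹ * a = d' * d⁻¹ := by
    rw [inv_mul_eq_iff_eq_mul, ← mul_assoc, eq_mul_inv_iff_mul_eq, h]
  have h2 : a'⁻¹ * a ∈ (dlt (B := B) l).ker := by
    rw [mem_ker_dlt, smul_mul', smul_inv', ha, ha']
  have h3 : a'⁻¹ * a ∈ (dlt (B := B) l).range := by
    rw [h1]
    exact mul_mem hd' (inv_mem hd)
  have h4 := (Subgroup.disjoint_def.1 (dlt_disj hK hn hcop l)) h2 h3
  have h5 : a = a' := (inv_mul_eq_one.1 h4).symm
  refine ⟨h5, ?_⟩
  rw [h5] at h
  exact mul_left_cancel h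

/-- the part moved by l is invariant -/
theorem smul_range (hab : ∀ (k l : L) (b : B), k • l • b = l • k • b) (l k : L) {d : B}
    (hd : d ∈ (dlt (B := B) l).range) : k • d ∈ (dlt (B := B) l).range := by
  obtain ⟨c, rfl⟩ := hd
  refine ⟨k • c, ?_⟩
  rw [dlt_apply, dlt_apply, smul_mul', smul_inv', hab]

/-- the stabilizer of a product -/
theorem sta_mul (hab : ∀ (k l : L) (b : B), k • l • b = l • k • b) (l : L) {a d : B}
    (ha : l • a = a) (hd : d ∈ (dlt (B := B) l).range) (k : L) :
    k • (a * d) = a * d ↔ k • a = a ∧ k • d = d := by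
  constructor
  · intro h
    rw [smul_mul'] at h
    refine dlt_uniq hK hn hcop l ?_ ha (smul_range hK hn hcop hab l k hd) hd h
    rw [hab, ha]
  · rintro ⟨h1, h2⟩
    rw [smul_mul', h1, h2]

theorem exists_regular [Finite L] (hab : ∀ (k l : L) (b : B), k • l • b = l • k • b)
    (hf : ∀ l : L, (∀ b : B, l • b = b) → l ∈ K) :
    ∃ b : B, ∀ l : L, l • b = b → l ∈ K := by
  classical
  obtain ⟨b, hb⟩ := Finite.exists_min (fun b : B => Nat.card {l : L // l • b = b})
  refine ⟨b, fun l hl => ?_⟩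
  by_contra hlK
  obtain ⟨c, hc⟩ : ∃ c : B, l • c ≠ c := by
    by_contra hcon
    push Not at hcon
    exact hlK (hf l hcon)
  have hd : dlt l c ∈ (dlt (B := B) l).range := ⟨c, rfl⟩
  have hd1 : dlt l c ≠ 1 := by
    rw [dlt_apply]
    intro h
    exact hc (mul_inv_eq_one.1 h)
  have h1 := hb (b * dlt l c)
  have h2 : ∀ k : L, k • (b * dlt l c) = b * dlt l c ↔ k • b = b ∧ k • dlt l c = dlt l c :=
    sta_mul hK hn hcop hab l hl hd
  have h3 : Nat.card {k : L // k • (b * dlt l c) = b * dlt l c} < Nat.card {k : L // k • b = b} := by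
    have h4 : {k : L | k • (b * dlt l c) = b * dlt l c} ⊂ {k : L | k • b = b} := by
      rw [Set.ssubset_iff_of_subset]
      · refine ⟨l, hl, fun h => ?_⟩
        have h5 := ((h2 l).1 h).2
        have h6 := (Subgroup.disjoint_def.1 (dlt_disj hK hn hcop l)) (mem_ker_dlt.2 h5) hd
        exact hd1 h6
      · intro k hk
        exact ((h2 k).1 hk).1
    exact Set.ncard_lt_ncard h4 (Set.toFinite _)
  omega

theorem four_orbits [Finite L] (hab : ∀ (k l : L) (b : B), k • l • b = l • k • b)
    (hf : ∀ l : L, (∀ b : B, l • b = b) → l ∈ K) (hoL : Odd (Nat.card L))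
    (hoB : Odd (Nat.card B)) :
    (∀ b : B, b ≠ 1 → ∀ l : L, l • b = b → l ∈ K) ∨
    ∃ b c : B, (∀ l : L, l • b = b → l ∈ K) ∧ (∀ l : L, l • c = c → l ∈ K) ∧
      (∀ l : L, l • b ≠ c) ∧ (∀ l : L, l • b⁻¹ ≠ c) := by
  by_cases hall : ∀ b : B, b ≠ 1 → ∀ l : L, l • b = b → l ∈ K
  · exact Or.inl hall
  right
  push Not at hall
  obtain ⟨e, he1, l, hle, hlK⟩ := hall
  obtain ⟨b, hb⟩ := exists_regular hK hn hcop hab hf
  obtain ⟨a, d, ha, hd, rfl⟩ := dlt_decomp hK hn hcop l b
  have hsta := fun k => sta_mul hK hn hcop hab l ha hd k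
  -- an element inverting d fixes d
  have hinv : ∀ k : L, k • d = d⁻¹ → d = 1 := by
    intro k hk
    have h1 : (k ^ 2) • d = d := by
      rw [pow_two, mul_smul, hk, smul_inv', hk, inv_inv]
    have h2 : k • d = d := by
      obtain ⟨m, hm⟩ : ∃ m, (k ^ 2) ^ m = k := by
        have h3 : Odd (orderOf k) := hoL.of_dvd_nat (orderOf_dvd_natCard k)
        obtain ⟨m, hm⟩ := h3
        refine ⟨m + 1, ?_⟩
        rw [← pow_mul, show 2 * (m + 1) = (2 * m + 1) + 1 by ring, ← hm, pow_succ,
          pow_orderOf_eq_one, one_mul]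
      have h4 := pow_smul_fix h1 m
      rwa [hm] at h4
    rw [h2] at hk
    have h5 : d ^ 2 = 1 := by
      rw [pow_two]
      nth_rewrite 1 [hk]
      exact inv_mul_cancel d
    have h6 : Odd (orderOf d) := hoB.of_dvd_nat (orderOf_dvd_natCard d)
    have h7 : orderOf d ∣ 2 := orderOf_dvd_of_pow_eq_one h5
    rcases (Nat.dvd_prime Nat.prime_two).1 h7 with h8 | h8
    · exact orderOf_eq_one_iff.1 h8
    · rw [h8] at h6
      exact absurd h6 (by decide)
  have hd1 : d ≠ 1 := by
    rintro rfl
    apply hlK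
    apply hb
    rw [mul_one, ha]
  have hdi : d⁻¹ ∈ (dlt (B := B) l).range := inv_mem hd
  by_cases ha1 : a = 1
  · subst ha1
    -- use e * d
    have hstae := fun k => sta_mul hK hn hcop hab l hle hd k
    refine ⟨1 * d, e * d, hb, ?_, ?_, ?_⟩
    · intro k hk
      apply hb
      rw [one_mul]
      exact ((hstae k).1 hk).2
    · intro k hk
      rw [smul_mul', smul_one] at hk
      have h1 := dlt_uniq hK hn hcop l (smul_one l) hle
        (smul_range hK hn hcop hab l k hd) hd hk
      exact he1 h1.1.symm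
    · intro k hk
      rw [mul_inv, inv_one, smul_mul', smul_one] at hk
      have h1 := dlt_uniq hK hn hcop l (smul_one l) hle
        (smul_range hK hn hcop hab l k hdi) hd hk
      exact he1 h1.1.symm
  · have hstai := fun k => sta_mul hK hn hcop hab l ha hdi k
    refine ⟨a * d, a * d⁻¹, hb, ?_, ?_, ?_⟩
    · intro k hk
      obtain ⟨h1, h2⟩ := (hstai k).1 hk
      apply hb
      rw [hsta]
      refine ⟨h1, ?_⟩
      rw [smul_inv'] at h2
      exact inv_injective h2
    · intro k hk
      rw [smul_mul'] at hk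
      have h1 := dlt_uniq hK hn hcop l (by rw [← hab, ha]) ha
        (smul_range hK hn hcop hab l k hd) hdi hk
      exact hd1 (hinv k h1.2)
    · intro k hk
      rw [mul_inv, smul_mul'] at hk
      have h1 := dlt_uniq hK hn hcop l (by rw [← hab, smul_inv', ha]) ha
        (smul_range hK hn hcop hab l k hdi) hdi hk
      -- k inverts a and fixes d
      have h2 : k • a = a⁻¹ := by
        have := h1.1
        rw [smul_inv'] at this
        exact inv_eq_iff_eq_inv.1 this
      have h3 : a = 1 := by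
        have h4 : (k ^ 2) • a = a := by
          rw [pow_two, mul_smul, h2, smul_inv', h2, inv_inv]
        have h5 : k • a = a := by
          obtain ⟨m, hm⟩ : ∃ m, (k ^ 2) ^ m = k := by
            have h3 : Odd (orderOf k) := hoL.of_dvd_nat (orderOf_dvd_natCard k)
            obtain ⟨m, hm⟩ := h3
            refine ⟨m + 1, ?_⟩
            rw [← pow_mul, show 2 * (m + 1) = (2 * m + 1) + 1 by ring, ← hm, pow_succ,
              pow_orderOf_eq_one, one_mul]
          have h4 := pow_smul_fix h4 m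
          rwa [hm] at h4
        rw [h5] at h2
        have h6 : a ^ 2 = 1 := by
          rw [pow_two]
          nth_rewrite 1 [h2]
          exact inv_mul_cancel a
        have h7 : Odd (orderOf a) := hoB.of_dvd_nat (orderOf_dvd_natCard a)
        have h8 : orderOf a ∣ 2 := orderOf_dvd_of_pow_eq_one h6
        rcases (Nat.dvd_prime Nat.prime_two).1 h8 with h9 | h9
        · exact orderOf_eq_one_iff.1 h9
        · rw [h9] at h7
          exact absurd h7 (by decide)
      exact ha1 h3

end

end Pool.Agent.H87.EG
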