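import Pool.Agent.H87.EG.Defs
import Pool.Agent.H87.EG.RegAbs

/-!
MODULE Regul. Existence of regular linear characters, and of four regular orbits if some nontrivial
linear character is not regular. L / H is abelian of order prime to the order of H, and acts
faithfully on H / H'.
-/

open Finset

namespace Pool.Agent.H87.EG

set_option linter.unusedSectionVars false

variable {G : Type} [Group G] {L H : Subgroup G}

section act

variable (hnm : ∀ l ∈ L, ∀ x ∈ H, l * x * l⁻¹ ∈ H)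

/-- conjugation by the inverse -/
def cjm (hnm : ∀ l ∈ L, ∀ x ∈ H, l * x * l⁻¹ ∈ H) (l : L) : H →* H where
  toFun x := ⟨(l : G)⁻¹ * x * l, by
    have := hnm (l : G)⁻¹ (L.inv_mem l.2) x x.2
    rwa [inv_inv] at this⟩
  map_one' := Subtype.ext (by simp)
  map_mul' x y := Subtype.ext (by
    change (l : G)⁻¹ * (x * y) * l = ((l : G)⁻¹ * x * l) * ((l : G)⁻¹ * y * l)
    group)

/-- the action on the linear characters -/
def ac (l : L) (lam : H →* ℂˣ) : H →* ℂˣ := lam.comp (cjm hnm l)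

theorem ac_apply (l : L) (lam : H →* ℂˣ) (x : H) : ac hnm l lam x = lam (cjm hnm l x) := rfl

theorem ac_one (lam : H →* ℂˣ) : ac hnm 1 lam = lam := by
  ext x
  rw [ac_apply]
  congr 2
  apply Subtype.ext
  change ((1 : L) : G)⁻¹ * x * ((1 : L) : G) = x
  simp

theorem ac_mul (k l : L) (lam : H →* ℂˣ) : ac hnm (k * l) lam = ac hnm k (ac hnm l lam) := by
  ext x
  rw [ac_apply, ac_apply, ac_apply]
  congr 2
  apply Subtype.ext
  change ((k * l : L) : G)⁻¹ * x * ((k * l : L) : G) = (l : G)⁻¹ * ((k : G)⁻¹ * x * k) * l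
  rw [Subgroup.coe_mul]
  group

theorem ac_map_mul (l : L) (lam mu : H →* ℂˣ) :
    ac hnm l (lam * mu) = ac hnm l lam * ac hnm l mu := rfl

theorem ac_map_one (l : L) : ac hnm l 1 = 1 := rfl

theorem ac_map_inv (l : L) (lam : H →* ℂˣ) : ac hnm l lam⁻¹ = (ac hnm l lam)⁻¹ := rfl

theorem ac_of_mem {l : L} (hl : (l : G) ∈ H) (lam : H →* ℂˣ) : ac hnm l lam = lam := by
  ext x
  rw [ac_apply]
  have h1 : cjm hnm l x = (⟨l, hl⟩ : H)⁻¹ * x * ⟨l, hl⟩ := rfl
  rw [h1, map_mul, map_mul, map_inv, mul_comm, mul_inv_cancel_left]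

theorem ac_inv_ac (l : L) (lam : H →* ℂˣ) : ac hnm l⁻¹ (ac hnm l lam) = lam := by
  rw [← ac_mul, inv_mul_cancel, ac_one]

theorem ac_comm (hab : ∀ a ∈ L, ∀ b ∈ L, a * b * a⁻¹ * b⁻¹ ∈ H) (k l : L) (lam : H →* ℂˣ) :
    ac hnm k (ac hnm l lam) = ac hnm l (ac hnm k lam) := by
  have h1 : k * l = (k * l * k⁻¹ * l⁻¹) * (l * k) := by group
  rw [← ac_mul, ← ac_mul, h1, ac_mul hnm (k * l * k⁻¹ * l⁻¹)]
  exact ac_of_mem hnm (hab k k.2 l l.2) _

/-- the stabilizer -/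
def sta (lam : H →* ℂˣ) : Subgroup L where
  carrier := {l | ac hnm l lam = lam}
  one_mem' := ac_one hnm lam
  mul_mem' := by
    intro a b ha hb
    change ac hnm (a * b) lam = lam
    rw [ac_mul, (hb : ac hnm b lam = lam), (ha : ac hnm a lam = lam)]
  inv_mem' := by
    intro a ha
    change ac hnm a⁻¹ lam = lam
    conv_lhs => rw [← (ha : ac hnm a lam = lam)]
    exact ac_inv_ac hnm a lam

theorem mem_sta {lam : H →* ℂˣ} {l : L} : l ∈ sta hnm lam ↔ ac hnm l lam = lam := Iff.rfl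

theorem ex_iff (l : L) (lam mu : H →* ℂˣ) :
    (∀ x, ex H lam ((l : G)⁻¹ * x * l) = ex H mu x) ↔ ac hnm l lam = mu := by
  have hm : ∀ x, (l : G)⁻¹ * x * l ∈ H ↔ x ∈ H := by
    intro x
    constructor
    · intro h
      have := hnm l l.2 _ h
      have h2 : (l : G) * ((l : G)⁻¹ * x * l) * (l : G)⁻¹ = x := by group
      rwa [h2] at this
    · intro h
      have := hnm (l : G)⁻¹ (L.inv_mem l.2) x h
      rwa [inv_inv] at this
  constructor
  · intro h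
    ext x
    have h1 := h x
    unfold ex at h1
    rw [dif_pos ((hm x).2 x.2), dif_pos x.2] at h1
    exact h1
  · rintro rfl x
    unfold ex
    by_cases hx : x ∈ H
    · rw [dif_pos ((hm x).2 hx), dif_pos hx]
      rfl
    · rw [dif_neg (fun h => hx ((hm x).1 h)), dif_neg hx]

theorem reg_iff (lam : H →* ℂˣ) : Reg L H lam ↔ ∀ l ∈ sta hnm lam, (l : G) ∈ H := by
  constructor
  · intro h l hl
    exact h l l.2 ((ex_iff hnm l lam lam).2 hl)
  · intro h l hl h1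
    exact h ⟨l, hl⟩ ((ex_iff hnm ⟨l, hl⟩ lam lam).1 h1)

end act

section coprime

variable [Finite G] (hnm : ∀ l ∈ L, ∀ x ∈ H, l * x * l⁻¹ ∈ H)

theorem normal_sub (hnm : ∀ l ∈ L, ∀ x ∈ H, l * x * l⁻¹ ∈ H) : (H.subgroupOf L).Normal :=
  ⟨fun x hx l => hnm l l.2 x hx⟩

/-- the action on the linear characters -/
@[reducible] def mact (hnm : ∀ l ∈ L, ∀ x ∈ H, l * x * l⁻¹ ∈ H) :
    MulDistribMulAction L (H →* ℂˣ) where
  smul l lam := ac hnm l lam
  one_smul := ac_one hnm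
  mul_smul := ac_mul hnm
  smul_one _ := rfl
  smul_mul _ _ _ := rfl

theorem sep (hfaith : ∀ l ∈ L, (∀ x ∈ H, l⁻¹ * x * l * x⁻¹ ∈ ⁅H, H⁆) → l ∈ H) (l : L)
    (h : ∀ lam : H →* ℂˣ, ac hnm l lam = lam) : (l : G) ∈ H := by
  apply hfaith l l.2
  intro x hx
  by_contra hcon
  have hc : (cjm hnm l ⟨x, hx⟩ * (⟨x, hx⟩ : H)⁻¹) ∉ commutator H := by
    intro h1
    apply hcon
    have h2 : (commutator H).map H.subtype = ⁅H, H⁆ := by
      rw [commutator_def, Subgroup.map_commutator, ← MonoidHom.range_eq_map, Subgroup.range_subtype]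
    rw [← h2]
    exact ⟨_, h1, rfl⟩
  have h1 : Abelianization.of (cjm hnm l ⟨x, hx⟩ * (⟨x, hx⟩ : H)⁻¹) ≠ 1 := by
    intro h2
    apply hc
    rw [← Abelianization.ker_of]
    exact h2
  obtain ⟨φ, hφ⟩ := CommGroup.exists_apply_ne_one_of_hasEnoughRootsOfUnity
    (Abelianization H) ℂ h1
  apply hφ
  have h2 := DFunLike.congr_fun (h (φ.comp Abelianization.of)) ⟨x, hx⟩
  have h3 : φ (Abelianization.of (cjm hnm l ⟨x, hx⟩)) = φ (Abelianization.of (⟨x, hx⟩ : H)) := h2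
  rw [map_mul, map_mul, map_inv, map_inv, h3, mul_inv_cancel]

theorem card_char_dvd (H : Subgroup G) : Nat.card (H →* ℂˣ) ∣ Nat.card H := by
  have h1 : Nat.card (H →* ℂˣ) = Nat.card (Abelianization H →* ℂˣ) :=
    Nat.card_congr Abelianization.lift
  rw [h1, CommGroup.card_monoidHom_of_hasEnoughRootsOfUnity]
  exact Subgroup.card_quotient_dvd_card (commutator H)

/-- **Regular linear characters.** -/
theorem regular (hodd : Odd (Nat.card L)) (hle : H ≤ L)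
    (hnm : ∀ l ∈ L, ∀ x ∈ H, l * x * l⁻¹ ∈ H)
    (hcop : (Nat.card H).Coprime (H.relIndex L))
    (hab : ∀ a ∈ L, ∀ b ∈ L, a * b * a⁻¹ * b⁻¹ ∈ H)
    (hfaith : ∀ l ∈ L, (∀ x ∈ H, l⁻¹ * x * l * x⁻¹ ∈ ⁅H, H⁆) → l ∈ H) :
    (∃ lam : H →* ℂˣ, Reg L H lam) ∧
    ((∀ lam : H →* ℂˣ, lam ≠ 1 → Reg L H lam) ∨
      ∃ lam mu : H →* ℂˣ, Reg L H lam ∧ Reg L H mu ∧
        (∀ l ∈ L, ∃ x, ex H lam (l⁻¹ * x * l) ≠ ex H mu x) ∧
        (∀ l ∈ L, ∃ x, ex H lam⁻¹ (l⁻¹ * x * l) ≠ ex H mu x)) := by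
  let _ : MulDistribMulAction L (H →* ℂˣ) := mact hnm
  have hN := normal_sub hnm
  have hfin : Finite (H →* ℂˣ) := inferInstance
  have hK : ∀ k ∈ H.subgroupOf L, ∀ b : H →* ℂˣ, k • b = b := fun k hk b => ac_of_mem hnm hk b
  have hn : ∀ l : L, l ^ (H.relIndex L) ∈ H.subgroupOf L := fun l =>
    Subgroup.pow_index_mem (H.subgroupOf L) l
  have hd := card_char_dvd H
  have hcop' : (Nat.card (H →* ℂˣ)).Coprime (H.relIndex L) := hcop.coprime_dvd_left hd
  have hcomm : ∀ (k l : L) (b : H →* ℂˣ), k • l • b = l • k • b := fun k l b =>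
    ac_comm hnm hab k l b
  have hf : ∀ l : L, (∀ b : H →* ℂˣ, l • b = b) → l ∈ H.subgroupOf L := fun l h =>
    sep hnm hfaith l h
  have hoB : Odd (Nat.card (H →* ℂˣ)) :=
    (hodd.of_dvd_nat (Subgroup.card_dvd_of_le hle)).of_dvd_nat hd
  have hreg : ∀ b : H →* ℂˣ, (∀ l : L, l • b = b → l ∈ H.subgroupOf L) → Reg L H b := by
    intro b hb
    rw [reg_iff hnm]
    intro l hl
    exact hb l hl
  have hne : ∀ b c : H →* ℂˣ, (∀ l : L, l • b ≠ c) →
      ∀ l ∈ L, ∃ x, ex H b (l⁻¹ * x * l) ≠ ex H c x := by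
    intro b c h l hl
    by_contra hcon
    push Not at hcon
    exact h ⟨l, hl⟩ ((ex_iff hnm ⟨l, hl⟩ b c).1 hcon)
  refine ⟨?_, ?_⟩
  · obtain ⟨b, hb⟩ := exists_regular hK hn hcop' hcomm hf
    exact ⟨b, hreg b hb⟩
  · rcases four_orbits hK hn hcop' hcomm hf hodd hoB with h | ⟨b, c, h1, h2, h3, h4⟩
    · exact Or.inl fun b hb => hreg b (h b hb)
    · exact Or.inr ⟨b, c, hreg b h1, hreg c h2, hne b c h3, hne b⁻¹ c h4⟩

end coprime

end Pool.Agent.H87.EG
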