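import Pool.Agent.H87.EG.Main
import Pool.Agent.H87.EG.Regul
import Pool.Agent.H87.EG.Faith
import Pool.Agent.H87.EG.Cnt
import Pool.Agent.H1.LF.Lift

/-!
The endgame for a family of local subgroups with lifting data.
-/

open Finset

namespace Pool.Agent.H87.EG

open Pool.Agent.H7.Artin Pool.Agent.H72.Sol Pool.Agent.H31.Thr Pool.Agent.H1.LF

variable {G : Type} [Group G]

/-- g is conjugate to an element of the coset x R(x) -/
def attOf (M F : Subgroup G) (N : G → Subgroup G) (x g : G) : Prop :=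
  x ∈ F ∧ x ≠ 1 ∧ ∃ r ∈ RR M F N x, ∃ k : G, g = k * (x * r) * k⁻¹

theorem attOf_conj {M F : Subgroup G} {N : G → Subgroup G} {x g : G} (h : attOf M F N x g)
    (k : G) : attOf M F N x (k * g * k⁻¹) := by
  obtain ⟨hx, hx1, r, hr, j, rfl⟩ := h
  exact ⟨hx, hx1, r, hr, k * j, by group⟩

theorem attOf_one [Finite G] {M F : Subgroup G} {L N : G → Subgroup G} (D : LiftData M F L N)
    (x : G) : ¬ attOf M F N x 1 := by
  rintro ⟨hx, hx1, r, hr, k, h⟩
  have h1 : k * (x * r) * k⁻¹ = 1 * 1 := by rw [← h, mul_one]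
  have h2 := Pool.Agent.H1.LF.sep D hx F.one_mem hr (RR M F N 1).one_mem h1
  exact hx1 (conj_eq_one_iff.1 h2.1)

theorem attOf_inv [Finite G] {M F : Subgroup G} {L N : G → Subgroup G} (D : LiftData M F L N)
    {x g l : G} (hl : l ∈ M) (h : attOf M F N x g) : attOf M F N (l * x * l⁻¹) g := by
  obtain ⟨hx, hx1, r, hr, j, rfl⟩ := h
  refine ⟨D.nor l hl x hx, fun h' => hx1 (conj_eq_one_iff.1 h'), l * r * l⁻¹, RR_conj D hr hl,
    j * l⁻¹, ?_⟩
  group

theorem attOf_fus [Finite G] {M F : Subgroup G} {L N : G → Subgroup G} (D : LiftData M F L N)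
    {x x' g : G} (h : attOf M F N x g) (h' : attOf M F N x' g) : ∃ l ∈ M, l * x * l⁻¹ = x' := by
  obtain ⟨hx, hx1, r, hr, j, rfl⟩ := h
  obtain ⟨hx', hx1', r', hr', k, hk⟩ := h'
  have h1 : (k⁻¹ * j) * (x * r) * (k⁻¹ * j)⁻¹ = x' * r' := by
    have h2 : (k⁻¹ * j) * (x * r) * (k⁻¹ * j)⁻¹ = k⁻¹ * (j * (x * r) * j⁻¹) * k := by group
    rw [h2, hk]
    group
  have h2 := (Pool.Agent.H1.LF.sep D hx hx' hr hr' h1).1
  obtain ⟨m, hm, hmx⟩ := D.fus x hx hx1 (k⁻¹ * j) (by rw [h2]; exact hx')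
  exact ⟨m, hm, by rw [hmx, h2]⟩

/-- (E4) -/
theorem attOf_cnt [Finite G] {M F : Subgroup G} {L N : G → Subgroup G} (D : LiftData M F L N)
    {x : G} (hx : x ∈ F) (hx1 : x ≠ 1) :
    Nat.card {g : G // attOf M F N x g} * Nat.card {l : G // l ∈ M ∧ l * x * l⁻¹ = x}
      = Nat.card G :=
  cnt_aux D (attOf M F N) (fun _ _ => Iff.rfl) (fun _ _ _ h h' => attOf_fus D h h')
    (fun _ _ _ hl h => attOf_inv D hl h) hx hx1

/-- (E5) -/
theorem isLift_vir [Finite G] {M F : Subgroup G} {L N : G → Subgroup G} (D : LiftData M F L N)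
    {a : M → ℂ} {f : G → ℂ} (hc : ∀ m x : M, a (m * x * m⁻¹) = a x)
    (h0 : ∀ x : M, ((x : G) ∉ F ∨ x = 1) → a x = 0) (hv : Vir a) (hf : IsLift M F N a f) :
    Vir f :=
  IsLift.vir D hc hv h0 hf

/-- the system of the endgame -/
noncomputable def mkSys [Finite G] {ι : Type} (M F : ι → Subgroup G) (L N : ι → G → Subgroup G)
    (D : ∀ i, LiftData (M i) (F i) (L i) (N i))
    (hdis : ∀ i k, i ≠ k → ∀ x ∈ F i, x ≠ 1 → ∀ x' ∈ F k, x' ≠ 1 →
      ∀ r ∈ RR (M i) (F i) (N i) x, ∀ r' ∈ RR (M k) (F k) (N k) x', ∀ g : G,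
        g * (x * r) * g⁻¹ ≠ x' * r') : Sys G ι where
  L := M
  H := F
  hle i := (D i).le
  hnm i := (D i).nor
  att i := attOf (M i) (F i) (N i)
  att_mem _ _ _ h := ⟨h.1, h.2.1⟩
  att_conj _ _ _ k h := attOf_conj h k
  att_one i x := attOf_one (D i) x
  att_inv i _ _ _ hl h := attOf_inv (D i) hl h
  att_fus i k x x' g h h' := by
    by_cases hik : i = k
    · subst hik
      exact ⟨rfl, attOf_fus (D i) h h'⟩
    · exfalso
      obtain ⟨hx, hx1, r, hr, j, rfl⟩ := h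
      obtain ⟨hx', hx1', r', hr', k', hk⟩ := h'
      apply hdis i k hik x hx hx1 x' hx' hx1' r hr r' hr' (k'⁻¹ * j)
      have h2 : (k'⁻¹ * j) * (x * r) * (k'⁻¹ * j)⁻¹ = k'⁻¹ * (j * (x * r) * j⁻¹) * k' := by group
      rw [h2, hk]
      group
  att_cnt i x hx hx1 := attOf_cnt (D i) hx hx1
  vir i a θ ha hs h1 hv hθ h0 := by
    have hθc : ∀ g x : G, θ (g * x * g⁻¹) = θ x := by
      intro g x
      by_cases h : ∃ y, attOf (M i) (F i) (N i) y x
      · obtain ⟨y, hy⟩ := h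
        rw [hθ y x hy, hθ y _ (attOf_conj hy g)]
      · push Not at h
        rw [h0 x h, h0]
        intro y hy
        apply h y
        have h3 := attOf_conj hy g⁻¹
        have h4 : g⁻¹ * (g * x * g⁻¹) * g⁻¹⁻¹ = x := by group
        rwa [h4] at h3
    refine isLift_vir (D i) (a := fun l : M i => a l) (f := θ) ?_ ?_ hv ⟨hθc, ?_, ?_⟩
    · intro m x
      exact ha m m.2 x
    · rintro x (hx | rfl)
      · exact hs x hx
      · exact h1
    · intro x hx hx1 r hr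
      refine hθ x _ ⟨hx, fun h => hx1 (Subtype.ext h), r, hr, 1, by group⟩
    · intro g hg
      apply h0
      rintro y ⟨hy, hy1, r, hr, k, hk⟩
      exact hg y hy hy1 r hr k hk

/-- **The statement the local analysis has to feed.** -/
theorem core_false [Finite G] (hodd : Odd (Nat.card G)) {ι : Type} [Finite ι]
    (M F : ι → Subgroup G) (L N : ι → G → Subgroup G)
    (D : ∀ i, LiftData (M i) (F i) (L i) (N i))
    (hdis : ∀ i k, i ≠ k → ∀ x ∈ F i, x ≠ 1 → ∀ x' ∈ F k, x' ≠ 1 →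
      ∀ r ∈ RR (M i) (F i) (N i) x, ∀ r' ∈ RR (M k) (F k) (N k) x', ∀ g : G,
        g * (x * r) * g⁻¹ ≠ x' * r')
    (hnil : ∀ i, Group.IsNilpotent (F i))
    (hcop : ∀ i, (Nat.card (F i)).Coprime ((F i).relIndex (M i)))
    (hab : ∀ i, ∀ a ∈ M i, ∀ b ∈ M i, a * b * a⁻¹ * b⁻¹ ∈ F i)
    (hC : ∀ i, ∀ m ∈ M i, (∀ x ∈ F i, m * x = x * m) → m ∈ F i)
    (h50 : ∀ i, 50 * Nat.card (F i) ≤ Nat.card (M i))
    (hpair : ∀ i k, i ≠ k → (Nat.card (F i)).Coprime (Nat.card (F k)))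
    (htot : (19 : ℝ) / 20 ≤ ∑ᶠ i, ((Nat.card (F i) : ℝ) - 1) / Nat.card (M i)) : False := by
  have hreg := fun i => regular (hodd.of_dvd_nat (Subgroup.card_subgroup_dvd_card (M i)))
    (D i).le (D i).nor (hcop i) (hab i)
    (faith (D i).le (D i).nor (hnil i) (hcop i) (hC i))
  exact endgame hodd (mkSys M F L N D hdis) h50 hpair (fun i => (hreg i).1)
    (fun i => (hreg i).2) htot

end Pool.Agent.H87.EG
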