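import Mathlib

/-!
MODULE Lat (definitions only): the lattice data of the endgame.

I = the set of irreducible characters (a finite type), c = complex conjugation, o = the trivial
character; Φ = the set of all regular induced characters ψ of all local subgroups, cls ψ = the
index of the local subgroup, B ψ χ = the inner product of the irreducible character χ with the
lift of (1_H)^L - ψ.
-/

open Finset

namespace Pool.Agent.H87.EG

/-- the lattice data -/
structure Lat (I Φ ι : Type) [Fintype I] where
  c : I → I
  o : I
  cc : ∀ x, c (c x) = x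
  fix : ∀ x, c x = x ↔ x = o
  cls : Φ → ι
  bar : Φ → Φ
  bar_bar : ∀ a, bar (bar a) = a
  bar_ne : ∀ a, bar a ≠ a
  cls_bar : ∀ a, cls (bar a) = cls a
  e : ι → ℕ
  B : Φ → I → ℤ
  B_self : ∀ a, ∑ x, B a x * B a x = e (cls a) + 1
  B_same : ∀ a b, a ≠ b → cls a = cls b → ∑ x, B a x * B b x = e (cls a)
  B_diff : ∀ a b, cls a ≠ cls b → ∑ x, B a x * B b x = 0
  B_bar : ∀ a x, B (bar a) x = B a (c x)
  B_o : ∀ a, B a o = 1

end Pool.Agent.H87.EG
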