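import Pool.Agent.H87.EG.LatIp

/-!
MODULE LatBes (about 90 lines). Bessel inequality.

X := xx D (r k), β i := B (r i), w i y := β i y + β i (c y) = B (r i) y + B (bar (r i)) y (B_bar),
p := B (bar (r k)) - B (r k) = [X] - [c X] (xx_spec). For i ≠ j: w i is orthogonal to w j
(B_diff, four terms), ∑ w i y ^ 2 = 2 (e + 1) + 2 e = 4 e + 2 (B_self, B_same), w i is orthogonal
to p for i ≠ k, ∑ p y ^ 2 = 2. As β i is orthogonal to p for i ≠ k: β i (c X) = β i X, so
w i X = 2 β i X. For the real vector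
  v y := [y = X] - p y / 2 - ∑_{i ≠ k} (2 β i X / (4 e i + 2)) w i y
0 ≤ ∑ v y ^ 2 = 1 - 1/2 - ∑_{i ≠ k} (2 β i X)^2 / (4 e i + 2), and
(2 β i X)^2 / (4 e i + 2) = (β i X)^2 * (2 / (2 e i + 1)).
(A general Bessel inequality for a finite orthogonal family in EuclideanSpace may be used instead.)
-/

open Finset

namespace Pool.Agent.H87.EG

open Classical

variable {I Φ ι : Type} [Fintype I] [Fintype ι] (D : Lat I Φ ι)

private theorem bessel {J K : Type} [Fintype J] (s : Finset K) (w : K → J → ℝ) (N : K → ℝ)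
    (hN : ∀ i ∈ s, 0 < N i) (hn : ∀ i ∈ s, ∑ y, w i y * w i y = N i)
    (ho : ∀ i ∈ s, ∀ j ∈ s, i ≠ j → ∑ y, w i y * w j y = 0) :
    ∀ u : J → ℝ, ∑ i ∈ s, (∑ y, u y * w i y) ^ 2 / N i ≤ ∑ y, u y * u y := by
  induction s using Finset.induction_on with
  | empty =>
    intro u
    simpa using Finset.sum_nonneg (fun y _ => mul_self_nonneg (u y))
  | insert i s hi ih =>
    intro u
    have hNi := hN i (Finset.mem_insert_self _ _)
    have ih' := ih (fun j hj => hN j (Finset.mem_insert_of_mem hj))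
      (fun j hj => hn j (Finset.mem_insert_of_mem hj))
      (fun j hj k hk => ho j (Finset.mem_insert_of_mem hj) k (Finset.mem_insert_of_mem hk))
      (fun y => u y - (∑ y, u y * w i y) / N i * w i y)
    set t := (∑ y, u y * w i y) / N i with ht
    have e1 : ∀ j ∈ s, ∑ y, (u y - t * w i y) * w j y = ∑ y, u y * w j y := by
      intro j hj
      have hij : i ≠ j := fun h => hi (h ▸ hj)
      have := ho i (Finset.mem_insert_self _ _) j (Finset.mem_insert_of_mem hj) hij
      have e : ∀ y, (u y - t * w i y) * w j y = u y * w j y - t * (w i y * w j y) :=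
        fun y => by ring
      rw [Finset.sum_congr rfl (fun y _ => e y), Finset.sum_sub_distrib, ← Finset.mul_sum, this]
      ring
    have e2 : ∑ y, (u y - t * w i y) * (u y - t * w i y) =
        ∑ y, u y * u y - (∑ y, u y * w i y) ^ 2 / N i := by
      have e : ∀ y, (u y - t * w i y) * (u y - t * w i y) =
          u y * u y - 2 * t * (u y * w i y) + t ^ 2 * (w i y * w i y) := fun y => by ring
      rw [Finset.sum_congr rfl (fun y _ => e y), Finset.sum_add_distrib, Finset.sum_sub_distrib,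
        ← Finset.mul_sum, ← Finset.mul_sum, hn i (Finset.mem_insert_self _ _), ht]
      field_simp
      ring
    rw [e2, Finset.sum_congr rfl (fun j hj => by rw [e1 j hj])] at ih'
    rw [Finset.sum_insert hi]
    linarith

theorem lat_bessel (r : ι → Φ) (hr : ∀ i, D.cls (r i) = i) (k : ι) :
    (∑ i, if i ≠ k then ((D.B (r i) (xx D (r k)) : ℤ) : ℝ) ^ 2 * (2 / (2 * (D.e i : ℝ) + 1))
      else 0) ≤ 1 / 2 := by
  set X := xx D (r k) with hX
  have hrr : ∀ i j, i ≠ j → r i ≠ r j := fun i j h h' => h (by rw [← hr i, h', hr])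
  have hrb : ∀ i j, i ≠ j → r i ≠ D.bar (r j) := fun i j h h' =>
    h (by rw [← hr i, h', D.cls_bar, hr])
  -- the integer inner products of the symmetrised vectors
  have key : ∀ i j, ∑ y, ((D.B (r i) y + D.B (D.bar (r i)) y : ℤ) : ℝ) *
      ((D.B (r j) y + D.B (D.bar (r j)) y : ℤ) : ℝ) = if i = j then 4 * (D.e i : ℝ) + 2 else 0 := by
    intro i j
    have e : ∀ y, ((D.B (r i) y + D.B (D.bar (r i)) y : ℤ) : ℝ) *
      ((D.B (r j) y + D.B (D.bar (r j)) y : ℤ) : ℝ) =
      ((D.B (r i) y * D.B (r j) y + D.B (r i) y * D.B (D.bar (r j)) y +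
        D.B (D.bar (r i)) y * D.B (r j) y + D.B (D.bar (r i)) y * D.B (D.bar (r j)) y : ℤ) : ℝ) :=
      fun y => by push_cast; ring
    rw [Finset.sum_congr rfl (fun y _ => e y), ← Int.cast_sum, Finset.sum_add_distrib,
      Finset.sum_add_distrib, Finset.sum_add_distrib, lat_ip, lat_ip, lat_ip, lat_ip,
      D.cls_bar, D.cls_bar, hr, hr]
    by_cases h : i = j
    · subst h
      have hb1 : ¬ r i = D.bar (r i) := (D.bar_ne _).symm
      have hb2 : ¬ D.bar (r i) = r i := D.bar_ne _
      simp only [if_true, if_neg hb1, if_neg hb2]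
      push_cast
      ring
    · have hb1 : ¬ r i = r j := hrr i j h
      have hb2 : ¬ r i = D.bar (r j) := hrb i j h
      have hb3 : ¬ D.bar (r i) = r j := fun h' => hrb j i (Ne.symm h) h'.symm
      have hb4 : ¬ D.bar (r i) = D.bar (r j) := fun h' => hb1 (by
        rw [← D.bar_bar (r i), h', D.bar_bar])
      simp only [if_neg h, if_neg hb1, if_neg hb2, if_neg hb3, if_neg hb4]
      simp
  have hb := bessel (univ.filter (fun i => i ≠ k))
    (fun i y => ((D.B (r i) y + D.B (D.bar (r i)) y : ℤ) : ℝ)) (fun i => 4 * (D.e i : ℝ) + 2)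
    (fun i _ => by positivity) (fun i _ => by rw [key]; simp)
    (fun i _ j _ h => by rw [key]; simp [h])
    (fun y => (if y = X then (1 / 2 : ℝ) else 0) + (if y = D.c X then (1 / 2 : ℝ) else 0))
  have hne : X ≠ D.c X := (xx_ne D (r k)).symm
  have hu : ∑ y, ((if y = X then (1 / 2 : ℝ) else 0) + (if y = D.c X then (1 / 2 : ℝ) else 0)) *
      ((if y = X then (1 / 2 : ℝ) else 0) + (if y = D.c X then (1 / 2 : ℝ) else 0)) = 1 / 2 := by
    have e : ∀ y, ((if y = X then (1 / 2 : ℝ) else 0) + (if y = D.c X then (1 / 2 : ℝ) else 0)) *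
      ((if y = X then (1 / 2 : ℝ) else 0) + (if y = D.c X then (1 / 2 : ℝ) else 0)) =
      (if y = X then (1 / 4 : ℝ) else 0) + (if y = D.c X then (1 / 4 : ℝ) else 0) := by
      intro y
      by_cases h1 : y = X
      · have h2 : ¬ y = D.c X := fun h => hne (h1.symm.trans h)
        simp only [if_pos h1, if_neg h2]; norm_num
      · simp only [if_neg h1]
        split_ifs <;> norm_num
    rw [Finset.sum_congr rfl (fun y _ => e y), Finset.sum_add_distrib, Finset.sum_ite_eq',
      Finset.sum_ite_eq']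
    simp only [Finset.mem_univ, if_true]
    norm_num
  have hw : ∀ i, i ≠ k → ∑ y, ((if y = X then (1 / 2 : ℝ) else 0) +
      (if y = D.c X then (1 / 2 : ℝ) else 0)) * ((D.B (r i) y + D.B (D.bar (r i)) y : ℤ) : ℝ) =
      2 * ((D.B (r i) X : ℤ) : ℝ) := by
    intro i hik
    have e : ∀ y, ((if y = X then (1 / 2 : ℝ) else 0) +
      (if y = D.c X then (1 / 2 : ℝ) else 0)) * ((D.B (r i) y + D.B (D.bar (r i)) y : ℤ) : ℝ) =
      (if y = X then (1 / 2 : ℝ) * ((D.B (r i) y + D.B (D.bar (r i)) y : ℤ) : ℝ) else 0) +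
      (if y = D.c X then (1 / 2 : ℝ) * ((D.B (r i) y + D.B (D.bar (r i)) y : ℤ) : ℝ) else 0) := by
      intro y
      split_ifs <;> ring
    rw [Finset.sum_congr rfl (fun y _ => e y), Finset.sum_add_distrib, Finset.sum_ite_eq',
      Finset.sum_ite_eq']
    simp only [Finset.mem_univ, if_true]
    have h1 := lat_B_xx D (r i) (r k)
    rw [← hX, if_neg (hrb i k hik), if_neg (hrr i k hik)] at h1
    have h2 : D.B (r i) (D.c X) = D.B (r i) X := by linarith
    rw [D.B_bar, D.B_bar, D.cc, h2]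
    push_cast
    ring
  rw [hu] at hb
  rw [← Finset.sum_filter]
  refine le_trans (le_of_eq ?_) hb
  refine Finset.sum_congr rfl (fun i hi => ?_)
  rw [hw i (Finset.mem_filter.1 hi).2]
  field_simp
  ring

end Pool.Agent.H87.EG
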