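import Pool.Agent.H87.EG.LatXx

/-!
Inner products in the lattice (helper file for LatT, LatN, LatBes, LatMain).
-/

open Finset

namespace Pool.Agent.H87.EG

open Classical

variable {I Φ ι : Type} [Fintype I] (D : Lat I Φ ι)

theorem lat_ip (a b : Φ) : ∑ x, D.B a x * D.B b x =
    (if D.cls a = D.cls b then (D.e (D.cls a) : ℤ) else 0) + (if a = b then 1 else 0) := by
  by_cases h : a = b
  · subst h
    rw [D.B_self]
    simp
  · by_cases h' : D.cls a = D.cls b
    · rw [D.B_same a b h h']
      simp [h, h']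
    · rw [D.B_diff a b h']
      simp [h, h']

theorem lat_sum_delta (f : I → ℤ) (b : Φ) :
    ∑ y, f y * (D.B (D.bar b) y - D.B b y) = f (xx D b) - f (D.c (xx D b)) := by
  have h : ∀ y, f y * (D.B (D.bar b) y - D.B b y) =
      (if y = xx D b then f y else 0) - (if y = D.c (xx D b) then f y else 0) := by
    intro y
    rw [xx_spec]
    split_ifs <;> ring
  rw [Finset.sum_congr rfl (fun y _ => h y), Finset.sum_sub_distrib, Finset.sum_ite_eq',
    Finset.sum_ite_eq']
  simp

/-- the values of `B a` at the irreducible element of `b` and at its conjugate -/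
theorem lat_B_xx (a b : Φ) : D.B a (xx D b) - D.B a (D.c (xx D b)) =
    (if a = D.bar b then 1 else 0) - (if a = b then 1 else 0) := by
  rw [← lat_sum_delta]
  have h : ∀ y, D.B a y * (D.B (D.bar b) y - D.B b y) =
      D.B a y * D.B (D.bar b) y - D.B a y * D.B b y := fun y => by ring
  rw [Finset.sum_congr rfl (fun y _ => h y), Finset.sum_sub_distrib, lat_ip, lat_ip, D.cls_bar]
  ring

theorem lat_c_inj {x y : I} (h : D.c x = D.c y) : x = y := by
  rw [← D.cc x, h, D.cc]

theorem lat_xx_ne_o (a : Φ) : xx D a ≠ D.o := fun h =>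
  xx_ne D a ((D.fix _).2 h)

theorem lat_c_o : D.c D.o = D.o := (D.fix _).2 rfl

theorem lat_c_ne_o {x : I} (h : x ≠ D.o) : D.c x ≠ D.o := fun h' =>
  h (lat_c_inj D (h'.trans (lat_c_o D).symm))

/-- the irreducible element determines the regular character -/
theorem lat_xx_inj {a b : Φ} (h : xx D a = xx D b) : a = b := by
  by_contra hab
  have h1 := lat_B_xx D (D.bar a) b
  have h2 := lat_B_xx D a b
  have h3 := xx_spec D a (xx D a)
  have h4 := xx_spec D a (D.c (xx D a))
  rw [if_pos rfl, if_neg (xx_ne D a).symm] at h3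
  rw [if_pos rfl, if_neg (xx_ne D a)] at h4
  rw [← h] at h1 h2
  have h5 : ¬ D.bar a = D.bar b := fun h' => hab (by rw [← D.bar_bar a, h', D.bar_bar])
  rw [if_neg h5] at h1
  rw [if_neg hab] at h2
  have h6 : (if D.bar a = b then (1 : ℤ) else 0) ≥ 0 := by split_ifs <;> norm_num
  have h7 : (if a = D.bar b then (1 : ℤ) else 0) ≥ 0 := by split_ifs <;> norm_num
  linarith

/-- the conjugate of the irreducible element belongs to the conjugate character -/
theorem lat_xx_bar {a b : Φ} (h : xx D b = D.c (xx D a)) : b = D.bar a := by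
  by_contra hab
  have h1 := lat_B_xx D (D.bar a) b
  have h2 := lat_B_xx D a b
  have h3 := xx_spec D a (xx D a)
  have h4 := xx_spec D a (D.c (xx D a))
  rw [if_pos rfl, if_neg (xx_ne D a).symm] at h3
  rw [if_pos rfl, if_neg (xx_ne D a)] at h4
  rw [h, D.cc] at h1 h2
  rw [if_neg (fun h' => hab h'.symm : ¬ D.bar a = b)] at h1
  have h5 : ¬ a = D.bar b := fun h' => hab (by rw [h', D.bar_bar])
  rw [if_neg h5] at h2
  have h6 : (if D.bar a = D.bar b then (1 : ℤ) else 0) ≥ 0 := by split_ifs <;> norm_num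
  have h7 : (if a = b then (1 : ℤ) else 0) ≥ 0 := by split_ifs <;> norm_num
  linarith

end Pool.Agent.H87.EG
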