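import Pool.Agent.H87.EG.LatIp

/-!
MODULE LatN (about 100 lines). Counting the nonzero coefficients.

β := B a, X := xx D a. ∑ β y ^ 2 = e + 1 (B_self). β o = 1. The inner product of β with
p_a := B (bar a) - B a = [X] - [c X] is e - (e + 1) = -1, so β (c X) = β X + 1 and
(β X)^2 + (β (c X))^2 ≥ 1. X ≠ c X, both are ≠ o (xx_ne, fix). The map b ↦ xx D b is injective on
{b | cls b ≠ cls a}, in fact on Φ: if xx D b = xx D b' with b ≠ b' then the vectors
p_b = [xx b] - [c (xx b)] and p_b' are equal, with inner product 2; but this inner product is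
e - e - e + e = 0 if cls b = cls b' and b' ≠ bar b, it is e - (e+1) - (e+1) + e = -2 if b' = bar b
and 0 if the classes are different (B_self, B_same, B_diff, cls_bar, bar_bar, bar_ne). And xx D b
is different from o, from X and from c X if cls b ≠ cls a (if xx b = c X then p_b = - p_a, inner
product -2, but it is 0). So
e + 1 ≥ 1 + 1 + number of the b with cls b ≠ cls a and β (xx D b) ≠ 0.
-/

open Finset

namespace Pool.Agent.H87.EG

open Classical

variable {I Φ ι : Type} [Fintype I] [Fintype Φ] (D : Lat I Φ ι)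

theorem lat_count (a : Φ) :
    (univ.filter fun b : Φ => D.cls b ≠ D.cls a ∧ D.B a (xx D b) ≠ 0).card + 1
      ≤ D.e (D.cls a) := by
  set S := univ.filter fun b : Φ => D.cls b ≠ D.cls a ∧ D.B a (xx D b) ≠ 0 with hS
  have h1 : D.c (xx D a) ∉ S.image (xx D) := by
    intro h
    obtain ⟨b, hb, hb'⟩ := Finset.mem_image.1 h
    rw [hS, Finset.mem_filter] at hb
    apply hb.2.1
    rw [lat_xx_bar D hb', D.cls_bar]
  have h2 : xx D a ∉ insert (D.c (xx D a)) (S.image (xx D)) := by
    intro h
    rcases Finset.mem_insert.1 h with h | h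
    · exact xx_ne D a h.symm
    · obtain ⟨b, hb, hb'⟩ := Finset.mem_image.1 h
      rw [hS, Finset.mem_filter] at hb
      apply hb.2.1
      rw [lat_xx_inj D hb']
  have h3 : D.o ∉ insert (xx D a) (insert (D.c (xx D a)) (S.image (xx D))) := by
    intro h
    rcases Finset.mem_insert.1 h with h | h
    · exact lat_xx_ne_o D a h.symm
    · rcases Finset.mem_insert.1 h with h | h
      · exact lat_c_ne_o D (lat_xx_ne_o D a) h.symm
      · obtain ⟨b, _, hb'⟩ := Finset.mem_image.1 h
        exact lat_xx_ne_o D b hb'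
  have h4 : ∑ y ∈ insert D.o (insert (xx D a) (insert (D.c (xx D a)) (S.image (xx D)))),
      D.B a y * D.B a y ≤ ∑ y, D.B a y * D.B a y :=
    Finset.sum_le_univ_sum_of_nonneg (fun y => mul_self_nonneg _)
  rw [Finset.sum_insert h3, Finset.sum_insert h2, Finset.sum_insert h1, D.B_self, D.B_o,
    Finset.sum_image (fun x _ y _ h => lat_xx_inj D h)] at h4
  have h5 : (S.card : ℤ) ≤ ∑ b ∈ S, D.B a (xx D b) * D.B a (xx D b) := by
    have : (S.card : ℤ) = ∑ b ∈ S, (1 : ℤ) := by simp
    rw [this]
    refine Finset.sum_le_sum (fun b hb => ?_)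
    rw [hS, Finset.mem_filter] at hb
    have h6 : 0 < D.B a (xx D b) * D.B a (xx D b) := mul_self_pos.2 hb.2.2
    omega
  have h6 := lat_B_xx D a a
  rw [if_neg (D.bar_ne a).symm, if_pos rfl] at h6
  have h7 : D.B a (D.c (xx D a)) = D.B a (xx D a) + 1 := by linarith
  rw [h7] at h4
  have h8 : (1 : ℤ) ≤ D.B a (xx D a) * D.B a (xx D a) +
      (D.B a (xx D a) + 1) * (D.B a (xx D a) + 1) := by
    rcases le_or_gt 0 (D.B a (xx D a)) with h | h
    · nlinarith
    · nlinarith
  have h9 : ((S.card + 1 : ℕ) : ℤ) ≤ (D.e (D.cls a) : ℤ) := by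
    push_cast
    linarith
  exact_mod_cast h9

end Pool.Agent.H87.EG
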