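import Pool.Agent.H87.EG.LatT
import Pool.Agent.H87.EG.LatN
import Pool.Agent.H87.EG.LatBes

/-!
MODULE LatMain (about 60 lines). Assembly: choose r with cls (r i) = i (surjectivity) and
R i k := B (r i) (xx D (r k)) ≠ 0. (1) is lat_odd. (2): by lat_count for a = r i: the classes k with
k ≠ i and R i k are disjoint and all their members b satisfy B (r i) (xx D b) ≠ 0 by const_cls.
(3): lat_bessel, an integer ≠ 0 has square at least 1.
-/

open Finset

namespace Pool.Agent.H87.EG

open Classical

variable {I Φ ι : Type} [Fintype I] [Fintype Φ] [Fintype ι]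

theorem tournament (D : Lat I Φ ι) (hs : Function.Surjective D.cls) :
    ∃ R : ι → ι → Prop,
      (∀ i k, i ≠ k → R i k ∨ R k i) ∧
      (∀ i, (∑ k, if k ≠ i ∧ R i k then (univ.filter fun a : Φ => D.cls a = k).card else 0) + 1
        ≤ D.e i) ∧
      (∀ k, (∑ i, if i ≠ k ∧ R i k then (2 : ℝ) / (2 * D.e i + 1) else 0) ≤ 1 / 2) := by
  choose r hr using hs
  refine ⟨fun i k => D.B (r i) (xx D (r k)) ≠ 0, ?_, ?_, ?_⟩
  · intro i k hik
    exact lat_odd D (a := r i) (b := r k) (by rwa [hr, hr])
  · intro i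
    have h1 := lat_count D (r i)
    rw [hr] at h1
    refine le_trans (Nat.add_le_add_right ?_ 1) h1
    rw [Finset.card_eq_sum_card_fiberwise (f := D.cls) (t := (univ : Finset ι))
      (fun _ _ => Finset.mem_coe.2 (Finset.mem_univ _))]
    refine Finset.sum_le_sum (fun k _ => ?_)
    split_ifs with h
    · refine Finset.card_le_card ?_
      intro b hb
      rw [Finset.mem_filter] at hb
      rw [Finset.mem_filter, Finset.mem_filter]
      refine ⟨⟨Finset.mem_univ _, by rw [hb.2]; exact h.1, ?_⟩, hb.2⟩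
      exact const_cls D (a := r k) (a' := b) (b := r i) (by rw [hr, hb.2])
        (by rw [hr, hr]; exact Ne.symm h.1) (xx_spec D (r k)) (xx_spec D b) h.2
    · exact Nat.zero_le _
  · intro k
    refine le_trans (Finset.sum_le_sum (fun i _ => ?_)) (lat_bessel D r hr k)
    by_cases h1 : i ≠ k
    · rw [if_pos h1]
      split_ifs with h
      · have h2 : (1 : ℝ) ≤ ((D.B (r i) (xx D (r k)) : ℤ) : ℝ) ^ 2 := by
          have h3 : (1 : ℤ) ≤ (D.B (r i) (xx D (r k))) ^ 2 := by
            have := pow_pos (abs_pos.2 h.2) 2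
            rw [sq_abs] at this
            omega
          exact_mod_cast h3
        have h4 : (0 : ℝ) ≤ 2 / (2 * (D.e i : ℝ) + 1) := by positivity
        calc (2 : ℝ) / (2 * (D.e i : ℝ) + 1) = 1 * (2 / (2 * (D.e i : ℝ) + 1)) := by ring
          _ ≤ _ := mul_le_mul_of_nonneg_right h2 h4
      · positivity
    · rw [if_neg h1, if_neg (fun h => h1 h.1)]

end Pool.Agent.H87.EG
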