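import Pool.Agent.H87.EG.Lat

/-!
MODULE LatPair (about 100 lines). Pure integer linear algebra.

`pair`: for every a there is an irreducible x with c x ≠ x such that
  B (bar a) y - B a y = [y = x] - [y = c x]  for all y.
Proof. v := B (bar a) - B a. By B_self, B_same, cls_bar, bar_ne: the sum of v y ^ 2 is
(e+1) + (e+1) - 2 e = 2. By B_bar and cc: v (c y) = - v y. v is not 0, so some v x ≠ 0; then
v (c x) = - v x ≠ 0, and c x ≠ x (otherwise v x = - v x). So v x ^ 2 = v (c x) ^ 2 = 1 and all the
other values are 0. Replace x by c x if v x = -1.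

`const_cls`: if b is in another class than a, a' and a, a' are in the same class, x, x' are as in
`pair` for a, a', then B b x ≠ 0 implies B b x' ≠ 0.
Proof. We may assume a ≠ a'. B b is orthogonal to B (bar a) - B a = [x] - [c x] (B_diff), so
B b (c x) = B b x =: s, and B b (c x') = B b x' =: t. If a' = bar a then [x'] - [c x'] =
- ([x] - [c x]), so x' = c x, and t = s. Otherwise let q := B a' - B a; its square norm is 2
(B_self, B_same); its inner product with [x] - [c x] = B (bar a) - B a is
e - e - e + (e + 1) = 1 (a' is different from bar a and from a), and with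
[x'] - [c x'] = B (bar a') - B a' it is e - (e+1) - e + e = -1. So q x - q (c x) = 1,
q x' - q (c x') = -1. The four elements x, c x, x', c x' are different (the vectors [x] - [c x]
and [x'] - [c x'] are orthogonal: e - e - e + e = 0 by B_same; if x' = x the inner product would
be 2, if x' = c x it would be -2). The sum of the squares of q is 2 and each of the pairs
{x, c x}, {x', c x'} contributes at least 1 (odd difference); so each contributes exactly 1, q is
0 elsewhere, q x + q (c x) = ± 1, q x' + q (c x') = ± 1. Since B b is orthogonal to q (B_diff):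
0 = s (q x + q (c x)) + t (q x' + q (c x')) = ± s ± t.
-/

open Finset

namespace Pool.Agent.H87.EG

open Classical

variable {I Φ ι : Type} [Fintype I] (D : Lat I Φ ι)

private theorem sum_ind (g : I → ℤ) (x z : I) :
    ∑ y, g y * ((if y = x then 1 else 0) - (if y = z then 1 else 0)) = g x - g z := by
  simp [mul_sub, Finset.sum_sub_distrib]

private theorem pair_le (f : I → ℤ) {x z : I} (h : x ≠ z) :
    f x * f x + f z * f z ≤ ∑ y, f y * f y := by
  have h1 : ∑ y ∈ ({x, z} : Finset I), f y * f y = f x * f x + f z * f z := Finset.sum_pair h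
  rw [← h1]
  exact Finset.sum_le_sum_of_subset_of_nonneg (Finset.subset_univ _)
    (fun y _ _ => mul_self_nonneg (f y))

private theorem three_le (f : I → ℤ) {x z y : I} (h : x ≠ z) (h1 : y ≠ x) (h2 : y ≠ z) :
    f y * f y + (f x * f x + f z * f z) ≤ ∑ y, f y * f y := by
  have h3 : ∑ y ∈ ({y, x, z} : Finset I), f y * f y
      = f y * f y + (f x * f x + f z * f z) := by
    rw [Finset.sum_insert (by simp [h1, h2]), Finset.sum_pair h]
  rw [← h3]
  exact Finset.sum_le_sum_of_subset_of_nonneg (Finset.subset_univ _)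
    (fun y _ _ => mul_self_nonneg (f y))

private theorem sum_vv (a : Φ) :
    ∑ y, (D.B (D.bar a) y - D.B a y) * (D.B (D.bar a) y - D.B a y) = 2 := by
  have h1 := D.B_self (D.bar a)
  have h2 := D.B_self a
  have h3 := D.B_same (D.bar a) a (D.bar_ne a) (D.cls_bar a)
  rw [D.cls_bar] at h1 h3
  have h4 : ∀ y, (D.B (D.bar a) y - D.B a y) * (D.B (D.bar a) y - D.B a y)
      = D.B (D.bar a) y * D.B (D.bar a) y + D.B a y * D.B a y
        - 2 * (D.B (D.bar a) y * D.B a y) := fun y => by ring
  rw [Finset.sum_congr rfl (fun y _ => h4 y), Finset.sum_sub_distrib, Finset.sum_add_distrib,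
    ← Finset.mul_sum, h1, h2, h3]
  ring

private theorem v_c (a : Φ) (y : I) :
    D.B (D.bar a) (D.c y) - D.B a (D.c y) = - (D.B (D.bar a) y - D.B a y) := by
  rw [D.B_bar a (D.c y), D.B_bar a y, D.cc]
  ring

private theorem c_ne {a : Φ} {x : I}
    (hx : ∀ y, D.B (D.bar a) y - D.B a y
      = (if y = x then 1 else 0) - (if y = D.c x then 1 else 0)) : D.c x ≠ x := by
  intro h
  have h1 := sum_vv D a
  rw [Finset.sum_congr rfl (fun y _ => by rw [hx y, h, sub_self, mul_zero])] at h1
  simp at h1

theorem pair (a : Φ) : ∃ x : I, D.c x ≠ x ∧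
    ∀ y, D.B (D.bar a) y - D.B a y = (if y = x then 1 else 0) - (if y = D.c x then 1 else 0) := by
  set v : I → ℤ := fun y => D.B (D.bar a) y - D.B a y with hv
  have hs : ∑ y, v y * v y = 2 := sum_vv D a
  have hc : ∀ y, v (D.c y) = - v y := fun y => v_c D a y
  have key : ∀ x, 0 < v x → D.c x ≠ x ∧
      ∀ y, v y = (if y = x then 1 else 0) - (if y = D.c x then 1 else 0) := by
    intro x hx
    have hne : D.c x ≠ x := by
      intro h
      have := hc x
      rw [h] at this
      omega
    have h1 := pair_le v (Ne.symm hne)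
    rw [hs, hc x] at h1
    have hx1 : v x = 1 := by nlinarith
    refine ⟨hne, fun y => ?_⟩
    by_cases h2 : y = x
    · subst h2
      rw [if_pos rfl, if_neg (Ne.symm hne)]
      omega
    · by_cases h3 : y = D.c x
      · rw [h3, if_neg hne, if_pos rfl, hc x]
        omega
      · have h4 := three_le v (Ne.symm hne) h2 h3
        rw [hs, hc x, hx1] at h4
        have h5 : v y * v y ≤ 0 := by linarith
        have h6 : v y = 0 := by nlinarith [mul_self_nonneg (v y)]
        rw [if_neg h2, if_neg h3, h6]
        rfl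
  obtain ⟨x, hx⟩ : ∃ x, v x ≠ 0 := by
    by_contra h
    push Not at h
    rw [Finset.sum_congr rfl (fun y _ => by rw [h y, mul_zero])] at hs
    simp at hs
  rcases lt_or_gt_of_ne hx with h | h
  · exact ⟨D.c x, key (D.c x) (by rw [hc x]; omega)⟩
  · exact ⟨x, key x h⟩

private theorem orth {a b : Φ} (hb : D.cls b ≠ D.cls a) {x : I}
    (hx : ∀ y, D.B (D.bar a) y - D.B a y
      = (if y = x then 1 else 0) - (if y = D.c x then 1 else 0)) :
    D.B b (D.c x) = D.B b x := by
  have h1 := D.B_diff b (D.bar a) (by rw [D.cls_bar]; exact hb)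
  have h2 := D.B_diff b a hb
  have h3 : ∑ y, D.B b y * (D.B (D.bar a) y - D.B a y) = 0 := by
    rw [Finset.sum_congr rfl (fun y _ => mul_sub (D.B b y) _ _), Finset.sum_sub_distrib, h1, h2,
      sub_zero]
  rw [Finset.sum_congr rfl (fun y _ => by rw [hx y]), sum_ind] at h3
  omega

theorem const_cls {a a' b : Φ} (h : D.cls a = D.cls a') (hb : D.cls b ≠ D.cls a) {x x' : I}
    (hx : ∀ y, D.B (D.bar a) y - D.B a y
      = (if y = x then 1 else 0) - (if y = D.c x then 1 else 0))
    (hx' : ∀ y, D.B (D.bar a') y - D.B a' y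
      = (if y = x' then 1 else 0) - (if y = D.c x' then 1 else 0))
    (h0 : D.B b x ≠ 0) : D.B b x' ≠ 0 := by
  have hcx := c_ne D hx
  have hcx' := c_ne D hx'
  have ho : D.B b (D.c x) = D.B b x := orth D hb hx
  have ho' : D.B b (D.c x') = D.B b x' := orth D (a := a') (b := b) (by rw [← h]; exact hb) hx'
  by_cases e1 : a' = a
  · subst e1
    have h1 := hx x
    rw [hx' x, if_pos rfl, if_neg (Ne.symm hcx)] at h1
    have h2 : x = x' := by
      by_contra h3
      rw [if_neg h3] at h1
      split_ifs at h1 <;> omega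
    rw [← h2]
    exact h0
  by_cases e2 : a' = D.bar a
  · subst e2
    have h1 := hx' x'
    rw [D.bar_bar, if_pos rfl, if_neg (Ne.symm hcx')] at h1
    have h2 := hx x'
    have h3 : x' = D.c x := by
      by_contra h4
      rw [if_neg h4] at h2
      split_ifs at h2 <;> omega
    rw [h3, ho]
    exact h0
  -- inner products
  have e3 : D.bar a' ≠ a := fun h1 => e2 (by rw [← h1, D.bar_bar])
  have e4 : D.bar a' ≠ D.bar a := fun h1 => e1 (by
    have := congrArg D.bar h1
    rwa [D.bar_bar, D.bar_bar] at this)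
  have s1 := D.B_self a
  have s2 := D.B_self a'
  have s3 := D.B_same a' a e1 h.symm
  have s4 := D.B_same a' (D.bar a) e2 (by rw [D.cls_bar]; exact h.symm)
  have s5 := D.B_same a (D.bar a) (Ne.symm (D.bar_ne a)) (D.cls_bar a).symm
  have s6 := D.B_same a' (D.bar a') (Ne.symm (D.bar_ne a')) (D.cls_bar a').symm
  have s7 := D.B_same a (D.bar a') (Ne.symm e3) (by rw [D.cls_bar]; exact h)
  have s8 := D.B_same (D.bar a) (D.bar a') (Ne.symm e4) (by rw [D.cls_bar, D.cls_bar]; exact h)
  rw [← h] at s2 s3 s4 s6
  rw [D.cls_bar] at s8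
  set q : I → ℤ := fun y => D.B a' y - D.B a y with hq
  have q2 : ∑ y, q y * q y = 2 := by
    have h4 : ∀ y, q y * q y = D.B a' y * D.B a' y + D.B a y * D.B a y
        - 2 * (D.B a' y * D.B a y) := fun y => by simp only [hq]; ring
    rw [Finset.sum_congr rfl (fun y _ => h4 y), Finset.sum_sub_distrib, Finset.sum_add_distrib,
      ← Finset.mul_sum, s1, s2, s3]
    ring
  have qv : q x - q (D.c x) = 1 := by
    rw [← sum_ind q x (D.c x), Finset.sum_congr rfl (fun y _ => by rw [← hx y])]
    have h4 : ∀ y, q y * (D.B (D.bar a) y - D.B a y) = D.B a' y * D.B (D.bar a) y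
        - D.B a' y * D.B a y - D.B a y * D.B (D.bar a) y + D.B a y * D.B a y :=
      fun y => by simp only [hq]; ring
    rw [Finset.sum_congr rfl (fun y _ => h4 y), Finset.sum_add_distrib, Finset.sum_sub_distrib,
      Finset.sum_sub_distrib, s1, s3, s4, s5]
    ring
  have qv' : q x' - q (D.c x') = -1 := by
    rw [← sum_ind q x' (D.c x'), Finset.sum_congr rfl (fun y _ => by rw [← hx' y])]
    have h4 : ∀ y, q y * (D.B (D.bar a') y - D.B a' y) = D.B a' y * D.B (D.bar a') y
        - D.B a' y * D.B a' y - D.B a y * D.B (D.bar a') y + D.B a' y * D.B a y :=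
      fun y => by simp only [hq]; ring
    rw [Finset.sum_congr rfl (fun y _ => h4 y), Finset.sum_add_distrib, Finset.sum_sub_distrib,
      Finset.sum_sub_distrib, s2, s3, s6, s7]
    ring
  have vv : ((if x = x' then (1 : ℤ) else 0) - (if x = D.c x' then 1 else 0))
      - ((if D.c x = x' then 1 else 0) - (if D.c x = D.c x' then 1 else 0)) = 0 := by
    rw [← hx' x, ← hx' (D.c x)]
    have this : ∑ y, (D.B (D.bar a') y - D.B a' y)
          * ((if y = x then 1 else 0) - (if y = D.c x then 1 else 0))
        = (D.B (D.bar a') x - D.B a' x) - (D.B (D.bar a') (D.c x) - D.B a' (D.c x)) :=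
      sum_ind (fun y => D.B (D.bar a') y - D.B a' y) x (D.c x)
    rw [← this, Finset.sum_congr rfl (fun y _ => by rw [← hx y])]
    have h4 : ∀ y, (D.B (D.bar a') y - D.B a' y) * (D.B (D.bar a) y - D.B a y)
        = D.B (D.bar a) y * D.B (D.bar a') y - D.B a y * D.B (D.bar a') y
          - D.B a' y * D.B (D.bar a) y + D.B a' y * D.B a y := fun y => by ring
    rw [Finset.sum_congr rfl (fun y _ => h4 y), Finset.sum_add_distrib, Finset.sum_sub_distrib,
      Finset.sum_sub_distrib, s8, s7, s4, s3]
    ring
  have n1 : x ≠ x' := by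
    intro h1
    subst h1
    rw [if_pos rfl, if_neg (Ne.symm hcx), if_neg hcx, if_pos rfl] at vv
    omega
  have n2 : x ≠ D.c x' := by
    intro h1
    have h2 : D.c x = x' := by rw [h1, D.cc]
    rw [if_neg n1, if_pos h1, if_pos h2, if_neg (by rw [h2]; exact Ne.symm hcx')] at vv
    omega
  have n3 : D.c x ≠ x' := fun h1 => n2 (by rw [← h1, D.cc])
  have n4 : D.c x ≠ D.c x' := fun h1 => n1 (by
    have := congrArg D.c h1
    rwa [D.cc, D.cc] at this)
  have p1 : 1 ≤ q x * q x + q (D.c x) * q (D.c x) := by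
    have : q x = q (D.c x) + 1 := by omega
    rw [this]
    rcases le_or_gt 0 (q (D.c x)) with h1 | h1
    · nlinarith
    · nlinarith
  have p2 : 1 ≤ q x' * q x' + q (D.c x') * q (D.c x') := by
    have : q (D.c x') = q x' + 1 := by omega
    rw [this]
    rcases le_or_gt 0 (q x') with h1 | h1
    · nlinarith
    · nlinarith
  have hx4 : D.c x ∉ ({x', D.c x'} : Finset I) := by simp [n3, n4]
  have hx5 : x ∉ ({D.c x, x', D.c x'} : Finset I) := by simp [Ne.symm hcx, n1, n2]
  have four : ∀ f : I → ℤ, ∑ y ∈ ({x, D.c x, x', D.c x'} : Finset I), f y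
      = f x + (f (D.c x) + (f x' + f (D.c x'))) := by
    intro f
    rw [Finset.sum_insert hx5, Finset.sum_insert hx4, Finset.sum_pair (Ne.symm hcx')]
  have le4 := Finset.sum_le_sum_of_subset_of_nonneg
    (Finset.subset_univ ({x, D.c x, x', D.c x'} : Finset I))
    (fun y _ _ => mul_self_nonneg (q y))
  rw [four, q2] at le4
  have z : ∀ y, y ∉ ({x, D.c x, x', D.c x'} : Finset I) → q y = 0 := by
    intro y hy
    have h1 : ∑ u ∈ insert y ({x, D.c x, x', D.c x'} : Finset I), q u * q u
        ≤ ∑ u, q u * q u :=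
      Finset.sum_le_sum_of_subset_of_nonneg (Finset.subset_univ _)
        (fun y _ _ => mul_self_nonneg (q y))
    rw [Finset.sum_insert hy, four, q2] at h1
    have h2 : q y * q y ≤ 0 := by linarith
    nlinarith [mul_self_nonneg (q y)]
  have hsum : ∑ y, D.B b y * q y = 0 := by
    have h1 := D.B_diff b a' (by rw [← h]; exact hb)
    have h2 := D.B_diff b a hb
    have h4 : ∀ y, D.B b y * q y = D.B b y * D.B a' y - D.B b y * D.B a y :=
      fun y => by simp only [hq]; ring
    rw [Finset.sum_congr rfl (fun y _ => h4 y), Finset.sum_sub_distrib, h1, h2, sub_zero]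
  have hs4 : ∑ y ∈ ({x, D.c x, x', D.c x'} : Finset I), D.B b y * q y = 0 := by
    rw [← hsum]
    exact Finset.sum_subset (Finset.subset_univ _) (fun y _ hy => by rw [z y hy, mul_zero])
  rw [four, ho, ho'] at hs4
  have r1 : q x + q (D.c x) = 1 ∨ q x + q (D.c x) = -1 := by
    have h1 : q x * q x + q (D.c x) * q (D.c x) = 1 := by linarith
    have h2 : q (D.c x) = q x - 1 := by omega
    rw [h2] at h1 ⊢
    have h3 : q x * (q x - 1) = 0 := by nlinarith
    rcases mul_eq_zero.mp h3 with h4 | h4
    · right; omega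
    · left; omega
  have r2 : q x' + q (D.c x') = 1 ∨ q x' + q (D.c x') = -1 := by
    have h1 : q x' * q x' + q (D.c x') * q (D.c x') = 1 := by linarith
    have h2 : q (D.c x') = q x' + 1 := by omega
    rw [h2] at h1 ⊢
    have h3 : q x' * (q x' + 1) = 0 := by nlinarith
    rcases mul_eq_zero.mp h3 with h4 | h4
    · left; omega
    · right; omega
  intro h1
  rw [h1] at hs4
  have h2 : D.B b x * (q x + q (D.c x)) = 0 := by linarith
  rcases mul_eq_zero.mp h2 with h3 | h3
  · exact h0 h3
  · rcases r1 with h4 | h4 <;> omega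

end Pool.Agent.H87.EG
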