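import Pool.Agent.H87.EG.LatIp

/-!
MODULE LatT (about 100 lines). Parity.

Put X := xx D a, Y := xx D b, β := B a, γ := B b. Facts from xx_spec (p_a y := B (bar a) y - B a y
= [y = X] - [y = c X]), B_bar (B (bar a) y = β (c y)) and the inner products:
* X ≠ o, Y ≠ o (xx_ne and fix); p_a is orthogonal to p_b (B_diff, four terms, cls_bar), so X ≠ Y.
* Put Γ y := β y - [y = o] + [y = X]. Then Γ (c y) = Γ y: β (c y) - β y = [y = X] - [y = c X] and
  [c y = X] = [y = c X], [c y = o] = [y = o]. Γ o = 1 - 1 + 0 = 0. Same for Δ y := γ y - [y = o] +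
  [y = Y].
* For symmetric integer functions Γ, Δ with value 0 at o the sum of Γ y Δ y is even: in ZMod 2 use
  Finset.sum_involution with the involution c on the elements ≠ o (no fixed points by fix).
* 0 = ∑ β γ (B_diff) = ∑ (Γ + [o] - [X]) (Δ + [o] - [Y])
    = ∑ Γ Δ + Γ o - Γ Y + Δ o + 1 - [Y = o] - Δ X - [X = o] + [X = Y]
    = ∑ Γ Δ - Γ Y - Δ X + 1, and Γ Y = β Y (Y ≠ o, Y ≠ X), Δ X = γ X.
So β Y + γ X is odd and one of them is not 0.
-/

open Finset

namespace Pool.Agent.H87.EG

open Classical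

variable {I Φ ι : Type} [Fintype I] (D : Lat I Φ ι)

private theorem sum_even (f g : I → ℤ) (hf : ∀ y, f (D.c y) = f y) (hg : ∀ y, g (D.c y) = g y)
    (h0 : f D.o = 0) : ∃ m : ℤ, ∑ y, f y * g y = 2 * m := by
  have h : ((∑ y, f y * g y : ℤ) : ZMod 2) = 0 := by
    push_cast
    refine Finset.sum_involution (fun y _ => D.c y) ?_ ?_ (fun _ _ => Finset.mem_univ _)
      (fun y _ => D.cc y)
    · intro y _
      rw [hf, hg]
      exact CharTwo.add_self_eq_zero _
    · intro y _ h1 h2
      rw [(D.fix y).1 h2, h0] at h1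
      simp at h1
  obtain ⟨m, hm⟩ := (ZMod.intCast_zmod_eq_zero_iff_dvd _ 2).1 h
  exact ⟨m, by simpa using hm⟩

theorem lat_odd {a b : Φ} (h : D.cls a ≠ D.cls b) :
    D.B a (xx D b) ≠ 0 ∨ D.B b (xx D a) ≠ 0 := by
  have hab : a ≠ b := fun h' => h (by rw [h'])
  have hXY : xx D a ≠ xx D b := fun h' => hab (lat_xx_inj D h')
  have hXo := lat_xx_ne_o D a
  have hYo := lat_xx_ne_o D b
  set X := xx D a with hX
  set Y := xx D b with hY
  -- symmetric corrections
  have sym : ∀ d : Φ, ∀ y, (D.B d (D.c y) - (if D.c y = D.o then 1 else 0) +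
      (if D.c y = xx D d then 1 else 0) : ℤ) =
      D.B d y - (if y = D.o then 1 else 0) + (if y = xx D d then 1 else 0) := by
    intro d y
    have h1 := xx_spec D d y
    rw [D.B_bar] at h1
    have h2 : (D.c y = D.o) ↔ (y = D.o) :=
      ⟨fun h => by by_contra h'; exact lat_c_ne_o D h' h, fun h => by rw [h, lat_c_o]⟩
    have h3 : (D.c y = xx D d) ↔ (y = D.c (xx D d)) :=
      ⟨fun h => by rw [← h, D.cc], fun h => by rw [h, D.cc]⟩
    simp only [h2, h3]
    linarith
  obtain ⟨m, hm⟩ := sum_even D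
    (fun y => D.B a y - (if y = D.o then 1 else 0) + (if y = xx D a then 1 else 0))
    (fun y => D.B b y - (if y = D.o then 1 else 0) + (if y = xx D b then 1 else 0))
    (sym a) (sym b) (by
      show D.B a D.o - (if D.o = D.o then 1 else 0) + (if D.o = xx D a then 1 else 0) = 0
      rw [D.B_o, if_pos rfl, if_neg (Ne.symm hXo)]
      norm_num)
  have hexp : ∀ y, (D.B a y - (if y = D.o then 1 else 0) + (if y = xx D a then 1 else 0)) *
      (D.B b y - (if y = D.o then 1 else 0) + (if y = xx D b then 1 else 0)) =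
      D.B a y * D.B b y - (if y = D.o then D.B a y + D.B b y - 1 else 0) +
      (if y = xx D a then D.B b y else 0) + (if y = xx D b then D.B a y else 0) := by
    intro y
    by_cases h1 : y = D.o
    · have h2 : ¬ y = xx D a := fun h' => hXo (by rw [hX, ← h', h1])
      have h3 : ¬ y = xx D b := fun h' => hYo (by rw [hY, ← h', h1])
      simp only [if_pos h1, if_neg h2, if_neg h3]
      ring
    · by_cases h2 : y = xx D a
      · have h3 : ¬ y = xx D b := fun h' => hXY (by rw [hX, ← h2, h'])
        simp only [if_neg h1, if_pos h2, if_neg h3]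
        ring
      · simp only [if_neg h1, if_neg h2]
        split_ifs <;> ring
  simp only [hexp] at hm
  rw [Finset.sum_add_distrib, Finset.sum_add_distrib, Finset.sum_sub_distrib, Finset.sum_ite_eq',
    Finset.sum_ite_eq', Finset.sum_ite_eq', D.B_diff a b h] at hm
  simp only [Finset.mem_univ, if_true, D.B_o] at hm
  by_contra hcon
  push Not at hcon
  rw [← hX, ← hY, hcon.1, hcon.2] at hm
  omega

end Pool.Agent.H87.EG
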