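import Pool.Agent.H87.EG.LatPair

/-!
The irreducible element attached to a regular induced character (complete, nothing to prove).
-/

open Finset

namespace Pool.Agent.H87.EG

open Classical

variable {I Φ ι : Type} [Fintype I] (D : Lat I Φ ι)

/-- the element given by `pair` -/
noncomputable def xx (a : Φ) : I := (pair D a).choose

theorem xx_ne (a : Φ) : D.c (xx D a) ≠ xx D a := (pair D a).choose_spec.1

theorem xx_spec (a : Φ) (y : I) : D.B (D.bar a) y - D.B a y
    = (if y = xx D a then 1 else 0) - (if y = D.c (xx D a) then 1 else 0) :=
  (pair D a).choose_spec.2 y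

end Pool.Agent.H87.EG
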