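import Mathlib

/-!
MODULE Num (about 120 lines). The numerical contradiction.

e i ≥ 50 odd, m i ≥ 4 or m i = 2, the e i of the indices with m i = 2 are different; R is a
relation with (1), (2), (3) of LatMain. Then the sum of 1 / e i is less than 19/20.

Proof. If ι is empty the sum is 0. Take k with e := e k minimal.
F1 := {i ≠ k | R i k}: for these 1 / e i ≤ (1 + 1/(2e)) * 2 / (2 e i + 1) (as
(2 e i + 1) / (2 e i) ≤ (2 e + 1) / (2 e)), so the sum of 1 / e i over F1 is at most
(1/2) (1 + 1/(2e)).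
F2 := {i ≠ k | R k i}: the sum of m i over F2 is at most e - 1. Let a := number of i in F2 with
m i = 2 and 2 e i < 3 e; as the e i are different odd numbers in [e, 3e/2) we have
4 a ≤ e + 4 (the map i ↦ (e i - e) / 2 is injective into {0, ..., j | 4 j < e}). Let d := number of
the other i in F2 with m i = 2, and f := number of i in F2 with m i ≥ 4. 2 a + 2 d + 4 f ≤ e - 1.
Sum of 1 / e i over F2 ≤ a / e + (2/3) d / e + f / e ≤ a / e + (2/3) (d + 2 f) / e
 ≤ a / e + (2/3) ((e - 1)/2 - a) / e ≤ (1/3) a / e + (1/3) ≤ (1/3) (1/4 + 1/e) + 1/3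
 = 5/12 + 1/(3e).
All i ≠ k are in F1 or F2. Total ≤ 1/e + 1/2 + 1/(4e) + 5/12 + 1/(3e) = 11/12 + 19/(12 e), and
19/(12 e) ≤ 19/600 < 1/30 = 19/20 - 11/12.
-/

open Finset

namespace Pool.Agent.H87.EG

open Classical

theorem num {ι : Type} [Fintype ι] (e m : ι → ℕ) (R : ι → ι → Prop)
    (he : ∀ i, 50 ≤ e i) (ho : ∀ i, Odd (e i)) (hm : ∀ i, m i = 2 ∨ 4 ≤ m i)
    (hd : ∀ i k, m i = 2 → m k = 2 → e i = e k → i = k)
    (h1 : ∀ i k, i ≠ k → R i k ∨ R k i)
    (h2 : ∀ i, (∑ k, if k ≠ i ∧ R i k then m k else 0) + 1 ≤ e i)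
    (h3 : ∀ k, (∑ i, if i ≠ k ∧ R i k then (2 : ℝ) / (2 * e i + 1) else 0) ≤ 1 / 2) :
    ∑ i, (1 : ℝ) / e i < 19 / 20 := by
  rcases isEmpty_or_nonempty ι with hE | hE
  · simp
  obtain ⟨k, -, hk⟩ := Finset.exists_min_image Finset.univ e Finset.univ_nonempty
  have hk' : ∀ i, e k ≤ e i := fun i => hk i (Finset.mem_univ i)
  have hek : (50 : ℝ) ≤ e k := by exact_mod_cast he k
  have hepos : (0 : ℝ) < e k := by linarith
  have hle : ∀ i, (e k : ℝ) ≤ e i := fun i => by exact_mod_cast hk' i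
  have hpos : ∀ i, (0 : ℝ) < e i := fun i => lt_of_lt_of_le hepos (hle i)
  -- the small letters
  set A : Finset ι := Finset.univ.filter (fun i => m i = 2 ∧ 2 * e i < 3 * e k) with hA
  have hAcard : A.card ≤ (e k - 1) / 4 + 1 := by
    have : A.card ≤ (Finset.range ((e k - 1) / 4 + 1)).card := by
      apply Finset.card_le_card_of_injOn (fun i => (e i - e k) / 2)
      · intro i hi
        rw [hA, Finset.coe_filter] at hi
        obtain ⟨-, hi1, hi2⟩ := hi
        have h3 := hk' i
        have h4 := he k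
        rw [Finset.coe_range, Set.mem_Iio]
        change (e i - e k) / 2 < (e k - 1) / 4 + 1
        omega
      · intro i hi j hj hij
        rw [hA, Finset.coe_filter] at hi hj
        obtain ⟨-, hi1, hi2⟩ := hi
        obtain ⟨-, hj1, hj2⟩ := hj
        apply hd i j hi1 hj1
        change (e i - e k) / 2 = (e j - e k) / 2 at hij
        have h3 := hk' i
        have h4 := hk' j
        obtain ⟨a, ha⟩ := ho i
        obtain ⟨b, hb⟩ := ho j
        obtain ⟨c, hc⟩ := ho k
        omega
    simpa using this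
  have hA4 : (A.card : ℝ) * 4 ≤ e k + 4 := by
    have h4 := he k
    have : A.card * 4 ≤ e k + 4 := by omega
    exact_mod_cast this
  -- pointwise bounds
  have hp1 : ∀ i, (1 : ℝ) / e i ≤ (1 + 1 / (2 * e k)) * (2 / (2 * e i + 1)) := by
    intro i
    have h5 := hpos i
    have h6 := hle i
    rw [show (1 + 1 / (2 * (e k : ℝ))) * (2 / (2 * (e i : ℝ) + 1)) =
      (2 * (2 * e k + 1)) / ((2 * e k) * (2 * e i + 1)) by field_simp]
    rw [div_le_div_iff₀ h5 (by positivity)]
    nlinarith
  have hp2 : ∀ i, (1 : ℝ) / e i ≤ (1 / (3 * e k)) * (m i + if i ∈ A then 1 else 0) := by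
    intro i
    have h5 := hpos i
    have h6 := hle i
    rw [div_mul_eq_mul_div, one_mul, div_le_div_iff₀ h5 (by positivity), one_mul]
    by_cases hiA : i ∈ A
    · rw [if_pos hiA]
      have : m i = 2 := by
        rw [hA, Finset.mem_filter] at hiA
        exact hiA.2.1
      rw [this]
      push_cast
      linarith
    · rw [if_neg hiA]
      rcases hm i with h7 | h7
      · have h8 : 3 * e k ≤ 2 * e i := by
          by_contra h9
          push Not at h9
          exact hiA (by rw [hA, Finset.mem_filter]; exact ⟨Finset.mem_univ i, h7, h9⟩)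
        have h9 : (3 : ℝ) * e k ≤ 2 * e i := by exact_mod_cast h8
        rw [h7]
        push_cast
        linarith
      · have h8 : (4 : ℝ) ≤ m i := by exact_mod_cast h7
        nlinarith
  -- split
  have hsplit : ∀ i, (1 : ℝ) / e i ≤ (if i = k then 1 / (e k : ℝ) else 0) +
      (1 + 1 / (2 * e k)) * (if i ≠ k ∧ R i k then (2 : ℝ) / (2 * e i + 1) else 0) +
      (1 / (3 * e k)) * ((if i ≠ k ∧ R k i then (m i : ℝ) else 0) + if i ∈ A then 1 else 0) := by
    intro i
    have hA0 : (0 : ℝ) ≤ if i ∈ A then (1 : ℝ) else 0 := by split_ifs <;> norm_num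
    have h5 := hpos i
    have hc1 : (0 : ℝ) ≤ 1 + 1 / (2 * e k) := by positivity
    have hc2 : (0 : ℝ) ≤ 1 / (3 * e k) := by positivity
    by_cases hik : i = k
    · rw [if_pos hik, if_neg (fun h => h.1 hik), if_neg (fun h => h.1 hik), hik]
      rw [hik] at hA0
      have := mul_nonneg hc2 hA0
      nlinarith
    · rw [if_neg hik]
      rcases h1 i k hik with h | h
      · rw [if_pos (⟨hik, h⟩ : i ≠ k ∧ R i k)]
        have h7 : (0 : ℝ) ≤ (if i ≠ k ∧ R k i then (m i : ℝ) else 0) := by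
          split_ifs
          · positivity
          · norm_num
        have := mul_nonneg hc2 (add_nonneg h7 hA0)
        have := hp1 i
        linarith
      · rw [if_pos (⟨hik, h⟩ : i ≠ k ∧ R k i)]
        have h7 : (0 : ℝ) ≤ (if i ≠ k ∧ R i k then (2 : ℝ) / (2 * e i + 1) else 0) := by
          split_ifs
          · positivity
          · norm_num
        have := mul_nonneg hc1 h7
        have := hp2 i
        linarith
  have htot := Finset.sum_le_sum (fun i (_ : i ∈ Finset.univ) => hsplit i)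
  rw [Finset.sum_add_distrib, Finset.sum_add_distrib, ← Finset.mul_sum, ← Finset.mul_sum,
    Finset.sum_add_distrib, Finset.sum_ite_eq' Finset.univ k (fun _ => 1 / (e k : ℝ)),
    if_pos (Finset.mem_univ k)] at htot
  have hsA : ∑ i, (if i ∈ A then (1 : ℝ) else 0) = A.card := by
    rw [Finset.sum_ite_mem, Finset.univ_inter]
    simp
  have hsm : ∑ i, (if i ≠ k ∧ R k i then (m i : ℝ) else 0) ≤ e k - 1 := by
    have := h2 k
    have h7 : ((∑ i, if i ≠ k ∧ R k i then m i else 0 : ℕ) : ℝ) + 1 ≤ e k := by exact_mod_cast this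
    push_cast at h7
    linarith
  have h3k := h3 k
  rw [hsA] at htot
  have hc1 : (0 : ℝ) ≤ 1 + 1 / (2 * e k) := by positivity
  have hc2 : (0 : ℝ) ≤ 1 / (3 * e k) := by positivity
  have hb1 := mul_le_mul_of_nonneg_left h3k hc1
  have hb2 : (1 / (3 * (e k : ℝ))) * (∑ i, (if i ≠ k ∧ R k i then (m i : ℝ) else 0) + A.card) ≤
      5 / 12 := by
    have h8 : ∑ i, (if i ≠ k ∧ R k i then (m i : ℝ) else 0) + (A.card : ℝ) ≤ 5 / 4 * e k := by
      linarith
    calc _ ≤ (1 / (3 * (e k : ℝ))) * (5 / 4 * e k) := mul_le_mul_of_nonneg_left h8 hc2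
      _ = 5 / 12 := by field_simp; norm_num
  have hinv : 1 / (e k : ℝ) ≤ 1 / 50 := one_div_le_one_div_of_le (by norm_num) hek
  have hinv2 : 1 / (2 * (e k : ℝ)) = (1 / (e k : ℝ)) / 2 := by field_simp
  rw [hinv2] at hb1 htot
  linarith

end Pool.Agent.H87.EG
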