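import Pool.Agent.H87.EG.PsiIp

/-!
MODULE OrbB (about 70 lines). No nontrivial linear character is conjugate to its inverse.

Suppose ps lam⁻¹ = ps lam. By ps_eq_iff there is l in L with lam (l⁻¹ x l) = lam⁻¹ x for x ∈ H;
then lam (l⁻² x l²) = lam x; l has odd order, so l = (l^2)^k for some k and lam (l⁻¹ x l) = lam x.
So lam x = (lam x)⁻¹, (lam x)^2 = 1, x has odd order (|H| divides |L|), so lam x = 1 for all
x ∈ H and lam = 1.
-/

open Finset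

namespace Pool.Agent.H87.EG

open Pool.Agent.H7.Artin Pool.Agent.H72.Sol Pool.Agent.H31.Thr

variable {G : Type} [Group G] [Fintype G] {L H : Subgroup G}

theorem ps_inv_ne (hodd : Odd (Nat.card L)) (hle : H ≤ L)
    (hnm : ∀ l ∈ L, ∀ x ∈ H, l * x * l⁻¹ ∈ H) {lam : H →* ℂˣ} (h1 : lam ≠ 1) :
    ps L H lam⁻¹ ≠ ps L H lam := by
  intro heq
  obtain ⟨l, hl, hx⟩ := (ps_eq_iff hnm lam⁻¹ lam).1 heq
  have hstep : ∀ x, ex H lam ((l ^ 2)⁻¹ * x * l ^ 2) = ex H lam x := by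
    intro x
    have h2 : (l ^ 2)⁻¹ * x * l ^ 2 = l⁻¹ * (l⁻¹ * x * l) * l := by
      rw [pow_two, mul_inv_rev]; group
    rw [h2, hx, ← ex_conj, hx, ← ex_conj, Complex.conj_conj]
  have hpow : ∀ k : ℕ, ∀ x, ex H lam (((l ^ 2) ^ k)⁻¹ * x * (l ^ 2) ^ k) = ex H lam x := by
    intro k
    induction k with
    | zero => intro x; simp
    | succ k ih =>
      intro x
      have h2 : ((l ^ 2) ^ (k + 1))⁻¹ * x * (l ^ 2) ^ (k + 1) =
          ((l ^ 2) ^ k)⁻¹ * ((l ^ 2)⁻¹ * x * l ^ 2) * (l ^ 2) ^ k := by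
        rw [pow_succ' (l ^ 2) k, mul_inv_rev]; group
      rw [h2, ih, hstep]
  have hoddL : ∀ y ∈ L, ∃ m : ℕ, y ^ (2 * m + 1) = 1 := by
    intro y hy
    obtain ⟨m, hm⟩ := hodd
    refine ⟨m, ?_⟩
    have := pow_card_eq_one' (x := (⟨y, hy⟩ : L))
    rw [hm] at this
    exact congrArg Subtype.val this
  obtain ⟨m, hm⟩ := hoddL l hl
  have hlk : (l ^ 2) ^ (m + 1) = l := by
    rw [← pow_mul]
    have : 2 * (m + 1) = (2 * m + 1) + 1 := by ring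
    rw [this, pow_succ, hm, one_mul]
  have hreal : ∀ x, ex H lam⁻¹ x = ex H lam x := by
    intro x
    rw [← hx, ← hpow (m + 1) x, hlk]
  apply h1
  ext ⟨x, hxH⟩
  have h3 := hreal x
  unfold ex at h3
  rw [dif_pos hxH, dif_pos hxH] at h3
  have h4 : lam⁻¹ ⟨x, hxH⟩ = lam ⟨x, hxH⟩ := Units.ext h3
  rw [MonoidHom.inv_apply] at h4
  have h5 : lam ⟨x, hxH⟩ ^ 2 = 1 := by
    rw [pow_two]
    nth_rewrite 1 [← h4]
    exact inv_mul_cancel _
  obtain ⟨k, hk⟩ := hoddL x (hle hxH)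
  have h6 : lam ⟨x, hxH⟩ ^ (2 * k + 1) = 1 := by
    rw [← map_pow]
    have : (⟨x, hxH⟩ : H) ^ (2 * k + 1) = 1 := Subtype.ext hk
    rw [this, map_one]
  rw [pow_succ, pow_mul, h5, one_pow, one_mul] at h6
  rw [h6]
  simp

end Pool.Agent.H87.EG
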