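import Pool.Agent.H87.EG.PsiIp

/-!
MODULE OrbC (about 100 lines). Number of regular orbits; number of linear characters.

`card_orb`: the number of functions ps lam (lam regular) times |L| is the number of regular lam
times |H|: every fibre of lam ↦ ps lam over the regular lam has |L| / |H| elements: by ps_eq_iff
the fibre of ps mu (mu regular) is the set of all lam of the form lam = mu^l (lam x =
mu (l⁻¹ x l)), l ∈ L; all these are regular; the fibres of l ↦ mu^l (from L onto the set) are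
cosets of H (Reg). [Count the pairs (lam, l) with lam = mu^l.]

`card_dvd`: the number of linear characters of H divides |H|: H →* ℂˣ is equivalent to
(Abelianization H →* ℂˣ) (Abelianization.lift), which is isomorphic to Abelianization H
(CommGroup.monoidHom_mulEquiv_of_hasEnoughRootsOfUnity or a similar name in
Mathlib/GroupTheory/FiniteAbelian/Duality), a quotient of H.
-/

open Finset

namespace Pool.Agent.H87.EG

open Pool.Agent.H7.Artin Pool.Agent.H72.Sol Pool.Agent.H31.Thr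

variable {G : Type} [Group G] [Fintype G] {L H : Subgroup G}

private lemma hnm' (hnm : ∀ l ∈ L, ∀ x ∈ H, l * x * l⁻¹ ∈ H) (l : G) (hl : l ∈ L) (x : G) :
    l⁻¹ * x * l ∈ H ↔ x ∈ H := by
  constructor
  · intro h
    have := hnm l hl _ h
    simpa [mul_assoc] using this
  · intro h
    have := hnm l⁻¹ (L.inv_mem hl) _ h
    simpa using this

/-- conjugation of a linear character -/
private def tw (hnm : ∀ l ∈ L, ∀ x ∈ H, l * x * l⁻¹ ∈ H) (mu : H →* ℂˣ) (l : L) : H →* ℂˣ where
  toFun x := mu ⟨(l : G)⁻¹ * x * l, (hnm' hnm l l.2 x).2 x.2⟩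
  map_one' := by
    have : (⟨(l : G)⁻¹ * ((1 : H) : G) * l, (hnm' hnm l l.2 _).2 (1 : H).2⟩ : H) = 1 := by
      ext; simp
    rw [this, map_one]
  map_mul' x y := by
    rw [← map_mul]
    congr 1
    ext
    simp [mul_assoc]

private lemma ex_tw (hnm : ∀ l ∈ L, ∀ x ∈ H, l * x * l⁻¹ ∈ H) (mu : H →* ℂˣ) (l : L) (x : G) :
    ex H (tw hnm mu l) x = ex H mu ((l : G)⁻¹ * x * l) := by
  unfold ex
  by_cases h : x ∈ H
  · have h' := (hnm' hnm l l.2 x).2 h
    rw [dif_pos h, dif_pos h']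
    rfl
  · have h' := mt (hnm' hnm l l.2 x).1 h
    rw [dif_neg h, dif_neg h']

private lemma ex_inj {lam mu : H →* ℂˣ} (h : ∀ x, ex H lam x = ex H mu x) : lam = mu := by
  ext x
  have := h x
  unfold ex at this
  rw [dif_pos x.2, dif_pos x.2] at this
  exact this

private lemma fin_lin (H : Subgroup G) : Nat.card (H →* ℂˣ) ∣ Nat.card H ∧
    Nat.card (H →* ℂˣ) ≠ 0 := by
  have e : Nat.card (H →* ℂˣ) = Nat.card (Abelianization H) := by
    rw [Nat.card_congr (Abelianization.lift (G := H) (A := ℂˣ))]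
    exact Nat.card_congr
      (CommGroup.monoidHom_mulEquiv_of_hasEnoughRootsOfUnity (Abelianization H) ℂ).some.toEquiv
  rw [e]
  refine ⟨Subgroup.card_quotient_dvd_card _, ?_⟩
  have : Finite (Abelianization H) := by
    unfold Abelianization
    infer_instance
  exact Nat.card_pos.ne'

private lemma fin_lin' (H : Subgroup G) : Finite (H →* ℂˣ) :=
  Nat.finite_of_card_ne_zero (fin_lin H).2

private lemma tw_reg (hnm : ∀ l ∈ L, ∀ x ∈ H, l * x * l⁻¹ ∈ H) {mu : H →* ℂˣ}
    (hr : Reg L H mu) (l : L) : Reg L H (tw hnm mu l) := by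
  intro k hk h
  have h1 : (l : G)⁻¹ * k * l ∈ H := by
    refine hr _ (L.mul_mem (L.mul_mem (L.inv_mem l.2) hk) l.2) ?_
    intro x
    have := h (l * x * (l : G)⁻¹)
    rw [ex_tw, ex_tw] at this
    simp only [mul_assoc, inv_mul_cancel_left, inv_mul_cancel, mul_one, mul_inv_rev,
      inv_inv] at this ⊢
    exact this
  exact (hnm' hnm l l.2 k).1 h1

private lemma fib (hle : H ≤ L) (hnm : ∀ l ∈ L, ∀ x ∈ H, l * x * l⁻¹ ∈ H) {mu : H →* ℂˣ}
    (hr : Reg L H mu) :
    Nat.card {lam : {lam : H →* ℂˣ // Reg L H lam} // ps L H lam.1 = ps L H mu} * Nat.card H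
      = Nat.card L := by
  have h0 := Subgroup.card_eq_card_quotient_mul_card_subgroup (H.subgroupOf L)
  have h1 : Nat.card (H.subgroupOf L) = Nat.card H :=
    Nat.card_congr (Subgroup.subgroupOfEquivOfLe hle).toEquiv
  rw [h0, h1]
  congr 1
  have key : ∀ l k : L, tw hnm mu l = tw hnm mu k ↔ l⁻¹ * k ∈ H.subgroupOf L := by
    intro l k
    rw [Subgroup.mem_subgroupOf]
    constructor
    · intro h
      refine hr _ (l⁻¹ * k).2 ?_
      intro x
      have h2 : ex H (tw hnm mu l) (l * x * (l : G)⁻¹) = ex H (tw hnm mu k) (l * x * (l : G)⁻¹) := by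
        rw [h]
      rw [ex_tw, ex_tw] at h2
      simp only [mul_assoc, inv_mul_cancel_left, inv_mul_cancel, mul_one] at h2
      rw [h2]
      congr 1
      simp [mul_assoc]
    · intro h
      have hm : ∀ a : G, ∀ x : G, a ∈ H → ex H mu (a⁻¹ * x * a) = ex H mu x := by
        intro a x ha
        unfold ex
        by_cases hx : x ∈ H
        · have hx' : a⁻¹ * x * a ∈ H := H.mul_mem (H.mul_mem (H.inv_mem ha) hx) ha
          rw [dif_pos hx', dif_pos hx]
          congr 1
          have : (⟨a⁻¹ * x * a, hx'⟩ : H) = ⟨a, ha⟩⁻¹ * ⟨x, hx⟩ * ⟨a, ha⟩ := by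
            ext; simp
          rw [this, map_mul, map_mul, map_inv, mul_comm, mul_inv_cancel_left]
        · have hx' : a⁻¹ * x * a ∉ H := by
            intro h'
            apply hx
            have := H.mul_mem (H.mul_mem ha h') (H.inv_mem ha)
            simpa [mul_assoc] using this
          rw [dif_neg hx', dif_neg hx]
      apply ex_inj
      intro x
      rw [ex_tw, ex_tw]
      have h3 := hm ((l : G)⁻¹ * k) ((l : G)⁻¹ * x * l) (by simpa using h)
      rw [← h3]
      congr 1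
      simp [mul_assoc]
  have hps : ∀ l : L, ps L H (tw hnm mu l) = ps L H mu := by
    intro l
    rw [ps_eq_iff hnm]
    exact ⟨l, l.2, fun x => (ex_tw hnm mu l x).symm⟩
  symm
  refine Nat.card_congr (Equiv.ofBijective
    (Quotient.lift (fun l : L => (⟨⟨tw hnm mu l, tw_reg hnm hr l⟩, hps l⟩ :
      {lam : {lam : H →* ℂˣ // Reg L H lam} // ps L H lam.1 = ps L H mu})) ?_) ⟨?_, ?_⟩)
  · intro l k h
    have h' : l⁻¹ * k ∈ H.subgroupOf L := by
      exact QuotientGroup.leftRel_apply.1 h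
    ext1
    ext1
    exact (key l k).2 h'
  · intro a b
    refine Quotient.inductionOn₂ a b ?_
    intro l k h
    apply Quotient.sound
    have h1 : tw hnm mu l = tw hnm mu k := by
      have := congrArg (fun z => z.1.1) h
      exact this
    exact QuotientGroup.leftRel_apply.2 ((key l k).1 h1)
  · rintro ⟨⟨lam, hlam⟩, h⟩
    obtain ⟨l, hl, hx⟩ := (ps_eq_iff hnm lam mu).1 h
    refine ⟨Quotient.mk _ ⟨l, hl⟩, ?_⟩
    ext1
    ext1
    apply ex_inj
    intro x
    have := ex_tw hnm mu ⟨l, hl⟩ x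
    rw [← hx x]
    exact this

theorem card_dvd (H : Subgroup G) : Nat.card (H →* ℂˣ) ∣ Nat.card H := (fin_lin H).1

theorem fin_ps (L H : Subgroup G) :
    Finite {ψ : G → ℂ // ∃ lam : H →* ℂˣ, Reg L H lam ∧ ψ = ps L H lam} := by
  have := fin_lin' H
  refine Finite.of_surjective
    (fun lam : {lam : H →* ℂˣ // Reg L H lam} =>
      (⟨ps L H lam.1, lam.1, lam.2, rfl⟩ :
        {ψ : G → ℂ // ∃ lam : H →* ℂˣ, Reg L H lam ∧ ψ = ps L H lam})) ?_
  rintro ⟨ψ, lam, hr, rfl⟩
  exact ⟨⟨lam, hr⟩, rfl⟩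

theorem card_orb (hle : H ≤ L) (hnm : ∀ l ∈ L, ∀ x ∈ H, l * x * l⁻¹ ∈ H) :
    Nat.card {ψ : G → ℂ // ∃ lam : H →* ℂˣ, Reg L H lam ∧ ψ = ps L H lam} * Nat.card L
      = Nat.card {lam : H →* ℂˣ // Reg L H lam} * Nat.card H := by
  classical
  have := fin_lin' H
  have := fin_ps L H
  let F : {lam : H →* ℂˣ // Reg L H lam} →
      {ψ : G → ℂ // ∃ lam : H →* ℂˣ, Reg L H lam ∧ ψ = ps L H lam} :=
    fun lam => ⟨ps L H lam.1, lam.1, lam.2, rfl⟩
  haveI := Fintype.ofFinite {ψ : G → ℂ // ∃ lam : H →* ℂˣ, Reg L H lam ∧ ψ = ps L H lam}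
  rw [Nat.card_congr (Equiv.sigmaFiberEquiv F).symm, Nat.card_sigma, Finset.sum_mul]
  have : ∀ ψ : {ψ : G → ℂ // ∃ lam : H →* ℂˣ, Reg L H lam ∧ ψ = ps L H lam},
      Nat.card {lam // F lam = ψ} * Nat.card H = Nat.card L := by
    rintro ⟨ψ, mu, hr, rfl⟩
    rw [← fib hle hnm hr]
    congr 1
    refine Nat.card_congr (Equiv.subtypeEquivRight ?_)
    intro lam
    simp [F]
  rw [Finset.sum_congr rfl (fun ψ _ => this ψ)]
  simp [Nat.card_eq_fintype_card]

end Pool.Agent.H87.EG
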