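import Pool.Agent.H87.EG.OrbA
import Pool.Agent.H87.EG.OrbB
import Pool.Agent.H87.EG.OrbC

/-!
MODULE OrbD (about 90 lines).

`card_cases`: let m be the number of functions ps lam (lam regular). If there is a regular lam,
and (all lam ≠ 1 are regular, or there are regular lam, mu with ps mu ≠ ps lam, ps lam⁻¹), and
H ≠ L, then m ≥ 4 or m = 2 and (|H →* ℂˣ| - 1) |H| = 2 |L|. Proof: ψ ↦ conj ψ (ps_conj, reg_inv)
is an involution without fixed points on the finite set of these functions (ps_inv_ne; a regular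
lam is not 1 by reg_ne_one), so m is even and not 0 (e.g. Finset.card_involution or Fintype.card
parity of a fixed point free involution: Equiv.Perm.card_fixedPoints_modEq, or
Function.Involutive); if m = 2 the second alternative is impossible (ps lam, ps lam⁻¹, ps mu are
three different elements), so all lam ≠ 1 are regular, 1 is not regular (reg_ne_one) and card_orb
gives 2 |L| = (|H →* ℂˣ| - 1) |H|.
-/

open Finset

namespace Pool.Agent.H87.EG

open Pool.Agent.H7.Artin Pool.Agent.H72.Sol Pool.Agent.H31.Thr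

variable {G : Type} [Group G] [Fintype G] {L H : Subgroup G}

/-- A fixed point free involution of a finite type: the number of elements is even. -/
private theorem even_of_inv {α : Type} [Fintype α] (f : α → α) (hf : ∀ x, f (f x) = x)
    (hne : ∀ x, f x ≠ x) : 2 ∣ Fintype.card α := by
  classical
  have h := Equiv.Perm.card_fixedPoints_modEq (p := 2) (n := 1) (f := f) (by
    funext x
    exact hf x)
  have h0 : Fintype.card (Function.fixedPoints f) = 0 := by
    rw [Fintype.card_eq_zero_iff]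
    exact ⟨fun x => hne x.1 x.2⟩
  rw [h0] at h
  exact (Nat.modEq_zero_iff_dvd).1 h

theorem card_cases (hodd : Odd (Nat.card L)) (hne : H ≠ L) (hle : H ≤ L)
    (hnm : ∀ l ∈ L, ∀ x ∈ H, l * x * l⁻¹ ∈ H) (hex : ∃ lam : H →* ℂˣ, Reg L H lam)
    (hc : (∀ lam : H →* ℂˣ, lam ≠ 1 → Reg L H lam) ∨ ∃ lam mu : H →* ℂˣ, Reg L H lam ∧
      Reg L H mu ∧ ps L H mu ≠ ps L H lam ∧ ps L H mu ≠ ps L H lam⁻¹) :
    4 ≤ Nat.card {ψ : G → ℂ // ∃ lam : H →* ℂˣ, Reg L H lam ∧ ψ = ps L H lam} ∨
    (Nat.card {ψ : G → ℂ // ∃ lam : H →* ℂˣ, Reg L H lam ∧ ψ = ps L H lam} = 2 ∧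
      (Nat.card (H →* ℂˣ) - 1) * Nat.card H = 2 * Nat.card L) := by
  classical
  let S := {ψ : G → ℂ // ∃ lam : H →* ℂˣ, Reg L H lam ∧ ψ = ps L H lam}
  have hfin : Finite S := fin_ps L H
  let _ : Fintype S := Fintype.ofFinite S
  have hreg1 : ∀ lam : H →* ℂˣ, Reg L H lam → lam ≠ 1 := by
    intro lam hr h1
    have := reg_ne_one hne hle hnm hr
    exact this (by rw [h1])
  let f : S → S := fun ψ => ⟨fun x => starRingEnd ℂ (ψ.1 x), by
    obtain ⟨lam, hr, h⟩ := ψ.2
    refine ⟨lam⁻¹, reg_inv hr, ?_⟩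
    funext x
    rw [h, ps_conj]⟩
  have hff : ∀ x, f (f x) = x := by
    intro ψ
    apply Subtype.ext
    funext x
    simp [f]
  have hfne : ∀ x, f x ≠ x := by
    intro ψ h
    obtain ⟨lam, hr, hψ⟩ := ψ.2
    have h1 := congrArg Subtype.val h
    refine ps_inv_ne hodd hle hnm (hreg1 lam hr) ?_
    funext x
    rw [← ps_conj, ← hψ]
    exact congrFun h1 x
  have h2 : 2 ∣ Nat.card S := by
    rw [Nat.card_eq_fintype_card]
    exact even_of_inv f hff hfne
  obtain ⟨lam0, hr0⟩ := hex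
  have hpos : 0 < Nat.card S := by
    have : Nonempty S := ⟨⟨ps L H lam0, lam0, hr0, rfl⟩⟩
    exact Nat.card_pos
  change 4 ≤ Nat.card S ∨ (Nat.card S = 2 ∧ _)
  by_cases h4 : 4 ≤ Nat.card S
  · exact Or.inl h4
  right
  have hS2 : Nat.card S = 2 := by omega
  refine ⟨hS2, ?_⟩
  have hall : ∀ lam : H →* ℂˣ, lam ≠ 1 → Reg L H lam := by
    rcases hc with hc | ⟨lam, mu, hl, hm, hn1, hn2⟩
    · exact hc
    exfalso
    have h3 : 3 ≤ Nat.card S := by
      let a : S := ⟨ps L H lam, lam, hl, rfl⟩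
      let b : S := ⟨ps L H lam⁻¹, lam⁻¹, reg_inv hl, rfl⟩
      let c : S := ⟨ps L H mu, mu, hm, rfl⟩
      have hab : a ≠ b := by
        intro h
        exact ps_inv_ne hodd hle hnm (hreg1 lam hl) (congrArg Subtype.val h).symm
      have hca : c ≠ a := fun h => hn1 (congrArg Subtype.val h)
      have hcb : c ≠ b := fun h => hn2 (congrArg Subtype.val h)
      rw [Nat.card_eq_fintype_card]
      have h5 : ({a, b, c} : Finset S).card = 3 := by
        rw [Finset.card_eq_three]
        exact ⟨a, b, c, hab, hca.symm, hcb.symm, rfl⟩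
      rw [← h5]
      exact Finset.card_le_univ _
    omega
  have hiff : ∀ lam : H →* ℂˣ, Reg L H lam ↔ lam ≠ 1 := fun lam => ⟨hreg1 lam, hall lam⟩
  have hco := card_orb (G := G) hle hnm
  have hcr : Nat.card {lam : H →* ℂˣ // Reg L H lam} = Nat.card (H →* ℂˣ) - 1 := by
    have hd : Nat.card (H →* ℂˣ) ∣ Nat.card H := card_dvd H
    have hp : 0 < Nat.card (H →* ℂˣ) := Nat.pos_of_dvd_of_pos hd Nat.card_pos
    have hfi : Finite (H →* ℂˣ) := Nat.finite_of_card_ne_zero hp.ne'
    let _ : Fintype (H →* ℂˣ) := Fintype.ofFinite _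
    rw [Nat.card_congr (Equiv.subtypeEquivRight hiff), Nat.card_eq_fintype_card,
      Nat.card_eq_fintype_card, Fintype.card_subtype_compl, Fintype.card_subtype_eq]
  rw [hcr] at hco
  change Nat.card S * _ = _ at hco
  rw [hS2] at hco
  exact hco.symm

end Pool.Agent.H87.EG
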