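import Pool.Agent.H87.EG.Defs

/-!
MODULE PsiV (about 60 lines). ps L H lam is a character of L.

fun l : L => ps L H lam l is the function indChar (H.subgroupOf L) lam' of H7/Artin/Ind, with
lam' = lam transported along H.subgroupOf L ≃ H (Subgroup.subgroupOfEquivOfLe), which is the
character of indRep (indRep_character there); vir_character (H31/Thr/T2_Vir) gives Vir. (The sum
over G of the terms with l ∈ L is the sum over L.)
-/

open Finset

namespace Pool.Agent.H87.EG

open Pool.Agent.H7.Artin Pool.Agent.H72.Sol Pool.Agent.H31.Thr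

variable {G : Type} [Group G] [Fintype G] {L H : Subgroup G}

theorem ps_vir (hle : H ≤ L) (hnm : ∀ l ∈ L, ∀ x ∈ H, l * x * l⁻¹ ∈ H) (lam : H →* ℂˣ) :
    Vir (fun l : L => ps L H lam l) := by
  classical
  have hcard : Nat.card (H.subgroupOf L) = Nat.card H :=
    Nat.card_congr (Subgroup.subgroupOfEquivOfLe hle).toEquiv
  have key : (fun l : L => ps L H lam l) =
      (indRep (H.subgroupOf L)
        (lam.comp (Subgroup.subgroupOfEquivOfLe hle).toMonoidHom)).character := by
    funext l
    rw [indRep_character]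
    unfold ps indChar
    rw [hcard]
    congr 1
    rw [← Finset.sum_filter, ← Finset.sum_subtype_eq_sum_filter]
    refine Finset.sum_bij' (fun a _ => (⟨a.1, a.2⟩ : L)) (fun a _ => ⟨a.1, a.2⟩) ?_ ?_ ?_ ?_ ?_
    · intro a _
      exact Finset.mem_univ _
    · intro a _
      simp
    · intro a _
      rfl
    · intro a _
      rfl
    · intro a _
      unfold ex
      by_cases h : (a.1)⁻¹ * (l : G) * a.1 ∈ H
      · have h' : (⟨a.1, a.2⟩ : L)⁻¹ * l * ⟨a.1, a.2⟩ ∈ H.subgroupOf L := by
          rw [Subgroup.mem_subgroupOf]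
          exact h
        rw [dif_pos h, dif_pos h']
        rfl
      · have h' : ¬ (⟨a.1, a.2⟩ : L)⁻¹ * l * ⟨a.1, a.2⟩ ∈ H.subgroupOf L := by
          rw [Subgroup.mem_subgroupOf]
          exact h
        rw [dif_neg h, dif_neg h']
  rw [key]
  exact vir_character _

end Pool.Agent.H87.EG
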