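import Pool.Agent.H87.EG.CoefA

/-!
MODULE RealOdd (about 120 lines). In a group of odd order only the trivial irreducible character
is real.

`conj_inv_odd`: if k x k⁻¹ = x⁻¹ in a group of odd order then x = 1. Proof: k ^ 2 commutes with x;
k has odd order, so k is a power of k ^ 2 and commutes with x; x = x⁻¹, x ^ 2 = 1, the order of x
is odd, x = 1.

`real_irr`. For z : G let f be the indicator function of the conjugacy class of z. By
exists_expand f (z⁻¹) = ∑_χ ipF f χ * χ z⁻¹ and ipF f χ = (|class z| / |G|) χ z⁻¹. If z ≠ 1 then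
z⁻¹ is not in the class of z, so ∑_χ (χ z⁻¹)^2 = 0; for z = 1: ∑_χ (χ 1)^2 = |G|. Summing over all
z : G: ∑_χ ∑_z (χ z)^2 = |G|, that is ∑_χ hp χ (conj χ) = 1. Now hp χ (conj χ) is 1 if χ is real
and 0 otherwise (ip_irr, conj_irr); the trivial character contributes 1, so no other irreducible
character is real.
-/

open Finset

namespace Pool.Agent.H87.EG

open Pool.Agent.H7.Artin Pool.Agent.H72.Sol Pool.Agent.H31.Thr

variable {G : Type} [Group G] [Fintype G]

theorem conj_inv_odd (hodd : Odd (Nat.card G)) {k x : G} (h : k * x * k⁻¹ = x⁻¹) : x = 1 := by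
  have h2 : Commute (k ^ 2) x := by
    have h3 : k * x⁻¹ * k⁻¹ = x := by
      have := congrArg (fun y => y⁻¹) h
      simp only [mul_inv_rev, inv_inv] at this
      rw [mul_assoc]
      exact this
    have h4 : k * (k * x * k⁻¹) * k⁻¹ = x := by rw [h, h3]
    change k ^ 2 * x = x * k ^ 2
    have h5 : (k * (k * x * k⁻¹) * k⁻¹) * k ^ 2 = k ^ 2 * x := by
      rw [pow_two]
      group
    rw [← h5, h4]
  have hk : Odd (orderOf k) := by
    rcases Nat.even_or_odd (orderOf k) with he | ho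
    · exfalso
      have h5 : 2 ∣ Nat.card G := he.two_dvd.trans (orderOf_dvd_natCard k)
      exact (Nat.not_even_iff_odd.2 hodd) (even_iff_two_dvd.2 h5)
    · exact ho
  obtain ⟨m, hm⟩ := hk
  have h6 : (k ^ 2) ^ (m + 1) = k := by
    rw [← pow_mul]
    have e : 2 * (m + 1) = orderOf k + 1 := by omega
    rw [e, pow_succ, pow_orderOf_eq_one, one_mul]
  have h7 : Commute k x := by
    have := h2.pow_left (m + 1)
    rwa [h6] at this
  have h8 : x = x⁻¹ := by
    rw [← h, h7.eq, mul_inv_cancel_right]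
  have h9 : x ^ 2 = 1 := by
    rw [pow_two]
    nth_rewrite 1 [h8]
    exact inv_mul_cancel x
  have h10 : orderOf x ∣ 2 := orderOf_dvd_of_pow_eq_one h9
  have h11 : orderOf x ∣ Nat.card G := orderOf_dvd_natCard x
  have h12 : Nat.Coprime 2 (Nat.card G) := (Nat.coprime_two_left).2 hodd
  have h13 : orderOf x ∣ 1 := by
    rw [← h12]
    exact Nat.dvd_gcd h10 h11
  exact orderOf_eq_one_iff.1 (Nat.dvd_one.1 h13)

private theorem realOdd_cf {χ : G → ℂ} (h : χ ∈ irrChars G) (g x : G) :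
    χ (g * x * g⁻¹) = χ x := by
  obtain ⟨V, _, _, _, ρ, hρ, rfl⟩ := h
  rw [Representation.char_conj]

open Classical in
private theorem realOdd_key (hodd : Odd (Nat.card G)) (S : Finset (G → ℂ))
    (hS : ∀ χ, χ ∈ S ↔ χ ∈ irrChars G) (z : G) :
    ∑ χ ∈ S, χ z⁻¹ * χ z⁻¹ = if z = 1 then (Nat.card G : ℂ) else 0 := by
  have hG : (Nat.card G : ℂ) ≠ 0 := Nat.cast_ne_zero.2 Nat.card_pos.ne'
  let f : G → ℂ := fun x => if IsConj z x then 1 else 0
  have hf : ∀ g x, f (g * x * g⁻¹) = f x := by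
    intro g x
    have : IsConj z (g * x * g⁻¹) ↔ IsConj z x := by
      have h1 : IsConj x (g * x * g⁻¹) := isConj_iff.2 ⟨g, rfl⟩
      exact ⟨fun h => h.trans h1.symm, fun h => h.trans h1⟩
    simp only [f, this]
  obtain ⟨S', hS', hexp, -⟩ := exists_expand hf
  have hSS : S' = S := by
    ext χ
    rw [hS', hS]
  subst hSS
  have hip : ∀ χ ∈ S', ipF f χ = (Nat.card G : ℂ)⁻¹ *
      ((univ.filter fun x : G => IsConj z x).card * χ z⁻¹) := by
    intro χ hχ
    rw [ipF_eq, ip]
    congr 1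
    have h1 : ∀ x : G, f x * χ x⁻¹ = if IsConj z x then χ z⁻¹ else 0 := by
      intro x
      by_cases hx : IsConj z x
      · obtain ⟨c, hc⟩ := isConj_iff.1 hx
        have h2 : χ x⁻¹ = χ z⁻¹ := by
          rw [← realOdd_cf ((hS χ).1 hχ) c z⁻¹, ← hc]
          congr 1
          group
        simp only [f, hx, if_true, one_mul, h2]
      · simp only [f, hx, if_false, zero_mul]
    rw [Finset.sum_congr rfl fun x _ => h1 x, ← Finset.sum_filter, Finset.sum_const, nsmul_eq_mul]
  have h3 := hexp z⁻¹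
  rw [Finset.sum_congr rfl fun χ hχ => by rw [hip χ hχ]] at h3
  have h4 : ∑ χ ∈ S', (Nat.card G : ℂ)⁻¹ *
      ((univ.filter fun x : G => IsConj z x).card * χ z⁻¹) * χ z⁻¹ =
      (Nat.card G : ℂ)⁻¹ * (univ.filter fun x : G => IsConj z x).card *
        ∑ χ ∈ S', χ z⁻¹ * χ z⁻¹ := by
    rw [Finset.mul_sum]
    refine Finset.sum_congr rfl fun χ _ => ?_
    ring
  rw [h4] at h3
  have hc0 : (univ.filter fun x : G => IsConj z x).card ≠ 0 := by
    have : 0 < (univ.filter fun x : G => IsConj z x).card :=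
      Finset.card_pos.2 ⟨z, Finset.mem_filter.2 ⟨Finset.mem_univ _, IsConj.refl z⟩⟩
    exact this.ne'
  by_cases hz : z = 1
  · subst hz
    have hcard : (univ.filter fun x : G => IsConj 1 x).card = 1 := by
      have : (univ.filter fun x : G => IsConj 1 x) = {1} := by
        ext x
        simp only [Finset.mem_filter, Finset.mem_univ, true_and, Finset.mem_singleton]
        constructor
        · intro h
          exact isConj_one_right.1 h
        · rintro rfl
          exact IsConj.refl _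
      rw [this, Finset.card_singleton]
    have hf1 : f (1 : G)⁻¹ = 1 := by
      simp [f]
    rw [hf1, hcard, Nat.cast_one, mul_one] at h3
    rw [if_pos rfl]
    have h5 := congrArg (fun y => (Nat.card G : ℂ) * y) h3
    simp only [mul_one] at h5
    rw [← mul_assoc, mul_inv_cancel₀ hG, one_mul] at h5
    exact h5.symm
  · have hf0 : f z⁻¹ = 0 := by
      have : ¬ IsConj z z⁻¹ := by
        intro h
        obtain ⟨c, hc⟩ := isConj_iff.1 h
        exact hz (conj_inv_odd hodd hc)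
      simp only [f, this, if_false]
    rw [hf0] at h3
    rw [if_neg hz]
    have h5 : (Nat.card G : ℂ)⁻¹ * ((univ.filter fun x : G => IsConj z x).card : ℂ) ≠ 0 :=
      mul_ne_zero (inv_ne_zero hG) (Nat.cast_ne_zero.2 hc0)
    rcases mul_eq_zero.1 h3.symm with h6 | h6
    · exact absurd h6 h5
    · exact h6

theorem real_irr (hodd : Odd (Nat.card G)) {χ : G → ℂ} (h : χ ∈ irrChars G)
    (hr : (fun g => starRingEnd ℂ (χ g)) = χ) : χ = fun _ => 1 := by
  classical
  have hG : (Nat.card G : ℂ) ≠ 0 := Nat.cast_ne_zero.2 Nat.card_pos.ne'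
  let S : Finset (G → ℂ) := (irrChars_finite (G := G)).toFinset
  have hS : ∀ χ, χ ∈ S ↔ χ ∈ irrChars G := fun χ => by simp [S]
  -- the value of one summand
  have h1 : ∀ ψ ∈ S, (Nat.card G : ℂ)⁻¹ * ∑ z : G, ψ z⁻¹ * ψ z⁻¹ =
      if (fun g => starRingEnd ℂ (ψ g)) = ψ then 1 else 0 := by
    intro ψ hψ
    have hψ' := (hS ψ).1 hψ
    have e1 : ∑ z : G, ψ z⁻¹ * ψ z⁻¹ = ∑ z : G, ψ z * ψ z :=
      Fintype.sum_equiv (Equiv.inv G) _ _ fun z => rfl
    have e2 : (Nat.card G : ℂ)⁻¹ * ∑ z : G, ψ z * ψ z = hp ψ (fun g => starRingEnd ℂ (ψ g)) := by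
      rw [hp]
      congr 1
      refine Finset.sum_congr rfl fun z _ => ?_
      rw [Complex.conj_conj]
    rw [e1, e2, hp_irr ψ (conj_irr hψ'), ipF_eq]
    have h2 := ip_irr hψ' (conj_irr hψ')
    split_ifs with h3
    · exact h2.1 h3.symm
    · exact h2.2 (fun h4 => h3 h4.symm)
  have h2 : ∑ ψ ∈ S, (Nat.card G : ℂ)⁻¹ * ∑ z : G, ψ z⁻¹ * ψ z⁻¹ = 1 := by
    rw [← Finset.mul_sum, Finset.sum_comm, Finset.sum_congr rfl fun z _ => realOdd_key hodd S hS z,
      Finset.sum_ite_eq' univ (1 : G) (fun _ => (Nat.card G : ℂ)), if_pos (Finset.mem_univ _)]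
    exact inv_mul_cancel₀ hG
  rw [Finset.sum_congr rfl h1, ← Finset.sum_filter, Finset.sum_const, nsmul_eq_mul, mul_one] at h2
  have h3 : (S.filter fun ψ => (fun g => starRingEnd ℂ (ψ g)) = ψ).card = 1 := by
    exact_mod_cast h2
  obtain ⟨a, ha⟩ := Finset.card_eq_one.1 h3
  have h4 : χ ∈ S.filter fun ψ => (fun g => starRingEnd ℂ (ψ g)) = ψ :=
    Finset.mem_filter.2 ⟨(hS χ).2 h, hr⟩
  have h5 : (fun _ : G => (1 : ℂ)) ∈ S.filter fun ψ => (fun g => starRingEnd ℂ (ψ g)) = ψ :=
    Finset.mem_filter.2 ⟨(hS _).2 one_irr, by simp⟩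
  rw [ha, Finset.mem_singleton] at h4 h5
  rw [h4, h5]

end Pool.Agent.H87.EG
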