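import Pool.Agent.H87.EG.TauA

/-!
MODULE TauB (about 120 lines). The lift is an isometry.

Main identity: for L i - invariant a supported on H i, a 1 = 0, and θ, b with θ g = b x whenever
att i x g (b also L i - invariant):
  ∑_g tau a g * conj (θ g) = (|G| / |L i|) ∑_x a x * conj (b x).
Proof: for a fixed g with att i x g the set {x' | att i x' g} is {l x l⁻¹ | l ∈ L i} (att_inv,
att_fus) and has |L i| / |C x| elements, C x = {l ∈ L i | l x l⁻¹ = x} (orbit and stabilizer: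
all fibres of l ↦ l x l⁻¹ on L i have |C x| elements; |C x'| = |C x|), and
|{g | att i x g}| * |C x| = |G| (att_cnt). Hence
∑_g tau a g * conj (θ g) = ∑_g ∑_{x | att i x g} a x * conj (b x) * |C x| / |L i|
= ∑_{x ∈ H i, x ≠ 1} a x * conj (b x) * (|C x| / |L i|) * |{g | att i x g}|
= ∑_x a x * conj (b x) * |G| / |L i|.
tau_hp: θ = tau s i b; tau_hp_one: θ = 1, b = 1; tau_hp_ne: the supports of tau s i a and
tau s k b are disjoint (att_fus).
-/

open Finset

namespace Pool.Agent.H87.EG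

open Pool.Agent.H7.Artin Pool.Agent.H72.Sol Pool.Agent.H31.Thr

variable {G : Type} [Group G] [Fintype G] {ι : Type} (s : Sys G ι)

private theorem fib {i : ι} {x x0 g : G} (h : s.att i x g) (h0 : s.att i x0 g) :
    Nat.card {l : G // l ∈ s.L i ∧ l * x * l⁻¹ = x} =
      Nat.card {l : G // l ∈ s.L i ∧ l * x0 * l⁻¹ = x} := by
  obtain ⟨-, m, hm, hmx⟩ := s.att_fus i i x0 x g h0 h
  refine Nat.card_congr ⟨fun l => ⟨l.1 * m, mul_mem l.2.1 hm, ?_⟩,
    fun l => ⟨l.1 * m⁻¹, mul_mem l.2.1 (inv_mem hm), ?_⟩, ?_, ?_⟩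
  · have h2 := l.2.2
    calc l.1 * m * x0 * (l.1 * m)⁻¹ = l.1 * (m * x0 * m⁻¹) * l.1⁻¹ := by group
      _ = x := by rw [hmx, h2]
  · have h2 := l.2.2
    calc l.1 * m⁻¹ * x * (l.1 * m⁻¹)⁻¹ = l.1 * (m⁻¹ * x * m) * l.1⁻¹ := by group
      _ = l.1 * x0 * l.1⁻¹ := by
        have h3 : m⁻¹ * x * m = x0 := by
          calc m⁻¹ * x * m = m⁻¹ * (m * x0 * m⁻¹) * m := by rw [hmx]
            _ = x0 := by group
        rw [h3]
      _ = x := h2
  · intro l; simp
  · intro l; simp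

open Classical in
private theorem cnt {i : ι} {x0 g : G} (h0 : s.att i x0 g) :
    ∑ x : G, (if s.att i x g then (Nat.card {l : G // l ∈ s.L i ∧ l * x * l⁻¹ = x} : ℂ) else 0)
      = (Nat.card (s.L i) : ℂ) := by
  have e1 : ∀ x : G, (if s.att i x g then
      (Nat.card {l : G // l ∈ s.L i ∧ l * x * l⁻¹ = x} : ℂ) else 0)
      = ∑ l : G, if (l ∈ s.L i ∧ l * x0 * l⁻¹ = x) then (1 : ℂ) else 0 := by
    intro x
    by_cases hx : s.att i x g
    · rw [if_pos hx, fib s hx h0, Nat.card_eq_fintype_card, Fintype.card_subtype, Finset.sum_boole]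
    · rw [if_neg hx]
      symm
      apply Finset.sum_eq_zero
      intro l _
      rw [if_neg]
      rintro ⟨h1, h2⟩
      exact hx (h2 ▸ s.att_inv i x0 g l h1 h0)
  rw [Finset.sum_congr rfl (fun x _ => e1 x), Finset.sum_comm]
  have e2 : ∀ l : G, (∑ x : G, if (l ∈ s.L i ∧ l * x0 * l⁻¹ = x) then (1 : ℂ) else 0)
      = if l ∈ s.L i then 1 else 0 := by
    intro l
    by_cases hl : l ∈ s.L i
    · simp [hl]
    · simp [hl]
  rw [Finset.sum_congr rfl (fun l _ => e2 l), Finset.sum_boole, Nat.card_eq_fintype_card,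
    Fintype.card_subtype]

open Classical in
private theorem main {i : ι} {a b θ : G → ℂ} (ha : ∀ l ∈ s.L i, ∀ x, a (l * x * l⁻¹) = a x)
    (hs : ∀ x, x ∉ s.H i → a x = 0) (h1 : a 1 = 0)
    (hb : ∀ l ∈ s.L i, ∀ x, b (l * x * l⁻¹) = b x) (hθ : ∀ x g, s.att i x g → θ g = b x) :
    (Nat.card (s.L i) : ℂ) * ∑ g : G, tau s i a g * starRingEnd ℂ (θ g)
      = (Nat.card G : ℂ) * ∑ x : G, a x * starRingEnd ℂ (b x) := by
  rw [Finset.mul_sum, Finset.mul_sum]
  have e1 : ∀ g : G, (Nat.card (s.L i) : ℂ) * (tau s i a g * starRingEnd ℂ (θ g)) =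
      ∑ x : G, if s.att i x g then
        (Nat.card {l : G // l ∈ s.L i ∧ l * x * l⁻¹ = x} : ℂ) * (a x * starRingEnd ℂ (b x))
        else 0 := by
    intro g
    by_cases hg : ∃ x0, s.att i x0 g
    · obtain ⟨x0, h0⟩ := hg
      have e3 : ∀ x : G, (if s.att i x g then
        (Nat.card {l : G // l ∈ s.L i ∧ l * x * l⁻¹ = x} : ℂ) * (a x * starRingEnd ℂ (b x))
        else 0) = (if s.att i x g then
        (Nat.card {l : G // l ∈ s.L i ∧ l * x * l⁻¹ = x} : ℂ) else 0) *
          (a x0 * starRingEnd ℂ (b x0)) := by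
        intro x
        by_cases hx : s.att i x g
        · obtain ⟨-, m, hm, hmx⟩ := s.att_fus i i x0 x g h0 hx
          rw [if_pos hx, if_pos hx, ← ha m hm x0, ← hb m hm x0, hmx]
        · rw [if_neg hx, if_neg hx, zero_mul]
      rw [Finset.sum_congr rfl (fun x _ => e3 x), ← Finset.sum_mul, cnt s h0,
        tau_of_att s ha h0, hθ x0 g h0]
    · push Not at hg
      rw [tau_of_not s a hg]
      symm
      rw [zero_mul, mul_zero]
      apply Finset.sum_eq_zero
      intro x _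
      rw [if_neg (hg x)]
  rw [Finset.sum_congr rfl (fun g _ => e1 g), Finset.sum_comm]
  apply Finset.sum_congr rfl
  intro x _
  by_cases hx : x ∈ s.H i ∧ x ≠ 1
  · have hc := s.att_cnt i x hx.1 hx.2
    rw [← Finset.sum_filter, Finset.sum_const, nsmul_eq_mul, ← mul_assoc, ← hc,
      Nat.card_eq_fintype_card (α := {g : G // s.att i x g}), Fintype.card_subtype]
    push_cast
    rfl
  · have hz : a x = 0 := by
      by_cases h2 : x ∈ s.H i
      · have : x = 1 := by
          by_contra h3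
          exact hx ⟨h2, h3⟩
        rw [this, h1]
      · exact hs x h2
    rw [hz]
    simp

theorem tau_hp {i : ι} {a b : G → ℂ} (ha : ∀ l ∈ s.L i, ∀ x, a (l * x * l⁻¹) = a x)
    (hs : ∀ x, x ∉ s.H i → a x = 0) (h1 : a 1 = 0)
    (hb : ∀ l ∈ s.L i, ∀ x, b (l * x * l⁻¹) = b x) :
    hp (tau s i a) (tau s i b) = (Nat.card (s.L i) : ℂ)⁻¹ * ∑ x : G, a x * starRingEnd ℂ (b x) := by
  have h := main s (θ := tau s i b) ha hs h1 hb (fun x g hx => tau_of_att s hb hx)
  have hG : (Nat.card G : ℂ) ≠ 0 := by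
    exact_mod_cast Nat.card_pos.ne'
  have hL : (Nat.card (s.L i) : ℂ) ≠ 0 := by
    exact_mod_cast Nat.card_pos.ne'
  rw [hp]
  field_simp
  rw [mul_comm, h]

theorem tau_hp_one {i : ι} {a : G → ℂ} (ha : ∀ l ∈ s.L i, ∀ x, a (l * x * l⁻¹) = a x)
    (hs : ∀ x, x ∉ s.H i → a x = 0) (h1 : a 1 = 0) :
    hp (tau s i a) (fun _ => 1) = (Nat.card (s.L i) : ℂ)⁻¹ * ∑ x : G, a x := by
  have h := main s (θ := fun _ => 1) (b := fun _ => 1) ha hs h1 (fun _ _ _ => rfl)
    (fun x g hx => rfl)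
  have hG : (Nat.card G : ℂ) ≠ 0 := by
    exact_mod_cast Nat.card_pos.ne'
  have hL : (Nat.card (s.L i) : ℂ) ≠ 0 := by
    exact_mod_cast Nat.card_pos.ne'
  simp only [map_one, mul_one] at h
  rw [hp]
  simp only [map_one, mul_one]
  field_simp
  rw [mul_comm, h]

theorem tau_hp_ne {i k : ι} (hik : i ≠ k) (a b : G → ℂ) : hp (tau s i a) (tau s k b) = 0 := by
  rw [hp]
  have : ∑ g : G, tau s i a g * starRingEnd ℂ (tau s k b g) = 0 := by
    apply Finset.sum_eq_zero
    intro g _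
    by_cases h1 : ∃ x, s.att i x g
    · by_cases h2 : ∃ x, s.att k x g
      · obtain ⟨x, hx⟩ := h1
        obtain ⟨y, hy⟩ := h2
        exact absurd (s.att_fus i k x y g hx hy).1 hik
      · push Not at h2
        rw [tau_of_not s b h2, map_zero, mul_zero]
    · push Not at h1
      rw [tau_of_not s a h1, zero_mul]
  rw [this, mul_zero]

end Pool.Agent.H87.EG
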