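import Pool.Agent.H87.EG.LatMain
import Pool.Agent.H87.EG.Num
import Pool.Agent.H87.EG.RealOdd
import Pool.Agent.H87.EG.CoefB
import Pool.Agent.H87.EG.TauB
import Pool.Agent.H87.EG.PsiV
import Pool.Agent.H87.EG.OrbD

/-!
MODULE Main. The endgame: assembly.
-/

open Finset

namespace Pool.Agent.H87.EG

open Pool.Agent.H7.Artin Pool.Agent.H72.Sol Pool.Agent.H31.Thr

section local_part

variable {G : Type} [Group G] [Fintype G] {L H : Subgroup G}

/-- the regular induced characters -/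
abbrev Psi (L H : Subgroup G) : Type :=
  {ψ : G → ℂ // ∃ lam : H →* ℂˣ, Reg L H lam ∧ ψ = ps L H lam}

/-- the induced trivial character minus a regular induced character -/
noncomputable def al (L H : Subgroup G) (ψ : G → ℂ) (x : G) : ℂ := ps L H 1 x - ψ x

theorem al_inv (ψ : Psi L H) {l : G} (hl : l ∈ L) (x : G) :
    al L H ψ.1 (l * x * l⁻¹) = al L H ψ.1 x := by
  obtain ⟨ψ, lam, hr, rfl⟩ := ψ
  change ps L H 1 (l * x * l⁻¹) - ps L H lam (l * x * l⁻¹) = ps L H 1 x - ps L H lam x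
  rw [ps_inv _ hl, ps_inv _ hl]

theorem al_supp (hnm : ∀ l ∈ L, ∀ x ∈ H, l * x * l⁻¹ ∈ H) (ψ : Psi L H) {x : G} (hx : x ∉ H) :
    al L H ψ.1 x = 0 := by
  obtain ⟨ψ, lam, hr, rfl⟩ := ψ
  change ps L H 1 x - ps L H lam x = 0
  rw [ps_supp hnm _ hx, ps_supp hnm _ hx, sub_zero]

theorem al_one (ψ : Psi L H) : al L H ψ.1 1 = 0 := by
  obtain ⟨ψ, lam, hr, rfl⟩ := ψ
  change ps L H 1 1 - ps L H lam 1 = 0
  rw [ps_one, ps_one, sub_self]

theorem al_vir (hle : H ≤ L) (hnm : ∀ l ∈ L, ∀ x ∈ H, l * x * l⁻¹ ∈ H) (ψ : Psi L H) :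
    Vir (fun l : L => al L H ψ.1 l) := by
  obtain ⟨ψ, lam, hr, rfl⟩ := ψ
  exact (ps_vir hle hnm 1).sub (ps_vir hle hnm lam)

/-- the complex conjugate of a regular induced character -/
noncomputable def cj (ψ : Psi L H) : Psi L H :=
  ⟨fun x => starRingEnd ℂ (ψ.1 x), by
    obtain ⟨ψ, lam, hr, rfl⟩ := ψ
    exact ⟨lam⁻¹, reg_inv hr, funext fun x => ps_conj lam x⟩⟩

theorem cj_cj (ψ : Psi L H) : cj (cj ψ) = ψ := by
  apply Subtype.ext
  funext x
  change starRingEnd ℂ (starRingEnd ℂ (ψ.1 x)) = ψ.1 x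
  simp

theorem ne_one_of_reg (hne : H ≠ L) (hle : H ≤ L) (hnm : ∀ l ∈ L, ∀ x ∈ H, l * x * l⁻¹ ∈ H)
    {lam : H →* ℂˣ} (hr : Reg L H lam) : lam ≠ 1 := by
  rintro rfl
  exact reg_ne_one hne hle hnm hr rfl

theorem cj_ne (hodd : Odd (Nat.card L)) (hne : H ≠ L) (hle : H ≤ L)
    (hnm : ∀ l ∈ L, ∀ x ∈ H, l * x * l⁻¹ ∈ H) (ψ : Psi L H) : cj ψ ≠ ψ := by
  obtain ⟨ψ, lam, hr, rfl⟩ := ψ
  intro h
  have h1 : (fun x => starRingEnd ℂ (ps L H lam x)) = ps L H lam := congrArg Subtype.val h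
  have h2 : ps L H lam⁻¹ = ps L H lam := by
    rw [← h1]
    funext x
    rw [← ps_conj]
  exact ps_inv_ne hodd hle hnm (ne_one_of_reg hne hle hnm hr) h2

theorem al_cj (ψ : Psi L H) (x : G) :
    al L H (cj ψ).1 x = starRingEnd ℂ (al L H ψ.1 x) := by
  unfold al
  rw [map_sub, ps_conj]
  have h : (1 : H →* ℂˣ)⁻¹ = 1 := by
    ext x
    simp
  rw [h]
  rfl

/-- the inner product of two functions al -/
theorem al_ip (hle : H ≤ L) (hnm : ∀ l ∈ L, ∀ x ∈ H, l * x * l⁻¹ ∈ H) (hne : H ≠ L)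
    (ψ ψ' : Psi L H) :
    ∑ x : G, al L H ψ.1 x * starRingEnd ℂ (al L H ψ'.1 x)
      = (Nat.card L : ℂ) ^ 2 / Nat.card H + ∑ x : G, ψ.1 x * starRingEnd ℂ (ψ'.1 x) := by
  obtain ⟨ψ, lam, hr, rfl⟩ := ψ
  obtain ⟨ψ', mu, hr', rfl⟩ := ψ'
  change ∑ x : G, (ps L H 1 x - ps L H lam x) * starRingEnd ℂ (ps L H 1 x - ps L H mu x)
    = (Nat.card L : ℂ) ^ 2 / Nat.card H
      + ∑ x : G, ps L H lam x * starRingEnd ℂ (ps L H mu x)
  have h1 : ∀ x, (ps L H 1 x - ps L H lam x) * starRingEnd ℂ (ps L H 1 x - ps L H mu x)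
      = ps L H 1 x * starRingEnd ℂ (ps L H 1 x) - ps L H 1 x * starRingEnd ℂ (ps L H mu x)
        - ps L H lam x * starRingEnd ℂ (ps L H 1 x)
        + ps L H lam x * starRingEnd ℂ (ps L H mu x) := by
    intro x
    rw [map_sub]
    ring
  simp_rw [h1]
  rw [Finset.sum_add_distrib, Finset.sum_sub_distrib, Finset.sum_sub_distrib, one_ip hnm,
    ne_ip hnm (reg_ne_one hne hle hnm hr').symm, ne_ip hnm (reg_ne_one hne hle hnm hr)]
  ring

theorem ps_one_of_mem (hnm : ∀ l ∈ L, ∀ x ∈ H, l * x * l⁻¹ ∈ H) {x : G} (hx : x ∈ H) :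
    ps L H 1 x = (Nat.card L : ℂ) / Nat.card H := by
  classical
  rw [← ps_one (L := L) (H := H) 1]
  unfold ps
  congr 1
  refine Finset.sum_congr rfl fun l _ => ?_
  by_cases hl : l ∈ L
  · rw [if_pos hl, if_pos hl]
    have h1 : l⁻¹ * x * l ∈ H := by
      have := hnm l⁻¹ (L.inv_mem hl) x hx
      rwa [inv_inv] at this
    have h2 : l⁻¹ * 1 * l ∈ H := by
      rw [mul_one, inv_mul_cancel]
      exact H.one_mem
    unfold ex
    rw [dif_pos h1, dif_pos h2]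
    rfl
  · rw [if_neg hl, if_neg hl]

theorem al_sum (hle : H ≤ L) (hnm : ∀ l ∈ L, ∀ x ∈ H, l * x * l⁻¹ ∈ H) (hne : H ≠ L)
    (ψ : Psi L H) : ∑ x : G, al L H ψ.1 x = Nat.card L := by
  have hH : (Nat.card H : ℂ) ≠ 0 := by exact_mod_cast Nat.card_pos.ne'
  have hL : (Nat.card L : ℂ) ≠ 0 := by exact_mod_cast Nat.card_pos.ne'
  have h1 : ∀ x, al L H ψ.1 x = (Nat.card H : ℂ) / Nat.card L *
      (ps L H 1 x * starRingEnd ℂ (ps L H 1 x) - ψ.1 x * starRingEnd ℂ (ps L H 1 x)) := by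
    intro x
    by_cases hx : x ∈ H
    · rw [← sub_mul]
      have h2 : starRingEnd ℂ (ps L H 1 x) = (Nat.card L : ℂ) / Nat.card H := by
        rw [ps_one_of_mem hnm hx, map_div₀, Complex.conj_natCast, Complex.conj_natCast]
      rw [h2]
      unfold al
      field_simp
    · rw [al_supp hnm ψ hx]
      obtain ⟨ψ, lam, hr, rfl⟩ := ψ
      change 0 = (Nat.card H : ℂ) / Nat.card L *
        (ps L H 1 x * starRingEnd ℂ (ps L H 1 x) - ps L H lam x * starRingEnd ℂ (ps L H 1 x))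
      rw [ps_supp hnm _ hx, ps_supp hnm _ hx]
      simp
  simp_rw [h1]
  rw [← Finset.mul_sum, Finset.sum_sub_distrib, one_ip hnm]
  have h3 : ∑ x : G, ψ.1 x * starRingEnd ℂ (ps L H 1 x) = 0 := by
    obtain ⟨ψ, lam, hr, rfl⟩ := ψ
    exact ne_ip hnm (reg_ne_one hne hle hnm hr)
  rw [h3, sub_zero]
  field_simp

theorem ip_self (hle : H ≤ L) (hnm : ∀ l ∈ L, ∀ x ∈ H, l * x * l⁻¹ ∈ H) (ψ : Psi L H) :
    ∑ x : G, ψ.1 x * starRingEnd ℂ (ψ.1 x) = Nat.card L := by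
  obtain ⟨ψ, lam, hr, rfl⟩ := ψ
  exact reg_ip hle hnm hr

theorem ip_ne (hnm : ∀ l ∈ L, ∀ x ∈ H, l * x * l⁻¹ ∈ H) {ψ ψ' : Psi L H} (h : ψ ≠ ψ') :
    ∑ x : G, ψ.1 x * starRingEnd ℂ (ψ'.1 x) = 0 := by
  have h1 : ψ.1 ≠ ψ'.1 := fun h' => h (Subtype.ext h')
  obtain ⟨ψ, lam, hr, rfl⟩ := ψ
  obtain ⟨ψ', mu, hr', rfl⟩ := ψ'
  exact ne_ip hnm h1

end local_part

section global_part

variable {G : Type} [Group G] [Fintype G] {ι : Type} (s : Sys G ι)

/-- all regular induced characters -/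
abbrev Phi : Type := Σ i : ι, Psi (s.L i) (s.H i)

/-- the lifted difference -/
noncomputable def lf (a : Phi s) : G → ℂ := tau s a.1 (al (s.L a.1) (s.H a.1) a.2.1)

theorem lf_cls (a : Phi s) (k g : G) : lf s a (k * g * k⁻¹) = lf s a g :=
  tau_cls s (fun _ hl x => al_inv a.2 hl x) k g

theorem lf_vir (a : Phi s) : Vir (lf s a) :=
  tau_vir s (fun _ hl x => al_inv a.2 hl x) (fun _ hx => al_supp (s.hnm a.1) a.2 hx)
    (al_one a.2) (al_vir (s.hle a.1) (s.hnm a.1) a.2)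

/-- the index -/
noncomputable def ee (i : ι) : ℕ := Nat.card (s.L i) / Nat.card (s.H i)

theorem ee_mul (i : ι) : ee s i * Nat.card (s.H i) = Nat.card (s.L i) :=
  Nat.div_mul_cancel (Subgroup.card_dvd_of_le (s.hle i))

theorem ee_div (i : ι) : (Nat.card (s.L i) : ℂ) / Nat.card (s.H i) = ee s i := by
  have hH : (Nat.card (s.H i) : ℂ) ≠ 0 := by exact_mod_cast Nat.card_pos.ne'
  rw [div_eq_iff hH]
  exact_mod_cast (ee_mul s i).symm

theorem lf_hp (hne : ∀ i, s.H i ≠ s.L i) {i : ι} (ψ ψ' : Psi (s.L i) (s.H i)) :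
    hp (lf s ⟨i, ψ⟩) (lf s ⟨i, ψ'⟩)
      = ee s i + (Nat.card (s.L i) : ℂ)⁻¹ * ∑ x : G, ψ.1 x * starRingEnd ℂ (ψ'.1 x) := by
  have hL : (Nat.card (s.L i) : ℂ) ≠ 0 := by exact_mod_cast Nat.card_pos.ne'
  have h1 : hp (lf s ⟨i, ψ⟩) (lf s ⟨i, ψ'⟩) = (Nat.card (s.L i) : ℂ)⁻¹ *
      ∑ x : G, al (s.L i) (s.H i) ψ.1 x * starRingEnd ℂ (al (s.L i) (s.H i) ψ'.1 x) :=
    tau_hp s (fun _ hl x => al_inv ψ hl x) (fun _ hx => al_supp (s.hnm i) ψ hx)
      (al_one ψ) (fun _ hl x => al_inv ψ' hl x)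
  rw [h1, al_ip (s.hle i) (s.hnm i) (hne i), mul_add, ← ee_div]
  congr 1
  field_simp

theorem lf_self (hne : ∀ i, s.H i ≠ s.L i) (a : Phi s) :
    hp (lf s a) (lf s a) = ee s a.1 + 1 := by
  obtain ⟨i, ψ⟩ := a
  have hL : (Nat.card (s.L i) : ℂ) ≠ 0 := by exact_mod_cast Nat.card_pos.ne'
  rw [lf_hp s hne, ip_self (s.hle i) (s.hnm i), inv_mul_cancel₀ hL]

theorem lf_same (hne : ∀ i, s.H i ≠ s.L i) (a b : Phi s) (hab : a ≠ b) (h : a.1 = b.1) :
    hp (lf s a) (lf s b) = ee s a.1 := by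
  obtain ⟨i, ψ⟩ := a
  obtain ⟨k, ψ'⟩ := b
  obtain rfl : i = k := h
  have h1 : ψ ≠ ψ' := by
    rintro rfl
    exact hab rfl
  rw [lf_hp s hne, ip_ne (s.hnm i) h1, mul_zero, add_zero]

theorem lf_diff (a b : Phi s) (h : a.1 ≠ b.1) : hp (lf s a) (lf s b) = 0 :=
  tau_hp_ne s h _ _

theorem lf_hp_one (hne : ∀ i, s.H i ≠ s.L i) (a : Phi s) : hp (lf s a) (fun _ => 1) = 1 := by
  obtain ⟨i, ψ⟩ := a
  have hL : (Nat.card (s.L i) : ℂ) ≠ 0 := by exact_mod_cast Nat.card_pos.ne'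
  have h1 : hp (lf s ⟨i, ψ⟩) (fun _ => 1) = (Nat.card (s.L i) : ℂ)⁻¹ *
      ∑ x : G, al (s.L i) (s.H i) ψ.1 x :=
    tau_hp_one s (fun _ hl x => al_inv ψ hl x) (fun _ hx => al_supp (s.hnm i) ψ hx) (al_one ψ)
  rw [h1, al_sum (s.hle i) (s.hnm i) (hne i), inv_mul_cancel₀ hL]

/-- conjugation on the regular induced characters -/
noncomputable def bb (a : Phi s) : Phi s := ⟨a.1, cj a.2⟩

theorem lf_bb (a : Phi s) : lf s (bb s a) = fun g => starRingEnd ℂ (lf s a g) := by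
  funext g
  change tau s a.1 (al (s.L a.1) (s.H a.1) (cj a.2).1) g
    = starRingEnd ℂ (tau s a.1 (al (s.L a.1) (s.H a.1) a.2.1) g)
  rw [tau_conj]
  congr 1
  funext x
  exact al_cj a.2 x

/-- complex conjugation on the irreducible characters -/
noncomputable def cI (χ : irrChars G) : irrChars G := ⟨_, conj_irr χ.2⟩

/-- the lattice -/
noncomputable def lat [Fintype (irrChars G)] (hodd : Odd (Nat.card G))
    (hne : ∀ i, s.H i ≠ s.L i) : Lat (irrChars G) (Phi s) ι where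
  c := cI
  o := ⟨_, one_irr⟩
  cc χ := Subtype.ext (by
    funext g
    change starRingEnd ℂ (starRingEnd ℂ (χ.1 g)) = χ.1 g
    simp)
  fix χ := by
    constructor
    · intro h
      exact Subtype.ext (real_irr hodd χ.2 (congrArg Subtype.val h))
    · rintro rfl
      apply Subtype.ext
      funext g
      change starRingEnd ℂ (1 : ℂ) = 1
      simp
  cls a := a.1
  bar := bb s
  bar_bar a := by
    obtain ⟨i, ψ⟩ := a
    change (⟨i, cj (cj ψ)⟩ : Phi s) = ⟨i, ψ⟩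
    rw [cj_cj]
  bar_ne a := by
    obtain ⟨i, ψ⟩ := a
    intro h
    have h1 : cj ψ = ψ := by
      have h2 : (⟨i, cj ψ⟩ : Phi s) = ⟨i, ψ⟩ := h
      simpa using h2
    exact cj_ne (hodd.of_dvd_nat (Subgroup.card_subgroup_dvd_card _)) (hne i) (s.hle i) (s.hnm i)
      ψ h1
  cls_bar _ := rfl
  e := ee s
  B a χ := co (lf s a) χ
  B_self a := by
    have h := hp_sum (lf_cls s a) (lf_vir s a) (lf_cls s a) (lf_vir s a)
    rw [lf_self s hne] at h
    exact_mod_cast h.symm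
  B_same a b hab hc := by
    have h := hp_sum (lf_cls s a) (lf_vir s a) (lf_cls s b) (lf_vir s b)
    rw [lf_same s hne a b hab hc] at h
    exact_mod_cast h.symm
  B_diff a b hc := by
    have h := hp_sum (lf_cls s a) (lf_vir s a) (lf_cls s b) (lf_vir s b)
    rw [lf_diff s a b hc] at h
    exact_mod_cast h.symm
  B_bar a χ := by
    rw [lf_bb, co_conj (lf_vir s a)]
    rfl
  B_o a := by
    have h := co_spec (lf_vir s a) ⟨_, one_irr⟩
    rw [lf_hp_one s hne] at h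
    exact_mod_cast h.symm

end global_part

/-- **The endgame.** A finite group of odd order has no system of local subgroups H i ⊴ L i with a
lift, |L i : H i| ≥ 50, regular linear characters of H i, coprime orders |H i| and total measure
at least 19/20. -/
theorem endgame {G : Type} [Group G] [Finite G] (hodd : Odd (Nat.card G)) {ι : Type} [Finite ι]
    (s : Sys G ι) (he : ∀ i, 50 * Nat.card (s.H i) ≤ Nat.card (s.L i))
    (hcop : ∀ i k, i ≠ k → (Nat.card (s.H i)).Coprime (Nat.card (s.H k)))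
    (hreg : ∀ i, ∃ lam : s.H i →* ℂˣ, Reg (s.L i) (s.H i) lam)
    (hfour : ∀ i, (∀ lam : s.H i →* ℂˣ, lam ≠ 1 → Reg (s.L i) (s.H i) lam) ∨
      ∃ lam mu : s.H i →* ℂˣ, Reg (s.L i) (s.H i) lam ∧ Reg (s.L i) (s.H i) mu ∧
        (∀ l ∈ s.L i, ∃ x, ex (s.H i) lam (l⁻¹ * x * l) ≠ ex (s.H i) mu x) ∧
        (∀ l ∈ s.L i, ∃ x, ex (s.H i) lam⁻¹ (l⁻¹ * x * l) ≠ ex (s.H i) mu x))
    (htot : (19 : ℝ) / 20 ≤ ∑ᶠ i, ((Nat.card (s.H i) : ℝ) - 1) / Nat.card (s.L i)) : False := by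
  classical
  let _ : Fintype G := Fintype.ofFinite G
  let _ : Fintype ι := Fintype.ofFinite ι
  have _ : Finite (irrChars G) := (irrChars_finite (G := G)).to_subtype
  let _ : Fintype (irrChars G) := Fintype.ofFinite _
  have hf : ∀ i, Finite (Psi (s.L i) (s.H i)) := fun i => fin_ps _ _
  let _ : ∀ i, Fintype (Psi (s.L i) (s.H i)) := fun i => Fintype.ofFinite _
  have hHp : ∀ i, 0 < Nat.card (s.H i) := fun i => Nat.card_pos
  have hne : ∀ i, s.H i ≠ s.L i := by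
    intro i h
    have h1 := he i
    rw [← h] at h1
    have h2 := hHp i
    omega
  have hoddL : ∀ i, Odd (Nat.card (s.L i)) := fun i =>
    hodd.of_dvd_nat (Subgroup.card_subgroup_dvd_card _)
  have he50 : ∀ i, 50 ≤ ee s i := by
    intro i
    have h1 := he i
    rw [← ee_mul s i] at h1
    exact Nat.le_of_mul_le_mul_right h1 (hHp i)
  have heodd : ∀ i, Odd (ee s i) := by
    intro i
    have h1 := hoddL i
    rw [← ee_mul s i] at h1
    exact (Nat.odd_mul.1 h1).1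
  let D := lat s hodd hne
  have hs : Function.Surjective D.cls := by
    intro i
    obtain ⟨lam, hlam⟩ := hreg i
    exact ⟨⟨i, ⟨_, lam, hlam, rfl⟩⟩, rfl⟩
  obtain ⟨R, hR1, hR2, hR3⟩ := tournament D hs
  let m : ι → ℕ := fun i => Nat.card (Psi (s.L i) (s.H i))
  have hm : ∀ k, (univ.filter fun a : Phi s => D.cls a = k).card = m k := by
    intro k
    change (univ.filter fun a : Phi s => a.1 = k).card = Nat.card (Psi (s.L k) (s.H k))
    rw [Nat.card_eq_fintype_card, ← Finset.card_univ]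
    symm
    refine Finset.card_bij (fun ψ _ => (⟨k, ψ⟩ : Phi s)) ?_ ?_ ?_
    · intro ψ _
      simp
    · intro ψ _ ψ' _ h
      simpa using h
    · rintro ⟨i, ψ⟩ h
      obtain rfl : i = k := by simpa using h
      exact ⟨ψ, Finset.mem_univ _, rfl⟩
  have hcases : ∀ i, 4 ≤ m i ∨ (m i = 2 ∧
      (Nat.card (s.H i →* ℂˣ) - 1) * Nat.card (s.H i) = 2 * Nat.card (s.L i)) := by
    intro i
    refine card_cases (hoddL i) (hne i) (s.hle i) (s.hnm i) (hreg i) ?_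
    rcases hfour i with h | ⟨lam, mu, h1, h2, h3, h4⟩
    · exact Or.inl h
    · refine Or.inr ⟨lam, mu, h1, h2, ?_, ?_⟩
      · intro h
        obtain ⟨l, hl, h5⟩ := (ps_eq_iff (s.hnm i) mu lam).1 h
        obtain ⟨x, hx⟩ := h3 l hl
        exact hx (h5 x)
      · intro h
        obtain ⟨l, hl, h5⟩ := (ps_eq_iff (s.hnm i) mu lam⁻¹).1 h
        obtain ⟨x, hx⟩ := h4 l hl
        exact hx (h5 x)
  have hm2 : ∀ i, m i = 2 → Nat.card (s.H i →* ℂˣ) = 2 * ee s i + 1 := by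
    intro i hi
    rcases hcases i with h | ⟨_, h⟩
    · omega
    · rw [← ee_mul s i, ← mul_assoc] at h
      have h1 := Nat.eq_of_mul_eq_mul_right (hHp i) h
      have h2 := he50 i
      omega
  have hlt := num (ee s) m R he50 heodd (fun i => by
      rcases hcases i with h | ⟨h, _⟩
      · exact Or.inr h
      · exact Or.inl h)
    (by
      intro i k hi hk hik
      by_contra hne'
      have h1 := hm2 i hi
      have h2 := hm2 k hk
      have h3 : Nat.card (s.H i →* ℂˣ) ∣ Nat.card (s.H i) := card_dvd _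
      have h4 : Nat.card (s.H k →* ℂˣ) ∣ Nat.card (s.H k) := card_dvd _
      rw [h1] at h3
      rw [h2, ← hik] at h4
      have h5 := Nat.dvd_gcd h3 h4
      rw [(hcop i k hne').gcd_eq_one] at h5
      have h6 := he50 i
      have h7 := Nat.le_of_dvd one_pos h5
      omega)
    hR1 (by
      intro i
      have h := hR2 i
      simp_rw [hm] at h
      exact h) hR3
  rw [finsum_eq_sum_of_fintype] at htot
  have hle : ∑ i, ((Nat.card (s.H i) : ℝ) - 1) / Nat.card (s.L i) ≤ ∑ i, (1 : ℝ) / ee s i := by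
    refine Finset.sum_le_sum fun i _ => ?_
    have h1 : (Nat.card (s.L i) : ℝ) = ee s i * Nat.card (s.H i) := by
      exact_mod_cast (ee_mul s i).symm
    have h2 : (0 : ℝ) < Nat.card (s.H i) := by exact_mod_cast hHp i
    have h3 : (0 : ℝ) < ee s i := by
      have := he50 i
      exact_mod_cast (by omega : 0 < ee s i)
    rw [h1, div_le_div_iff₀ (by positivity) h3]
    nlinarith
  linarith

end Pool.Agent.H87.EG
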