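import Pool.Agent.H87.EG.PsiIp

/-!
MODULE OrbA (about 120 lines). Regular linear characters: inner products.

`reg_ip`: lam regular: ∑_x |ps lam x|^2 = |L| (the count in ps_ip is the stabilizer of lam in L,
which is H: Reg gives ⊆; ⊇: lam (h⁻¹ x h) = lam x for h ∈ H).
`ne_ip`: ps lam ≠ ps mu: the count in ps_ip is 0 by ps_eq_iff.
`one_ip`: the count is |L|. `reg_ne_one`: the orbit of 1 is {1}, so lam = 1; the stabilizer of 1
in L is L, so Reg gives L ≤ H. `reg_inv`: lam⁻¹ (l⁻¹ x l) = lam⁻¹ x iff lam (l⁻¹ x l) = lam x.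
-/

open Finset

namespace Pool.Agent.H87.EG

open Pool.Agent.H7.Artin Pool.Agent.H72.Sol Pool.Agent.H31.Thr

variable {G : Type} [Group G] [Fintype G] {L H : Subgroup G}

private theorem orbA_inner (lam : H →* ℂˣ) {h : G} (hh : h ∈ H) (x : G) :
    ex H lam (h⁻¹ * x * h) = ex H lam x := by
  unfold ex
  by_cases hx : x ∈ H
  · have h1 : h⁻¹ * x * h ∈ H := H.mul_mem (H.mul_mem (H.inv_mem hh) hx) hh
    rw [dif_pos hx, dif_pos h1]
    have e : (⟨h⁻¹ * x * h, h1⟩ : H) = (⟨h, hh⟩ : H)⁻¹ * ⟨x, hx⟩ * ⟨h, hh⟩ := by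
      apply Subtype.ext
      simp
    rw [e, map_mul, map_mul, map_inv, mul_comm, mul_inv_cancel_left]
  · have h1 : ¬ h⁻¹ * x * h ∈ H := by
      intro h2
      apply hx
      have h3 := H.mul_mem (H.mul_mem hh h2) (H.inv_mem hh)
      have e : h * (h⁻¹ * x * h) * h⁻¹ = x := by group
      rwa [e] at h3
    rw [dif_neg hx, dif_neg h1]

private theorem orbA_one (hnm : ∀ l ∈ L, ∀ x ∈ H, l * x * l⁻¹ ∈ H) {l : G} (hl : l ∈ L) (x : G) :
    ex H 1 (l⁻¹ * x * l) = ex H 1 x := by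
  unfold ex
  by_cases hx : x ∈ H
  · have h1 : l⁻¹ * x * l ∈ H := by
      have := hnm l⁻¹ (L.inv_mem hl) x hx
      rwa [inv_inv] at this
    rw [dif_pos hx, dif_pos h1]
    rfl
  · have h1 : ¬ l⁻¹ * x * l ∈ H := by
      intro h2
      apply hx
      have h3 := hnm l hl _ h2
      have e : l * (l⁻¹ * x * l) * l⁻¹ = x := by group
      rwa [e] at h3
    rw [dif_neg hx, dif_neg h1]

private theorem orbA_card (K : Subgroup G) [DecidablePred fun l : G => l ∈ K] :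
    (univ.filter fun l : G => l ∈ K).card = Nat.card K := by
  classical
  rw [Nat.card_eq_fintype_card, Fintype.card_subtype]

theorem reg_ip (hle : H ≤ L) (hnm : ∀ l ∈ L, ∀ x ∈ H, l * x * l⁻¹ ∈ H) {lam : H →* ℂˣ}
    (hr : Reg L H lam) :
    ∑ x : G, ps L H lam x * starRingEnd ℂ (ps L H lam x) = (Nat.card L : ℂ) := by
  classical
  have hH : (Nat.card H : ℂ) ≠ 0 := Nat.cast_ne_zero.2 Nat.card_pos.ne'
  have h1 : (univ.filter fun l : G => l ∈ L ∧ ∀ x, ex H lam (l⁻¹ * x * l) = ex H lam x) =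
      univ.filter fun l : G => l ∈ H := by
    ext l
    simp only [Finset.mem_filter, Finset.mem_univ, true_and]
    constructor
    · rintro ⟨hl, h⟩
      exact hr l hl h
    · intro hl
      exact ⟨hle hl, fun x => orbA_inner lam hl x⟩
  rw [ps_ip hnm lam lam]
  have h2 : (univ.filter fun l : G => l ∈ L ∧ ∀ x, ex H lam (l⁻¹ * x * l) = ex H lam x).card =
      Nat.card H := by
    rw [h1, orbA_card]
  have h3 : ∀ n : ℕ, n = Nat.card H → (Nat.card L : ℂ) / Nat.card H * (n : ℂ) = Nat.card L := by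
    rintro n rfl
    field_simp
  apply h3
  convert h2

theorem ne_ip (hnm : ∀ l ∈ L, ∀ x ∈ H, l * x * l⁻¹ ∈ H) {lam mu : H →* ℂˣ}
    (h : ps L H lam ≠ ps L H mu) :
    ∑ x : G, ps L H lam x * starRingEnd ℂ (ps L H mu x) = 0 := by
  classical
  rw [ps_ip hnm lam mu]
  have h1 : ∀ n : ℕ, n = 0 → (Nat.card L : ℂ) / Nat.card H * (n : ℂ) = 0 := by
    rintro n rfl
    simp
  apply h1
  rw [Finset.card_eq_zero, Finset.filter_eq_empty_iff]
  rintro l _ ⟨hl, h2⟩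
  exact h ((ps_eq_iff hnm lam mu).2 ⟨l, hl, h2⟩)

theorem one_ip (hnm : ∀ l ∈ L, ∀ x ∈ H, l * x * l⁻¹ ∈ H) :
    ∑ x : G, ps L H 1 x * starRingEnd ℂ (ps L H 1 x) = (Nat.card L : ℂ) ^ 2 / Nat.card H := by
  classical
  rw [ps_ip hnm 1 1]
  have h1 : ∀ n : ℕ, n = Nat.card L →
      (Nat.card L : ℂ) / Nat.card H * (n : ℂ) = (Nat.card L : ℂ) ^ 2 / Nat.card H := by
    rintro n rfl
    ring
  apply h1
  rw [← orbA_card L]
  congr 1
  ext l
  simp only [Finset.mem_filter, Finset.mem_univ, true_and]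
  exact ⟨fun h2 => h2.1, fun hl => ⟨hl, fun x => orbA_one hnm hl x⟩⟩

theorem reg_ne_one (hne : H ≠ L) (hle : H ≤ L) (hnm : ∀ l ∈ L, ∀ x ∈ H, l * x * l⁻¹ ∈ H)
    {lam : H →* ℂˣ} (hr : Reg L H lam) : ps L H lam ≠ ps L H 1 := by
  intro h
  obtain ⟨l, hl, h1⟩ := (ps_eq_iff hnm lam 1).1 h
  have h2 : ∀ x, ex H lam x = ex H 1 x := by
    intro x
    rw [← h1 x, orbA_one hnm hl x]
  apply hne
  refine le_antisymm hle fun k hk => hr k hk fun x => ?_
  rw [h2, h2, orbA_one hnm hk x]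

theorem reg_inv {lam : H →* ℂˣ} (hr : Reg L H lam) : Reg L H lam⁻¹ := by
  intro l hl h
  refine hr l hl fun x => ?_
  have h1 := h x
  rw [← ex_conj, ← ex_conj] at h1
  exact (starRingEnd ℂ).injective h1

end Pool.Agent.H87.EG
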