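import Pool.Agent.H87.EG.Defs

/-!
MODULE PsiA (about 80 lines). The functions ps L H lam: pointwise facts.

H is normalised by L. `ps_inv`: substitution l ↦ k l in the sum. `ps_supp`: if l⁻¹ x l is in H
for some l ∈ L then x ∈ H. `ps_one`: every summand with l ∈ L is 1. `ps_conj`:
conj (lam x) = lam⁻¹ x (the values have finite order, so norm 1).
-/

open Finset

namespace Pool.Agent.H87.EG

open Pool.Agent.H7.Artin Pool.Agent.H72.Sol Pool.Agent.H31.Thr

variable {G : Type} [Group G] [Fintype G] {L H : Subgroup G}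

theorem ps_inv (lam : H →* ℂˣ) {k : G} (hk : k ∈ L) (x : G) :
    ps L H lam (k * x * k⁻¹) = ps L H lam x := by
  unfold ps
  congr 1
  rw [← Equiv.sum_comp (Equiv.mulLeft k)]
  refine Finset.sum_congr rfl fun l _ => ?_
  have h1 : (Equiv.mulLeft k) l = k * l := rfl
  have h2 : (k * l)⁻¹ * (k * x * k⁻¹) * (k * l) = l⁻¹ * x * l := by group
  have h3 : (k * l ∈ L) ↔ l ∈ L := Subgroup.mul_mem_cancel_left L hk
  rw [h1, h2]
  by_cases hl : l ∈ L
  · rw [if_pos hl, if_pos (h3.mpr hl)]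
  · rw [if_neg hl, if_neg (fun h => hl (h3.mp h))]

theorem ps_supp (hnm : ∀ l ∈ L, ∀ x ∈ H, l * x * l⁻¹ ∈ H) (lam : H →* ℂˣ) {x : G} (hx : x ∉ H) :
    ps L H lam x = 0 := by
  unfold ps
  rw [Finset.sum_eq_zero, mul_zero]
  intro l _
  split_ifs with hl
  · unfold ex
    rw [dif_neg]
    intro h
    apply hx
    have := hnm l hl _ h
    have h2 : l * (l⁻¹ * x * l) * l⁻¹ = x := by group
    rwa [h2] at this
  · rfl

theorem ps_one (lam : H →* ℂˣ) : ps L H lam 1 = (Nat.card L : ℂ) / Nat.card H := by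
  classical
  unfold ps
  have h1 : ∀ l : G, (if l ∈ L then ex H lam (l⁻¹ * 1 * l) else 0) = if l ∈ L then (1 : ℂ) else 0 := by
    intro l
    have h2 : l⁻¹ * 1 * l = 1 := by group
    rw [h2]
    have h3 : ex H lam 1 = 1 := by
      unfold ex
      rw [dif_pos H.one_mem]
      have : (⟨1, H.one_mem⟩ : H) = 1 := rfl
      rw [this, map_one]
      simp
    rw [h3]
  have h4 : (∑ l : G, if l ∈ L then (1 : ℂ) else 0) = Nat.card L := by
    rw [Finset.sum_boole]
    congr 1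
    rw [Nat.card_eq_fintype_card, Fintype.card_subtype]
  have h5 : (∑ l : G, if l ∈ L then ex H lam (l⁻¹ * 1 * l) else 0) = (Nat.card L : ℂ) := by
    rw [← h4]
    exact Finset.sum_congr rfl fun l _ => by convert h1 l
  have h6 : (Nat.card H : ℂ)⁻¹ * (Nat.card L : ℂ) = (Nat.card L : ℂ) / Nat.card H := by
    rw [div_eq_mul_inv, mul_comm]
  rw [← h6]
  congr 1

theorem ex_conj (lam : H →* ℂˣ) (x : G) :
    starRingEnd ℂ (ex H lam x) = ex H lam⁻¹ x := by
  unfold ex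
  split_ifs with h
  · have hfin : IsOfFinOrder (⟨x, h⟩ : H) := isOfFinOrder_of_finite _
    have h1 : IsOfFinOrder (lam ⟨x, h⟩) := lam.isOfFinOrder hfin
    have h2 : ‖((lam ⟨x, h⟩ : ℂˣ) : ℂ)‖ = 1 := by
      obtain ⟨n, hn, h3⟩ := isOfFinOrder_iff_pow_eq_one.mp h1
      have h4 : ((lam ⟨x, h⟩ : ℂˣ) : ℂ) ^ n = 1 := by
        rw [← Units.val_pow_eq_pow_val, h3, Units.val_one]
      exact Complex.norm_eq_one_of_pow_eq_one h4 hn.ne'
    have h5 : (((lam⁻¹) ⟨x, h⟩ : ℂˣ) : ℂ) = (((lam ⟨x, h⟩ : ℂˣ) : ℂ))⁻¹ := by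
      rw [MonoidHom.inv_apply, Units.val_inv_eq_inv_val]
    rw [h5, Complex.inv_eq_conj h2]
  · simp

theorem ps_conj (lam : H →* ℂˣ) (x : G) :
    starRingEnd ℂ (ps L H lam x) = ps L H lam⁻¹ x := by
  unfold ps
  rw [map_mul, map_inv₀, Complex.conj_natCast, map_sum]
  congr 1
  refine Finset.sum_congr rfl fun l _ => ?_
  split_ifs with hl
  · exact ex_conj lam _
  · simp

end Pool.Agent.H87.EG
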