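import Pool.Agent.H87.EG.PsiA

/-!
MODULE PsiIp (about 120 lines). Inner products of the functions ps L H lam.

Write f = ex H lam and f^l x = f (l⁻¹ x l).
`ps_ip`: ∑_x ps lam x * conj (ps mu x) = |H|⁻¹ ∑_{l ∈ L} ∑_x f^l x * conj (ps mu x); as ps mu is
L-invariant (ps_inv) the inner sum does not depend on l, so this is
(|L|/|H|) ∑_x f x * conj (ps mu x) = (|L|/|H|^2) ∑_{l ∈ L} ∑_{x ∈ H} f x * conj (mu^l x), and the
last sum is |H| if mu^l = lam on H and 0 otherwise (orthogonality of linear characters: if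
chi : H →* ℂˣ is not 1 then the sum of its values is 0; conj = inverse by ex_conj).
`ps_eq_iff`: if mu^l = lam for some l ∈ L then ps lam = ps mu by substitution; conversely
∑_x ps lam x * conj (ps lam x) ≠ 0 (the count in ps_ip for mu = lam contains l = 1), so if
ps lam = ps mu then the count for lam, mu is not 0.
-/

open Finset

namespace Pool.Agent.H87.EG

open Pool.Agent.H7.Artin Pool.Agent.H72.Sol Pool.Agent.H31.Thr

variable {G : Type} [Group G] [Fintype G] {L H : Subgroup G}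

/-- the quotient of a character and a conjugate of another one -/
private noncomputable def psiIpC (lam mu : H →* ℂˣ) (l : G) (hl : ∀ x ∈ H, l⁻¹ * x * l ∈ H) :
    H →* ℂ where
  toFun x := ((lam x : ℂˣ) : ℂ) * (((mu ⟨l⁻¹ * (x : G) * l, hl x x.2⟩)⁻¹ : ℂˣ) : ℂ)
  map_one' := by
    have : (⟨l⁻¹ * ((1 : H) : G) * l, hl _ (1 : H).2⟩ : H) = 1 := by
      apply Subtype.ext
      simp
    rw [this]
    simp
  map_mul' x y := by
    have : (⟨l⁻¹ * ((x * y : H) : G) * l, hl _ (x * y).2⟩ : H) =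
        ⟨l⁻¹ * (x : G) * l, hl x x.2⟩ * ⟨l⁻¹ * (y : G) * l, hl y y.2⟩ := by
      apply Subtype.ext
      simp only [Subgroup.coe_mul]
      group
    rw [this, map_mul, map_mul, mul_inv]
    push_cast
    ring

private theorem psiIpC_one (lam mu : H →* ℂˣ) (l : G) (hl : ∀ x ∈ H, l⁻¹ * x * l ∈ H)
    (hl' : ∀ x, l⁻¹ * x * l ∈ H → x ∈ H) :
    psiIpC lam mu l hl = 1 ↔ ∀ x, ex H mu (l⁻¹ * x * l) = ex H lam x := by
  constructor
  · intro h x
    by_cases hx : x ∈ H
    · have h1 := DFunLike.congr_fun h (⟨x, hx⟩ : H)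
      have h2 : ((lam ⟨x, hx⟩ : ℂˣ) : ℂ) * (((mu ⟨l⁻¹ * x * l, hl x hx⟩)⁻¹ : ℂˣ) : ℂ) = 1 := h1
      have h3 : lam ⟨x, hx⟩ = mu ⟨l⁻¹ * x * l, hl x hx⟩ := by
        rw [← Units.val_mul, Units.val_eq_one, mul_inv_eq_one] at h2
        exact h2
      rw [ex, ex, dif_pos hx, dif_pos (hl x hx), h3]
    · rw [ex, ex, dif_neg hx, dif_neg (fun h => hx (hl' x h))]
  · intro h
    ext x
    have h1 := h (x : G)
    rw [ex, ex, dif_pos x.2, dif_pos (hl x x.2)] at h1
    change ((lam x : ℂˣ) : ℂ) * (((mu ⟨l⁻¹ * (x : G) * l, hl x x.2⟩)⁻¹ : ℂˣ) : ℂ) = 1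
    have h2 : mu ⟨l⁻¹ * (x : G) * l, hl x x.2⟩ = lam x := Units.ext h1
    rw [h2, ← Units.val_mul, mul_inv_cancel, Units.val_one]

open Classical in
private theorem psiIp_orth (lam mu : H →* ℂˣ) (l : G) (hl : ∀ x ∈ H, l⁻¹ * x * l ∈ H)
    (hl' : ∀ x, l⁻¹ * x * l ∈ H → x ∈ H) :
    ∑ y : G, ex H lam y * starRingEnd ℂ (ex H mu (l⁻¹ * y * l)) =
      if ∀ x, ex H mu (l⁻¹ * x * l) = ex H lam x then (Nat.card H : ℂ) else 0 := by
  have h1 : ∑ y : H, psiIpC lam mu l hl y =
      ∑ y : G, ex H lam y * starRingEnd ℂ (ex H mu (l⁻¹ * y * l)) := by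
    have h2 : ∀ y : H, psiIpC lam mu l hl y =
        (fun y : G => ex H lam y * starRingEnd ℂ (ex H mu (l⁻¹ * y * l))) y := by
      intro y
      simp only [ex_conj]
      rw [ex, ex, dif_pos y.2, dif_pos (hl y y.2)]
      rfl
    rw [Finset.sum_congr rfl fun y _ => h2 y,
      ← Finset.sum_subtype (univ.filter (fun y : G => y ∈ H)) (by simp)
        (fun y : G => ex H lam y * starRingEnd ℂ (ex H mu (l⁻¹ * y * l)))]
    refine Finset.sum_subset (Finset.filter_subset _ _) fun y _ hy => ?_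
    have hy' : y ∉ H := fun h => hy (Finset.mem_filter.2 ⟨Finset.mem_univ _, h⟩)
    have : ex H lam y = 0 := by rw [ex, dif_neg hy']
    rw [this, zero_mul]
  rw [← h1, sum_hom_units, Nat.card_eq_fintype_card]
  simp only [psiIpC_one lam mu l hl hl']
  split_ifs <;> simp

open Classical in
theorem ps_ip (hnm : ∀ l ∈ L, ∀ x ∈ H, l * x * l⁻¹ ∈ H) (lam mu : H →* ℂˣ) :
    ∑ x : G, ps L H lam x * starRingEnd ℂ (ps L H mu x) = (Nat.card L : ℂ) / Nat.card H *
      (univ.filter fun l : G => l ∈ L ∧ ∀ x, ex H mu (l⁻¹ * x * l) = ex H lam x).card := by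
  have hH : (Nat.card H : ℂ) ≠ 0 := Nat.cast_ne_zero.2 Nat.card_pos.ne'
  have hl : ∀ l ∈ L, ∀ x ∈ H, l⁻¹ * x * l ∈ H := by
    intro l h x hx
    have := hnm l⁻¹ (L.inv_mem h) x hx
    rwa [inv_inv] at this
  have hl' : ∀ l ∈ L, ∀ x, l⁻¹ * x * l ∈ H → x ∈ H := by
    intro l h x hx
    have := hnm l h _ hx
    have e : l * (l⁻¹ * x * l) * l⁻¹ = x := by group
    rwa [e] at this
  -- first step: reduction to `∑ f * conj (ps mu)`
  have s1 : ∑ x : G, ps L H lam x * starRingEnd ℂ (ps L H mu x) =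
      (Nat.card L : ℂ) / Nat.card H * ∑ y : G, ex H lam y * starRingEnd ℂ (ps L H mu y) := by
    have h1 : ∀ l ∈ L, ∑ x : G, ex H lam (l⁻¹ * x * l) * starRingEnd ℂ (ps L H mu x) =
        ∑ y : G, ex H lam y * starRingEnd ℂ (ps L H mu y) := by
      intro l h
      refine Fintype.sum_equiv ((MulAut.conj l)⁻¹).toEquiv _ _ fun x => ?_
      have e : ((MulAut.conj l)⁻¹).toEquiv x = l⁻¹ * x * l := by
        simp
      rw [e]
      have e2 := ps_inv (L := L) (H := H) mu (L.inv_mem h) x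
      rw [inv_inv] at e2
      rw [e2]
    have h2 : ∀ x : G, ps L H lam x * starRingEnd ℂ (ps L H mu x) =
        (Nat.card H : ℂ)⁻¹ * ∑ l : G, if l ∈ L then
          ex H lam (l⁻¹ * x * l) * starRingEnd ℂ (ps L H mu x) else 0 := by
      intro x
      conv_lhs => rw [ps]
      rw [mul_assoc, Finset.sum_mul]
      congr 1
      refine Finset.sum_congr rfl fun l _ => ?_
      split_ifs
      · rfl
      · rw [zero_mul]
    rw [Finset.sum_congr rfl fun x _ => h2 x, ← Finset.mul_sum, Finset.sum_comm]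
    have h3 : ∀ l : G, (∑ x : G, if l ∈ L then
        ex H lam (l⁻¹ * x * l) * starRingEnd ℂ (ps L H mu x) else 0) =
        if l ∈ L then ∑ y : G, ex H lam y * starRingEnd ℂ (ps L H mu y) else 0 := by
      intro l
      split_ifs with h
      · exact h1 l h
      · simp
    rw [Finset.sum_congr rfl fun l _ => h3 l, ← Finset.sum_filter, Finset.sum_const, nsmul_eq_mul]
    have h4 : (univ.filter (fun l : G => l ∈ L)).card = Nat.card L := by
      rw [Nat.card_eq_fintype_card, Fintype.card_subtype]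
    rw [h4]
    ring
  have s2 : ∑ y : G, ex H lam y * starRingEnd ℂ (ps L H mu y) =
      (univ.filter fun l : G => l ∈ L ∧ ∀ x, ex H mu (l⁻¹ * x * l) = ex H lam x).card := by
    have h2 : ∀ y : G, ex H lam y * starRingEnd ℂ (ps L H mu y) =
        (Nat.card H : ℂ)⁻¹ * ∑ l : G, if l ∈ L then
          ex H lam y * starRingEnd ℂ (ex H mu (l⁻¹ * y * l)) else 0 := by
      intro y
      rw [ps, map_mul, map_inv₀, Complex.conj_natCast, map_sum, mul_left_comm, Finset.mul_sum]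
      congr 1
      refine Finset.sum_congr rfl fun l _ => ?_
      split_ifs
      · rfl
      · rw [map_zero, mul_zero]
    rw [Finset.sum_congr rfl fun x _ => h2 x, ← Finset.mul_sum, Finset.sum_comm]
    have h3 : ∀ l : G, (∑ y : G, if l ∈ L then
        ex H lam y * starRingEnd ℂ (ex H mu (l⁻¹ * y * l)) else 0) =
        if l ∈ L ∧ ∀ x, ex H mu (l⁻¹ * x * l) = ex H lam x then (Nat.card H : ℂ) else 0 := by
      intro l
      by_cases h : l ∈ L
      · simp only [h, if_true, true_and]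
        exact psiIp_orth lam mu l (hl l h) (hl' l h)
      · simp [h]
    rw [Finset.sum_congr rfl fun l _ => h3 l, ← Finset.sum_filter, Finset.sum_const, nsmul_eq_mul]
    field_simp
  rw [s1, s2]

theorem ps_eq_iff (hnm : ∀ l ∈ L, ∀ x ∈ H, l * x * l⁻¹ ∈ H) (lam mu : H →* ℂˣ) :
    ps L H lam = ps L H mu ↔ ∃ l ∈ L, ∀ x, ex H mu (l⁻¹ * x * l) = ex H lam x := by
  classical
  constructor
  · intro h
    have h1 := ps_ip hnm lam mu
    have h2 := ps_ip hnm lam lam
    rw [← h, h2] at h1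
    have hc : (Nat.card L : ℂ) / Nat.card H ≠ 0 :=
      div_ne_zero (Nat.cast_ne_zero.2 Nat.card_pos.ne') (Nat.cast_ne_zero.2 Nat.card_pos.ne')
    have h3 := mul_left_cancel₀ hc h1
    have h4 : 0 < (univ.filter fun l : G => l ∈ L ∧
        ∀ x, ex H lam (l⁻¹ * x * l) = ex H lam x).card := by
      refine Finset.card_pos.2 ⟨1, ?_⟩
      simp [L.one_mem]
    have h5 := Nat.cast_injective (R := ℂ) h3
    rw [h5] at h4
    obtain ⟨l, hl⟩ := Finset.card_pos.1 h4
    exact ⟨l, (Finset.mem_filter.1 hl).2⟩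
  · rintro ⟨l, hl, h⟩
    funext x
    rw [ps, ps]
    congr 1
    refine Fintype.sum_equiv (Equiv.mulRight l) _ _ fun k => ?_
    have e : Equiv.mulRight l k = k * l := rfl
    rw [e]
    have h1 : k * l ∈ L ↔ k ∈ L := L.mul_mem_cancel_right hl
    simp only [h1]
    split_ifs
    · rw [← h]
      congr 1
      group
    · rfl

end Pool.Agent.H87.EG
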