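import Pool.Agent.H87.EG.Defs

/-!
MODULE TauA (about 60 lines). The lift: pointwise facts.

att i x g, att i x' g imply x' = l x l⁻¹ with l in L i (att_fus), so tau s i a g = a x whenever
att i x g and a is L i - invariant.
-/

open Finset

namespace Pool.Agent.H87.EG

open Pool.Agent.H7.Artin Pool.Agent.H72.Sol Pool.Agent.H31.Thr

variable {G : Type} [Group G] [Finite G] {ι : Type} (s : Sys G ι)

theorem tau_of_att {i : ι} {a : G → ℂ} (ha : ∀ l ∈ s.L i, ∀ x, a (l * x * l⁻¹) = a x) {x g : G}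
    (h : s.att i x g) : tau s i a g = a x := by
  have hex : ∃ x, s.att i x g := ⟨x, h⟩
  unfold tau
  rw [dif_pos hex]
  obtain ⟨-, l, hl, hlx⟩ := s.att_fus i i x hex.choose g h hex.choose_spec
  rw [← hlx]
  exact ha l hl x

theorem tau_of_not {i : ι} (a : G → ℂ) {g : G} (h : ∀ x, ¬ s.att i x g) : tau s i a g = 0 := by
  unfold tau
  rw [dif_neg]
  rintro ⟨x, hx⟩
  exact h x hx

private theorem TauA_att_iff (i : ι) (x k g : G) : s.att i x (k * g * k⁻¹) ↔ s.att i x g := by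
  constructor
  · intro h
    have := s.att_conj i x _ k⁻¹ h
    have h2 : k⁻¹ * (k * g * k⁻¹) * k⁻¹⁻¹ = g := by group
    rwa [h2] at this
  · exact s.att_conj i x g k

theorem tau_cls {i : ι} {a : G → ℂ} (ha : ∀ l ∈ s.L i, ∀ x, a (l * x * l⁻¹) = a x) (k g : G) :
    tau s i a (k * g * k⁻¹) = tau s i a g := by
  by_cases h : ∃ x, s.att i x g
  · obtain ⟨x, hx⟩ := h
    rw [tau_of_att s ha hx, tau_of_att s ha ((TauA_att_iff s i x k g).mpr hx)]
  · have h1 : ∀ x, ¬ s.att i x g := fun x hx => h ⟨x, hx⟩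
    have h2 : ∀ x, ¬ s.att i x (k * g * k⁻¹) := fun x hx =>
      h ⟨x, (TauA_att_iff s i x k g).mp hx⟩
    rw [tau_of_not s a h1, tau_of_not s a h2]

theorem tau_conj (i : ι) (a : G → ℂ) (g : G) :
    starRingEnd ℂ (tau s i a g) = tau s i (fun x => starRingEnd ℂ (a x)) g := by
  unfold tau
  by_cases h : ∃ x, s.att i x g
  · rw [dif_pos h, dif_pos h]
  · rw [dif_neg h, dif_neg h, map_zero]

theorem tau_vir {i : ι} {a : G → ℂ} (ha : ∀ l ∈ s.L i, ∀ x, a (l * x * l⁻¹) = a x)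
    (hs : ∀ x, x ∉ s.H i → a x = 0) (h1 : a 1 = 0) (hv : Vir (fun l : s.L i => a l)) :
    Vir (tau s i a) :=
  s.vir i a (tau s i a) ha hs h1 hv (fun _ _ h => tau_of_att s ha h)
    (fun _ h => tau_of_not s a h)

end Pool.Agent.H87.EG
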