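import Pool.Agent.H87.EG.CoreFalse

/-!
The total measure of the classes of local subgroups.
-/

open Finset

namespace Pool.Agent.H87.EG

open Pool.Agent.H7.Artin Pool.Agent.H72.Sol Pool.Agent.H31.Thr Pool.Agent.H1.LF

variable {G : Type} [Group G]

section sys

variable [Fintype G] {ι : Type} (s : Sys G ι)

open Classical in
/-- the indicator function of H i minus 1 -/
noncomputable def ind (i : ι) (x : G) : ℂ := if x ∈ s.H i ∧ x ≠ 1 then 1 else 0

theorem ind_inv (i : ι) : ∀ l ∈ s.L i, ∀ x, ind s i (l * x * l⁻¹) = ind s i x := by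
  classical
  intro l hl x
  have h : (l * x * l⁻¹ ∈ s.H i ∧ l * x * l⁻¹ ≠ 1) ↔ (x ∈ s.H i ∧ x ≠ 1) := by
    constructor
    · rintro ⟨h1, h2⟩
      refine ⟨?_, fun h => h2 (by rw [h]; group)⟩
      have h3 := s.hnm i l⁻¹ ((s.L i).inv_mem hl) _ h1
      have h4 : l⁻¹ * (l * x * l⁻¹) * l⁻¹⁻¹ = x := by group
      rwa [h4] at h3
    · rintro ⟨h1, h2⟩
      exact ⟨s.hnm i l hl x h1, fun h => h2 (conj_eq_one_iff.1 h)⟩
  unfold ind
  by_cases h' : x ∈ s.H i ∧ x ≠ 1
  · rw [if_pos h', if_pos (h.2 h')]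
  · rw [if_neg h', if_neg (fun h2 => h' (h.1 h2))]

theorem ind_sum (i : ι) : ∑ x : G, ind s i x = (Nat.card (s.H i) : ℂ) - 1 := by
  classical
  unfold ind
  rw [Finset.sum_boole]
  have h1 : (univ.filter fun x : G => x ∈ s.H i ∧ x ≠ 1)
      = (univ.filter fun x : G => x ∈ s.H i).erase 1 := by
    ext x
    simp [and_comm]
  have h2 : (univ.filter fun x : G => x ∈ s.H i).card = Nat.card (s.H i) := by
    rw [Nat.card_eq_fintype_card, Fintype.card_subtype]
  rw [h1, Finset.card_erase_of_mem (by simp [(s.H i).one_mem]), h2,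
    Nat.cast_sub (Nat.card_pos), Nat.cast_one]

open Classical in
theorem tau_ind (i : ι) (g : G) : tau s i (ind s i) g = if ∃ x, s.att i x g then 1 else 0 := by
  by_cases h : ∃ x, s.att i x g
  · rw [if_pos h]
    obtain ⟨x, hx⟩ := h
    rw [tau_of_att s (ind_inv s i) hx]
    unfold ind
    rw [if_pos (s.att_mem i x g hx)]
  · rw [if_neg h]
    push Not at h
    exact tau_of_not s _ h

/-- the number of elements attached to a class -/
theorem card_dom (i : ι) : (Nat.card {g : G // ∃ x, s.att i x g} : ℝ)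
    = Nat.card G * (((Nat.card (s.H i) : ℝ) - 1) / Nat.card (s.L i)) := by
  classical
  have hG : (Nat.card G : ℂ) ≠ 0 := by exact_mod_cast Nat.card_pos.ne'
  have hL : (Nat.card (s.L i) : ℂ) ≠ 0 := by exact_mod_cast Nat.card_pos.ne'
  have h1 := tau_hp_one s (ind_inv s i) (fun x hx => by
    unfold ind
    rw [if_neg (fun h => hx h.1)]) (by
    unfold ind
    rw [if_neg (fun h => h.2 rfl)])
  rw [ind_sum] at h1
  unfold hp at h1
  simp_rw [tau_ind, map_one, mul_one] at h1
  rw [Finset.sum_boole] at h1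
  have h2 : ((univ.filter fun g : G => ∃ x, s.att i x g).card : ℂ)
      = Nat.card {g : G // ∃ x, s.att i x g} := by
    rw [Nat.card_eq_fintype_card, Fintype.card_subtype]
  rw [h2] at h1
  have h3 : (Nat.card {g : G // ∃ x, s.att i x g} : ℂ)
      = Nat.card G * (((Nat.card (s.H i) : ℂ) - 1) / Nat.card (s.L i)) := by
    field_simp at h1 ⊢
    linear_combination h1
  exact_mod_cast h3

/-- **Total measure.** If every nontrivial element is attached to some class then the sum of the
measures is 1 - 1 / |G|. -/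
theorem total [Fintype ι] (hcov : ∀ g : G, g ≠ 1 → ∃ i x, s.att i x g) :
    ∑ i, ((Nat.card (s.H i) : ℝ) - 1) / Nat.card (s.L i) = 1 - 1 / Nat.card G := by
  classical
  have hG : (Nat.card G : ℝ) ≠ 0 := by exact_mod_cast Nat.card_pos.ne'
  have h1 : ∑ i, (Nat.card {g : G // ∃ x, s.att i x g} : ℝ) = Nat.card G - 1 := by
    have h2 : ∀ i, (Nat.card {g : G // ∃ x, s.att i x g} : ℝ)
        = ∑ g : G, if ∃ x, s.att i x g then (1 : ℝ) else 0 := by
      intro i
      rw [Finset.sum_boole, Nat.card_eq_fintype_card, Fintype.card_subtype]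
    simp_rw [h2]
    rw [Finset.sum_comm]
    have h3 : ∀ g : G, ∑ i, (if ∃ x, s.att i x g then (1 : ℝ) else 0)
        = if g ≠ 1 then 1 else 0 := by
      intro g
      by_cases hg : g ≠ 1
      · rw [if_pos hg]
        obtain ⟨i, x, hix⟩ := hcov g hg
        rw [Finset.sum_eq_single i]
        · rw [if_pos ⟨x, hix⟩]
        · intro k _ hk
          rw [if_neg]
          rintro ⟨y, hy⟩
          exact hk (s.att_fus k i y x g hy hix).1
        · intro h
          exact absurd (Finset.mem_univ _) h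
      · rw [if_neg hg]
        push Not at hg
        subst hg
        refine Finset.sum_eq_zero fun i _ => ?_
        rw [if_neg]
        rintro ⟨x, hx⟩
        exact s.att_one i x hx
    simp_rw [h3]
    rw [Finset.sum_boole]
    have h4 : (univ.filter fun g : G => g ≠ 1).card = Nat.card G - 1 := by
      rw [Finset.filter_ne', Finset.card_erase_of_mem (Finset.mem_univ _), Finset.card_univ,
        Nat.card_eq_fintype_card]
    rw [h4, Nat.cast_sub Nat.card_pos, Nat.cast_one]
  simp_rw [card_dom] at h1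
  rw [← Finset.mul_sum] at h1
  field_simp
  linear_combination h1

end sys

/-- **Final form.** ι = all classes, D, hdis and hcov for all of them; the classes which are not
good have total measure at most 1/100. -/
theorem core_false_all [Finite G] (hodd : Odd (Nat.card G)) {ι : Type} [Finite ι]
    (M F : ι → Subgroup G) (L N : ι → G → Subgroup G)
    (D : ∀ i, LiftData (M i) (F i) (L i) (N i))
    (hdis : ∀ i k, i ≠ k → ∀ x ∈ F i, x ≠ 1 → ∀ x' ∈ F k, x' ≠ 1 →
      ∀ r ∈ RR (M i) (F i) (N i) x, ∀ r' ∈ RR (M k) (F k) (N k) x', ∀ g : G,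
        g * (x * r) * g⁻¹ ≠ x' * r')
    (hcov : ∀ g : G, g ≠ 1 → ∃ i, ∃ x ∈ F i, x ≠ 1 ∧ ∃ r ∈ RR (M i) (F i) (N i) x, ∃ k : G,
      g = k * (x * r) * k⁻¹)
    (good : ι → Prop)
    (hneg : ∑ᶠ i : {i // ¬ good i}, ((Nat.card (F i) : ℝ) - 1) / Nat.card (M i) ≤ 1 / 100)
    (hnil : ∀ i, good i → Group.IsNilpotent (F i))
    (hcop : ∀ i, good i → (Nat.card (F i)).Coprime ((F i).relIndex (M i)))
    (hab : ∀ i, good i → ∀ a ∈ M i, ∀ b ∈ M i, a * b * a⁻¹ * b⁻¹ ∈ F i)
    (hC : ∀ i, good i → ∀ m ∈ M i, (∀ x ∈ F i, m * x = x * m) → m ∈ F i)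
    (h50 : ∀ i, good i → 50 * Nat.card (F i) ≤ Nat.card (M i))
    (hpair : ∀ i k, good i → good k → i ≠ k → (Nat.card (F i)).Coprime (Nat.card (F k)))
    (hG : 100 ≤ Nat.card G) : False := by
  classical
  let _ : Fintype G := Fintype.ofFinite G
  let _ : Fintype ι := Fintype.ofFinite ι
  have htotal := total (mkSys M F L N D hdis) (by
    intro g hg
    obtain ⟨i, x, hx, hx1, r, hr, k, hk⟩ := hcov g hg
    exact ⟨i, x, hx, hx1, r, hr, k, hk⟩)
  refine core_false hodd (ι := {i // good i}) (fun i => M i) (fun i => F i) (fun i => L i)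
    (fun i => N i) (fun i => D i) ?_ (fun i => hnil i i.2) (fun i => hcop i i.2)
    (fun i => hab i i.2) (fun i => hC i i.2) (fun i => h50 i i.2) ?_ ?_
  · intro i k hik
    exact hdis i k (fun h => hik (Subtype.ext h))
  · intro i k hik
    exact hpair i k i.2 k.2 (fun h => hik (Subtype.ext h))
  · rw [finsum_eq_sum_of_fintype]
    rw [finsum_eq_sum_of_fintype] at hneg
    have h1 : ∑ i : {i // good i}, ((Nat.card (F i) : ℝ) - 1) / Nat.card (M i)
        + ∑ i : {i // ¬ good i}, ((Nat.card (F i) : ℝ) - 1) / Nat.card (M i)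
        = 1 - 1 / Nat.card G := by
      rw [← htotal]
      exact Fintype.sum_subtype_add_sum_subtype (p := good)
        (fun i => ((Nat.card (F i) : ℝ) - 1) / Nat.card (M i))
    have h2 : (1 : ℝ) / Nat.card G ≤ 1 / 100 := by
      apply one_div_le_one_div_of_le (by norm_num)
      exact_mod_cast hG
    linarith

end Pool.Agent.H87.EG
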